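import Pool.Agent.Y961.JR.Disc

set_option autoImplicit false

/-! # The joint criterion: choice of the parameters -/

namespace Pool.Agent.Y961.JR

open Finset Filter
open Pool.Agent.H469R2.NK (e norm_e e_add conj_e e_zero)

lemma ev_bounds (r R : ℕ) (hr : 1 ≤ r) (hR : r ≤ R) : ∀ᶠ X : ℝ in atTop, 8 ≤ X ∧
    ∀ q : ℕ, 1 ≤ q → (q : ℝ) ≤ X ^ (2 / 5 : ℝ) → ∀ N : ℝ, 0 ≤ N →
    1 ≤ ⌈X ^ (3 * R)⌉₊ ∧ 3 * q ≤ ⌈X ^ (3 * R)⌉₊ ∧ ((⌈X ^ (3 * R)⌉₊ : ℕ) : ℝ) ^ 3 ≤ X ^ (10 * R) ∧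
    (q : ℝ) ^ r * ((3 * r + 4) * N / (⌈X ^ (3 * R)⌉₊ : ℕ) +
      ((⌈X ^ (3 * R)⌉₊ : ℕ) : ℝ) ^ (3 * r) * (N * X ^ (-(20 * (R : ℝ) ^ 2)))) ≤
      N * X ^ (-(2 * (R : ℝ))) / 2 := by
  have h1 : ∀ᶠ X : ℝ in atTop, 4 * (3 * (r : ℝ) + 4) ≤ X ^ (3 / 5 : ℝ) :=
    (tendsto_rpow_atTop (by norm_num)).eventually_ge_atTop _
  filter_upwards [h1, eventually_ge_atTop (8 : ℝ)] with X hX1 hX8
  refine ⟨hX8, ?_⟩
  intro q hq hqX N hN
  have hX0 : 0 < X := by linarith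
  have hX1' : 1 ≤ X := by linarith
  have hR1 : 1 ≤ R := hr.trans hR
  have hRr : (1 : ℝ) ≤ R := by exact_mod_cast hR1
  set Y : ℝ := X ^ (3 * R) with hY
  have hYX2 : X ^ 2 ≤ Y := pow_le_pow_right₀ hX1' (by omega)
  have hYX : X ≤ Y := by nlinarith
  set K : ℕ := ⌈Y⌉₊ with hK
  have hKY : Y ≤ K := Nat.le_ceil _
  have hK2 : (K : ℝ) ≤ 2 * Y := by
    have := (Nat.ceil_lt_add_one (show 0 ≤ Y by linarith)).le
    linarith
  have hKpos : (0 : ℝ) < K := by linarith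
  have hK1 : 1 ≤ K := by
    have : 0 < K := by exact_mod_cast hKpos
    omega
  have hq0 : (0 : ℝ) < q := by exact_mod_cast hq
  have hqX1 : (q : ℝ) ≤ X := by
    refine hqX.trans ?_
    calc X ^ (2 / 5 : ℝ) ≤ X ^ (1 : ℝ) := Real.rpow_le_rpow_of_exponent_le hX1' (by norm_num)
      _ = X := Real.rpow_one X
  have hX8R : (8 : ℝ) ≤ X ^ R := by
    calc (8 : ℝ) ≤ X ^ 1 := by rw [pow_one]; exact hX8
      _ ≤ X ^ R := pow_le_pow_right₀ hX1' hR1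
  refine ⟨hK1, ?_, ?_, ?_⟩
  · have : (3 * (q : ℝ)) ≤ K := by nlinarith
    exact_mod_cast this
  · calc (K : ℝ) ^ 3 ≤ (2 * Y) ^ 3 := pow_le_pow_left₀ hKpos.le hK2 3
      _ = 8 * X ^ (9 * R) := by
        rw [hY, mul_pow, ← pow_mul]
        norm_num
        congr 1
        ring
      _ ≤ X ^ R * X ^ (9 * R) := by gcongr
      _ = X ^ (10 * R) := by rw [← pow_add]; congr 1; ring
  · have hqr : (q : ℝ) ^ r ≤ X ^ ((2 / 5 : ℝ) * R) := by
      calc (q : ℝ) ^ r ≤ (q : ℝ) ^ R := pow_le_pow_right₀ (by exact_mod_cast hq) hR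
        _ ≤ (X ^ (2 / 5 : ℝ)) ^ R := pow_le_pow_left₀ hq0.le hqX R
        _ = X ^ ((2 / 5 : ℝ) * R) := by rw [Real.rpow_mul hX0.le, Real.rpow_natCast]
    have hYr : Y = X ^ (3 * (R : ℝ)) := by
      rw [hY, ← Real.rpow_natCast]
      push_cast
      rfl
    have hKinv : (3 * (r : ℝ) + 4) * N / K ≤ (3 * (r : ℝ) + 4) * N * X ^ (-(3 * (R : ℝ))) := by
      rw [Real.rpow_neg hX0.le, ← hYr, div_eq_mul_inv]
      have hY0 : 0 < Y := by linarith
      gcongr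
    have t1 : (q : ℝ) ^ r * ((3 * r + 4) * N / K) ≤ N * X ^ (-(2 * (R : ℝ))) / 4 := by
      have e1 : X ^ ((2 / 5 : ℝ) * R) * X ^ (-(3 * (R : ℝ))) =
          X ^ (-(2 * (R : ℝ))) * X ^ (-((3 / 5 : ℝ) * R)) := by
        rw [← Real.rpow_add hX0, ← Real.rpow_add hX0]
        congr 1
        ring
      have e2 : (3 * (r : ℝ) + 4) * X ^ (-((3 / 5 : ℝ) * R)) ≤ 1 / 4 := by
        have e3 : X ^ (-((3 / 5 : ℝ) * R)) ≤ X ^ (-(3 / 5) : ℝ) :=
          Real.rpow_le_rpow_of_exponent_le hX1' (by linarith)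
        have e4 : X ^ (-(3 / 5) : ℝ) = (X ^ (3 / 5 : ℝ))⁻¹ := Real.rpow_neg hX0.le _
        have e5 : 0 < X ^ (3 / 5 : ℝ) := Real.rpow_pos_of_pos hX0 _
        calc (3 * (r : ℝ) + 4) * X ^ (-((3 / 5 : ℝ) * R)) ≤
              (X ^ (3 / 5 : ℝ) / 4) * (X ^ (3 / 5 : ℝ))⁻¹ := by
              rw [← e4]
              apply mul_le_mul _ e3 (Real.rpow_nonneg hX0.le _) (by positivity)
              linarith
          _ = 1 / 4 := by field_simp
      calc (q : ℝ) ^ r * ((3 * r + 4) * N / K) ≤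
            X ^ ((2 / 5 : ℝ) * R) * ((3 * (r : ℝ) + 4) * N * X ^ (-(3 * (R : ℝ)))) := by
            apply mul_le_mul hqr hKinv (by positivity) (Real.rpow_nonneg hX0.le _)
        _ = (X ^ ((2 / 5 : ℝ) * R) * X ^ (-(3 * (R : ℝ)))) * ((3 * (r : ℝ) + 4) * N) := by ring
        _ = N * X ^ (-(2 * (R : ℝ))) * ((3 * (r : ℝ) + 4) * X ^ (-((3 / 5 : ℝ) * R))) := by
            rw [e1]; ring
        _ ≤ N * X ^ (-(2 * (R : ℝ))) * (1 / 4) := by
            apply mul_le_mul_of_nonneg_left e2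
            exact mul_nonneg hN (Real.rpow_nonneg hX0.le _)
        _ = _ := by ring
    have t2 : (q : ℝ) ^ r * ((K : ℝ) ^ (3 * r) * (N * X ^ (-(20 * (R : ℝ) ^ 2)))) ≤
        N * X ^ (-(2 * (R : ℝ))) / 4 := by
      have hKr : (K : ℝ) ^ (3 * r) ≤ X ^ (10 * (R : ℝ) ^ 2) := by
        have hKone : (1 : ℝ) ≤ K := by exact_mod_cast hK1
        calc (K : ℝ) ^ (3 * r) ≤ (K : ℝ) ^ (3 * R) := pow_le_pow_right₀ hKone (by omega)
          _ = ((K : ℝ) ^ 3) ^ R := pow_mul _ _ _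
          _ ≤ (X ^ (10 * R)) ^ R := by
            apply pow_le_pow_left₀ (by positivity)
            calc (K : ℝ) ^ 3 ≤ (2 * Y) ^ 3 := pow_le_pow_left₀ hKpos.le hK2 3
              _ = 8 * X ^ (9 * R) := by
                rw [hY, mul_pow, ← pow_mul]
                norm_num
                congr 1
                ring
              _ ≤ X ^ R * X ^ (9 * R) := by gcongr
              _ = X ^ (10 * R) := by rw [← pow_add]; congr 1; ring
          _ = X ^ (10 * (R : ℝ) ^ 2) := by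
            rw [← pow_mul, ← Real.rpow_natCast]
            congr 1
            push_cast
            ring
      have e1 : X ^ ((2 / 5 : ℝ) * R) * (X ^ (10 * (R : ℝ) ^ 2) * X ^ (-(20 * (R : ℝ) ^ 2))) ≤
          X ^ (-(2 * (R : ℝ))) * (1 / 4) := by
        have e2 : X ^ ((2 / 5 : ℝ) * R) * (X ^ (10 * (R : ℝ) ^ 2) * X ^ (-(20 * (R : ℝ) ^ 2))) ≤
            X ^ (-(2 * (R : ℝ))) * X ^ (-1 : ℝ) := by
          rw [← Real.rpow_add hX0, ← Real.rpow_add hX0, ← Real.rpow_add hX0]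
          apply Real.rpow_le_rpow_of_exponent_le hX1'
          nlinarith
        refine e2.trans ?_
        apply mul_le_mul_of_nonneg_left _ (Real.rpow_nonneg hX0.le _)
        rw [Real.rpow_neg_one, ← one_div]
        exact one_div_le_one_div_of_le (by norm_num) (by linarith)
      calc (q : ℝ) ^ r * ((K : ℝ) ^ (3 * r) * (N * X ^ (-(20 * (R : ℝ) ^ 2)))) ≤
            X ^ ((2 / 5 : ℝ) * R) * (X ^ (10 * (R : ℝ) ^ 2) * (N * X ^ (-(20 * (R : ℝ) ^ 2)))) := by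
            have h9 : 0 ≤ N * X ^ (-(20 * (R : ℝ) ^ 2)) := mul_nonneg hN (Real.rpow_nonneg hX0.le _)
            apply mul_le_mul hqr _ (by positivity) (Real.rpow_nonneg hX0.le _)
            exact mul_le_mul_of_nonneg_right hKr h9
        _ = N * (X ^ ((2 / 5 : ℝ) * R) * (X ^ (10 * (R : ℝ) ^ 2) * X ^ (-(20 * (R : ℝ) ^ 2)))) := by
            ring
        _ ≤ N * (X ^ (-(2 * (R : ℝ))) * (1 / 4)) := mul_le_mul_of_nonneg_left e1 hN
        _ = _ := by ring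
    rw [mul_add]
    linarith

end Pool.Agent.Y961.JR
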