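import Pool.Agent.TH915.PW.Disc

set_option autoImplicit false

/-! # Sums over residue classes in intervals, and geometric sums -/

namespace Pool.Agent.Y961.JR

open Finset
open Pool.Agent.H469R2.NK (e norm_e e_add conj_e e_zero)
open Pool.Agent.TH915.PW (kernel_small)

lemma geom_bound (θ x δ : ℝ) (hδ : 0 < δ) (hθ : ∀ m : ℤ, δ ≤ |θ - m|) (L : ℕ) :
    ‖∑ m ∈ range L, e (x + m * θ)‖ ≤ 2 / δ := by
  have h1 : ∑ m ∈ range L, e (x + m * θ) = e x * ∑ m ∈ range L, e (m * θ) := by
    rw [Finset.mul_sum]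
    exact Finset.sum_congr rfl fun m _ => e_add _ _
  rw [h1, norm_mul, norm_e, one_mul]
  have h2 : δ ≤ Int.fract θ := by
    have := hθ ⌊θ⌋
    rwa [Int.self_sub_floor, abs_of_nonneg (Int.fract_nonneg θ)] at this
  have h3 : Int.fract θ ≤ 1 - δ := by
    have := hθ (⌊θ⌋ + 1)
    have h4 : θ - ((⌊θ⌋ + 1 : ℤ) : ℝ) = Int.fract θ - 1 := by
      push_cast
      rw [← Int.self_sub_floor]
      ring
    rw [h4, abs_of_nonpos (by linarith [Int.fract_lt_one θ])] at this
    linarith
  have h5 := kernel_small L θ δ hδ h2 h3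
  have h6 : 4 / δ ^ 2 = (2 / δ) ^ 2 := by rw [div_pow]; norm_num
  rw [h6] at h5
  exact (pow_le_pow_iff_left₀ (norm_nonneg _) (by positivity) (by norm_num)).mp h5

/-- the integers of a residue class in an interval form an arithmetic progression -/
lemma class_param (A B q : ℕ) (hq : 1 ≤ q) (hAB : A ≤ B) (b : ℤ) : ∃ n₀ L : ℕ, A < n₀ ∧
    n₀ ≤ A + q ∧ |(L : ℝ) - ((B : ℝ) - A) / q| ≤ 1 ∧ (∀ m < L, n₀ + q * m ≤ B) ∧
    ((Ioc A B).filter (fun n : ℕ => (q : ℤ) ∣ (n : ℤ) - b)).card = L ∧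
    ∀ f : ℕ → ℂ, ∑ n ∈ (Ioc A B).filter (fun n : ℕ => (q : ℤ) ∣ (n : ℤ) - b), f n =
      ∑ m ∈ range L, f (n₀ + q * m) := by
  have hqi : (0 : ℤ) < q := by exact_mod_cast hq
  set t : ℤ := (b - (A + 1)) % q with ht
  have ht0 : 0 ≤ t := Int.emod_nonneg _ hqi.ne'
  have ht1 : t < q := Int.emod_lt_of_pos _ hqi
  have htd : (q : ℤ) ∣ (b - (A + 1)) - t := Int.dvd_self_sub_emod
  set n₀ : ℕ := A + 1 + t.toNat with hn₀
  have hn0' : (n₀ : ℤ) = A + 1 + t := by
    rw [hn₀]
    push_cast
    rw [Int.toNat_of_nonneg ht0]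
  have hn1 : A < n₀ := by omega
  have hn2 : n₀ ≤ A + q := by omega
  have hnd : (q : ℤ) ∣ (n₀ : ℤ) - b := by
    have : (n₀ : ℤ) - b = -((b - (A + 1)) - t) := by rw [hn0']; ring
    rw [this]
    exact (dvd_neg).mpr htd
  set L : ℕ := (B + q - n₀) / q with hL
  have hLq : L * q ≤ B + q - n₀ := Nat.div_mul_le_self _ _
  have hLq2 : B + q - n₀ < (L + 1) * q := by
    have := Nat.lt_div_mul_add (a := B + q - n₀) (b := q) (by omega)
    calc B + q - n₀ < (B + q - n₀) / q * q + q := this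
      _ = (L + 1) * q := by rw [hL]; ring
  have himg : (Ioc A B).filter (fun n : ℕ => (q : ℤ) ∣ (n : ℤ) - b) =
      (range L).image (fun m => n₀ + q * m) := by
    ext n
    simp only [Finset.mem_filter, Finset.mem_Ioc, Finset.mem_image, Finset.mem_range]
    constructor
    · rintro ⟨⟨h1, h2⟩, h3⟩
      have h4 : (q : ℤ) ∣ (n : ℤ) - n₀ := by
        have : (n : ℤ) - n₀ = ((n : ℤ) - b) - ((n₀ : ℤ) - b) := by ring
        rw [this]
        exact dvd_sub h3 hnd
      obtain ⟨k, hk⟩ := h4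
      have h5 : -1 < k := by
        by_contra hcon
        push Not at hcon
        have h6 : (q : ℤ) * k ≤ q * (-1) := by nlinarith
        omega
      refine ⟨k.toNat, ?_, ?_⟩
      · have h6 : ((k.toNat : ℕ) : ℤ) = k := Int.toNat_of_nonneg (by omega)
        have h7 : k.toNat + 1 ≤ L := by
          rw [hL, Nat.le_div_iff_mul_le (by omega)]
          zify [show n₀ ≤ B + q by omega]
          rw [h6]
          have : (k + 1) * (q : ℤ) = q * k + q := by ring
          rw [this, ← hk]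
          omega
        omega
      · zify
        rw [Int.toNat_of_nonneg (by omega), ← hk]
        ring
    · rintro ⟨m, hm, rfl⟩
      have h7 : m + 1 ≤ L := hm
      rw [hL, Nat.le_div_iff_mul_le (by omega)] at h7
      have h8 : (m + 1) * q = q * m + q := by ring
      rw [h8] at h7
      refine ⟨⟨by omega, by omega⟩, ?_⟩
      push_cast
      have : (n₀ : ℤ) + q * m - b = ((n₀ : ℤ) - b) + q * m := by ring
      rw [this]
      exact dvd_add hnd (Dvd.intro _ rfl)
  have hinj : Function.Injective (fun m : ℕ => n₀ + q * m) := by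
    intro m m' h
    have h1 : q * m = q * m' := by simpa using h
    exact Nat.eq_of_mul_eq_mul_left (by omega) h1
  have hq0 : (0 : ℝ) < q := by exact_mod_cast hq
  refine ⟨n₀, L, hn1, hn2, ?_, ?_, ?_, ?_⟩
  · have e1 : (L : ℝ) * q ≤ B - A + q := by
      have : L * q + A ≤ B + q := by omega
      have h2 : ((L * q + A : ℕ) : ℝ) ≤ ((B + q : ℕ) : ℝ) := by exact_mod_cast this
      push_cast at h2
      linarith
    have e2 : (B : ℝ) - A ≤ (L + 1) * q := by
      have : B ≤ (L + 1) * q + A := by omega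
      have h2 : ((B : ℕ) : ℝ) ≤ (((L + 1) * q + A : ℕ) : ℝ) := by exact_mod_cast this
      push_cast at h2
      linarith
    have e3 : (L : ℝ) - ((B : ℝ) - A) / q = (L * q - (B - A)) / q := by field_simp
    rw [e3, abs_le]
    constructor
    · rw [le_div_iff₀ hq0]; linarith
    · rw [div_le_iff₀ hq0]; linarith
  · intro m hm
    have h7 : m + 1 ≤ L := hm
    rw [hL, Nat.le_div_iff_mul_le (by omega)] at h7
    have h8 : (m + 1) * q = q * m + q := by ring
    rw [h8] at h7
    omega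
  · rw [himg, Finset.card_image_of_injective _ hinj, card_range]
  · intro f
    rw [himg, Finset.sum_image (fun x _ y _ h => hinj h)]

end Pool.Agent.Y961.JR
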