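import Pool.Agent.H256R2.SC.V1

set_option autoImplicit false

/-! # Colourings by vectors of integers

A vector of integers gets at the prime `p` the colour `(j, k)` if its coordinate `j` is congruent to
`res p k` and no other coordinate is congruent to one of the `res p l`.  Here: the distribution of
these colours in a family of vectors that is well distributed in the residue classes. -/

namespace Pool.Agent.Y961.JR

open Finset
open Pool.Agent.H256R2.SC (crt_int)
open scoped Classical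

section

variable {r : ℕ} {κ' : Type} [Fintype κ'] [DecidableEq κ']

/-- the vector `w` has the colour `c` at `p` -/
def Hit (res : ℕ → κ' → ℤ) (w : Fin r → ℤ) (p : ℕ) (c : Fin r × κ') : Prop :=
  (p : ℤ) ∣ w c.1 - res p c.2 ∧ ∀ j, j ≠ c.1 → ∀ k, ¬ (p : ℤ) ∣ w j - res p k

/-- the colour -/
noncomputable def colJ (res : ℕ → κ' → ℤ) (w : Fin r → ℤ) (p : ℕ) : Option (Fin r × κ') :=
  if h : ∃ c, Hit res w p c then some h.choose else none

lemma Hit.unique {res : ℕ → κ' → ℤ} {w : Fin r → ℤ} {p : ℕ} {c c' : Fin r × κ'}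
    (hinj : ∀ k l, k ≠ l → ¬ (p : ℤ) ∣ res p k - res p l) (h : Hit res w p c)
    (h' : Hit res w p c') : c = c' := by
  have h1 : c.1 = c'.1 := by
    by_contra hne
    exact h.2 c'.1 (Ne.symm hne) c'.2 h'.1
  have h2 : c.2 = c'.2 := by
    by_contra hne
    apply hinj c'.2 c.2 (Ne.symm hne)
    have h3 := h'.1
    rw [← h1] at h3
    have h4 := dvd_sub h.1 h3
    have e : w c.1 - res p c.2 - (w c.1 - res p c'.2) = res p c'.2 - res p c.2 := by ring
    rwa [e] at h4
  exact Prod.ext h1 h2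

lemma colJ_eq {res : ℕ → κ' → ℤ} {w : Fin r → ℤ} {p : ℕ} {c : Fin r × κ'}
    (hinj : ∀ k l, k ≠ l → ¬ (p : ℤ) ∣ res p k - res p l) :
    colJ res w p = some c ↔ Hit res w p c := by
  unfold colJ
  constructor
  · intro h
    split_ifs at h with h1
    rw [← Option.some.inj h]
    exact h1.choose_spec
  · intro h
    have h1 : ∃ c, Hit res w p c := ⟨c, h⟩
    rw [dif_pos h1]
    congr 1
    exact Hit.unique hinj h1.choose_spec h

/-- residues modulo `p` different from all `res p k` -/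
noncomputable def GG (res : ℕ → κ' → ℤ) (p : ℕ) : Finset ℤ :=
  (Finset.Ico 0 (p : ℤ)).filter (fun x => ∀ k, ¬ (p : ℤ) ∣ x - res p k)

lemma card_GG {res : ℕ → κ' → ℤ} {p : ℕ} (hp : 0 < p)
    (hinj : ∀ k l, k ≠ l → ¬ (p : ℤ) ∣ res p k - res p l) :
    (GG res p).card + Fintype.card κ' = p := by
  have hp' : (0 : ℤ) < p := by exact_mod_cast hp
  have h1 : (Finset.Ico 0 (p : ℤ)).filter (fun x => ¬ ∀ k, ¬ (p : ℤ) ∣ x - res p k) =
      (Finset.univ : Finset κ').image (fun k => res p k % p) := by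
    ext x
    rw [Finset.mem_filter, Finset.mem_image, Finset.mem_Ico]
    constructor
    · rintro ⟨⟨h0, h1⟩, h2⟩
      push Not at h2
      obtain ⟨k, hk⟩ := h2
      refine ⟨k, Finset.mem_univ _, ?_⟩
      have h3 : res p k % p = x % p := (Int.emod_eq_emod_iff_emod_sub_eq_zero.mpr
        (Int.emod_eq_zero_of_dvd hk)).symm
      rw [h3, Int.emod_eq_of_lt h0 h1]
    · rintro ⟨k, _, rfl⟩
      refine ⟨⟨Int.emod_nonneg _ hp'.ne', Int.emod_lt_of_pos _ hp'⟩, ?_⟩
      push Not
      refine ⟨k, ?_⟩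
      have : res p k % p - res p k = -((p : ℤ) * (res p k / p)) := by
        have := Int.emod_add_mul_ediv (res p k) p
        linarith
      rw [this]
      exact (dvd_neg).mpr (dvd_mul_right _ _)
  have h2 : ((Finset.univ : Finset κ').image (fun k => res p k % p)).card = Fintype.card κ' := by
    rw [Finset.card_image_of_injective, Finset.card_univ]
    intro k l hkl
    by_contra hne
    apply hinj k l hne
    exact Int.dvd_of_emod_eq_zero (Int.emod_eq_emod_iff_emod_sub_eq_zero.mp hkl)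
  have h3 := Finset.card_filter_add_card_filter_not (s := Finset.Ico 0 (p : ℤ))
    (fun x => ∀ k, ¬ (p : ℤ) ∣ x - res p k)
  rw [h1, h2, Int.card_Ico] at h3
  simpa [GG] using h3

/-- the residue vectors of the colour `c` -/
noncomputable def RR (res : ℕ → κ' → ℤ) (p : ℕ) (c : Fin r × κ') : Finset (Fin r → ℤ) :=
  Fintype.piFinset (fun j => if j = c.1 then {res p c.2 % p} else GG res p)

lemma card_RR {res : ℕ → κ' → ℤ} {p : ℕ} (c : Fin r × κ') :
    (RR res p c).card = (GG res p).card ^ (r - 1) := by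
  unfold RR
  rw [Fintype.card_piFinset]
  have h1 : ∀ j : Fin r, (if j = c.1 then {res p c.2 % p} else GG res p).card =
      if j = c.1 then 1 else (GG res p).card := by
    intro j
    split_ifs
    · exact Finset.card_singleton _
    · rfl
  rw [Finset.prod_congr rfl fun j _ => h1 j, Finset.prod_ite, Finset.prod_const_one, one_mul,
    Finset.prod_const, Finset.filter_ne', Finset.card_erase_of_mem (Finset.mem_univ _),
    Finset.card_univ, Fintype.card_fin]

lemma dvd_iff_emod {p : ℕ} (hp : 0 < p) (x y : ℤ) (hy0 : 0 ≤ y) (hy1 : y < p) :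
    (p : ℤ) ∣ x - y ↔ x % p = y := by
  constructor
  · intro h
    have := Int.emod_eq_emod_iff_emod_sub_eq_zero.mpr (Int.emod_eq_zero_of_dvd h)
    rw [this, Int.emod_eq_of_lt hy0 hy1]
  · intro h
    apply Int.dvd_of_emod_eq_zero
    apply Int.emod_eq_emod_iff_emod_sub_eq_zero.mp
    rw [h, Int.emod_eq_of_lt hy0 hy1]

lemma dvd_emod_sub {p : ℕ} (x y : ℤ) : (p : ℤ) ∣ x % p - y ↔ (p : ℤ) ∣ x - y := by
  have h : x - y = (x % p - y) + p * (x / p) := by
    have := Int.emod_add_mul_ediv x p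
    linarith
  rw [h]
  exact (Int.dvd_add_left (dvd_mul_right _ _)).symm

lemma mem_RR_iff {res : ℕ → κ' → ℤ} {p : ℕ} (hp : 0 < p) (c : Fin r × κ') (w : Fin r → ℤ) :
    (fun j => w j % p) ∈ RR res p c ↔ Hit res w p c := by
  have hp' : (0 : ℤ) < p := by exact_mod_cast hp
  unfold RR
  rw [Fintype.mem_piFinset]
  constructor
  · intro h
    refine ⟨?_, ?_⟩
    · have h1 := h c.1
      rw [if_pos rfl, Finset.mem_singleton] at h1
      exact Int.dvd_of_emod_eq_zero (Int.emod_eq_emod_iff_emod_sub_eq_zero.mp h1)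
    · intro j hj k
      have h1 := h j
      rw [if_neg hj, GG, Finset.mem_filter] at h1
      have h2 := h1.2 k
      rwa [dvd_emod_sub] at h2
  · intro h j
    split_ifs with hj
    · subst hj
      rw [Finset.mem_singleton]
      exact Int.emod_eq_emod_iff_emod_sub_eq_zero.mpr (Int.emod_eq_zero_of_dvd h.1)
    · rw [GG, Finset.mem_filter, Finset.mem_Ico]
      refine ⟨⟨Int.emod_nonneg _ hp'.ne', Int.emod_lt_of_pos _ hp'⟩, ?_⟩
      intro k
      rw [dvd_emod_sub]
      exact h.2 j hj k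

lemma RR_range {res : ℕ → κ' → ℤ} {p : ℕ} (hp : 0 < p) {c : Fin r × κ'} {ρ : Fin r → ℤ}
    (h : ρ ∈ RR res p c) (j : Fin r) : 0 ≤ ρ j ∧ ρ j < p := by
  have hp' : (0 : ℤ) < p := by exact_mod_cast hp
  unfold RR at h
  rw [Fintype.mem_piFinset] at h
  have h1 := h j
  split_ifs at h1 with hj
  · rw [Finset.mem_singleton] at h1
    rw [h1]
    exact ⟨Int.emod_nonneg _ hp'.ne', Int.emod_lt_of_pos _ hp'⟩
  · rw [GG, Finset.mem_filter, Finset.mem_Ico] at h1
    exact h1.1

/-- probability of a colour -/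
noncomputable def gJ (r : ℕ) (κ' : Type) [Fintype κ'] (p : ℕ) : ℝ :=
  ((p : ℝ) - Fintype.card κ') ^ (r - 1) / (p : ℝ) ^ r

theorem countJ {ι : Type} (𝒜 : Finset ι) (v : ι → Fin r → ℤ) (res : ℕ → κ' → ℤ)
    (N Err Q lb : ℝ) (hErr : 0 ≤ Err)
    (hcount : ∀ q : ℕ, Squarefree q → (q : ℝ) ≤ Q → (∀ p ∈ q.primeFactors, lb < p) →
      ∀ ρ : Fin r → ℤ, |((𝒜.filter (fun x => ∀ j, (q : ℤ) ∣ v x j - ρ j)).card : ℝ) -
        N / (q : ℝ) ^ r| ≤ Err) (S : Finset ℕ) :
    ∀ (T : Finset ℕ), (∀ p ∈ S, p.Prime ∧ lb < p) →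
    (∀ p ∈ S, ∀ k l, k ≠ l → ¬ (p : ℤ) ∣ res p k - res p l) →
    (∀ p ∈ T, p.Prime ∧ lb < p) → Disjoint S T →
    (∏ p ∈ S, (p : ℝ)) * (∏ p ∈ T, (p : ℝ)) ≤ Q →
    ∀ (D : ℕ → Option (Fin r × κ')), (∀ p ∈ S, D p ≠ none) → ∀ (τ : ℕ → Fin r → ℤ),
    |((𝒜.filter (fun x => (∀ p ∈ S, colJ res (v x) p = D p) ∧
        ∀ p ∈ T, ∀ j, (p : ℤ) ∣ v x j - τ p j)).card : ℝ) -
      N * (∏ p ∈ S, gJ r κ' p) * ∏ p ∈ T, (1 / (p : ℝ) ^ r)| ≤ Err * ∏ p ∈ S, (p : ℝ) ^ (r - 1) := by
  induction S using Finset.induction_on with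
  | empty =>
    intro T _ _ hT _ hQ D _ τ
    have hcop : ∀ p ∈ T, ∀ q ∈ T, p ≠ q → IsCoprime (p : ℤ) (q : ℤ) := fun p hp q hq hpq =>
      Nat.isCoprime_iff_coprime.mpr ((Nat.coprime_primes (hT p hp).1 (hT q hq).1).mpr hpq)
    have h1 : ∀ j : Fin r, ∃ ρ : ℤ, ∀ p ∈ T, (p : ℤ) ∣ ρ - τ p j := fun j =>
      crt_int T (fun p => (p : ℤ)) hcop (fun p => τ p j)
    choose ρ hρ using h1
    set q : ℕ := ∏ p ∈ T, p with hq
    have hqr : (q : ℝ) = ∏ p ∈ T, (p : ℝ) := by rw [hq]; push_cast; rfl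
    have hsq : Squarefree q := by
      rw [hq]
      refine Finset.squarefree_prod_of_pairwise_isCoprime ?_ ?_
      · intro p hp p' hp' hpp
        exact Nat.coprime_iff_isRelPrime.mp ((Nat.coprime_primes (hT p hp).1 (hT p' hp').1).mpr hpp)
      · intro p hp
        exact (hT p hp).1.squarefree
    have h2 : (𝒜.filter (fun x => (∀ p ∈ (∅ : Finset ℕ), colJ res (v x) p = D p) ∧
        ∀ p ∈ T, ∀ j, (p : ℤ) ∣ v x j - τ p j)) =
        𝒜.filter (fun x => ∀ j, (q : ℤ) ∣ v x j - ρ j) := by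
      apply Finset.filter_congr
      intro x _
      constructor
      · rintro ⟨_, h⟩ j
        have e : ((q : ℕ) : ℤ) = ∏ p ∈ T, (p : ℤ) := by rw [hq]; push_cast; rfl
        rw [e]
        apply Finset.prod_dvd_of_coprime
        · intro p hp p' hp' hpp
          exact hcop p hp p' hp' hpp
        · intro p hp
          have h3 := dvd_sub (h p hp j) (hρ j p hp)
          have e2 : v x j - τ p j - (ρ j - τ p j) = v x j - ρ j := by ring
          rwa [e2] at h3
      · intro h
        refine ⟨by simp, fun p hp j => ?_⟩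
        have h3 : (p : ℤ) ∣ (q : ℤ) := by
          exact_mod_cast Finset.dvd_prod_of_mem (fun p => p) hp
        have h4 := dvd_add (h3.trans (h j)) (hρ j p hp)
        have e2 : v x j - ρ j + (ρ j - τ p j) = v x j - τ p j := by ring
        rwa [e2] at h4
    rw [h2]
    have h3 := hcount q hsq (by rw [hqr]; simpa using hQ) (by
      intro p hp
      rw [Nat.mem_primeFactors] at hp
      obtain ⟨p', hp', hd⟩ := (Prime.dvd_finsetProd_iff hp.1.prime _).mp hp.2.1
      rw [(Nat.prime_dvd_prime_iff_eq hp.1 (hT p' hp').1).mp hd]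
      exact (hT p' hp').2) ρ
    have h4 : N * (∏ p ∈ (∅ : Finset ℕ), gJ r κ' p) * ∏ p ∈ T, (1 / (p : ℝ) ^ r) =
        N / (q : ℝ) ^ r := by
      rw [Finset.prod_empty, mul_one, Finset.prod_div_distrib, Finset.prod_const_one,
        Finset.prod_pow, ← hqr]
      ring
    rw [h4]
    simpa using h3
  | insert p S hpS ih =>
    intro T hS hinj hT hdisj hQ D hD τ
    have hpp := hS p (Finset.mem_insert_self _ _)
    have hp0 : 0 < p := hpp.1.pos
    have hp0' : (0 : ℝ) < p := by exact_mod_cast hp0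
    have hpi := hinj p (Finset.mem_insert_self _ _)
    obtain ⟨c, hc⟩ := Option.ne_none_iff_exists'.mp (hD p (Finset.mem_insert_self _ _))
    have hpT : p ∉ T := Finset.disjoint_left.mp hdisj (Finset.mem_insert_self _ _)
    set F := 𝒜.filter (fun x => (∀ p' ∈ insert p S, colJ res (v x) p' = D p') ∧
        ∀ p' ∈ T, ∀ j, (p' : ℤ) ∣ v x j - τ p' j) with hF
    -- fibres
    have hmap : ∀ x ∈ F, (fun j => v x j % (p : ℤ)) ∈ RR res p c := by
      intro x hx
      rw [hF, Finset.mem_filter] at hx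
      have h1 := hx.2.1 p (Finset.mem_insert_self _ _)
      rw [hc, colJ_eq hpi] at h1
      exact (mem_RR_iff hp0 c (v x)).mpr h1
    have hcard := Finset.card_eq_sum_card_fiberwise (s := F) (t := RR res p c)
      (f := fun x j => v x j % (p : ℤ)) hmap
    have hfib : ∀ ρ ∈ RR res p c, (F.filter (fun x => (fun j => v x j % (p : ℤ)) = ρ)) =
        𝒜.filter (fun x => (∀ p' ∈ S, colJ res (v x) p' = D p') ∧
          ∀ p' ∈ insert p T, ∀ j, (p' : ℤ) ∣ v x j - (Function.update τ p ρ) p' j) := by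
      intro ρ hρ
      rw [hF, Finset.filter_filter]
      apply Finset.filter_congr
      intro x _
      constructor
      · rintro ⟨⟨h1, h2⟩, h3⟩
        refine ⟨fun p' hp' => h1 p' (Finset.mem_insert_of_mem hp'), ?_⟩
        intro p' hp' j
        rcases Finset.mem_insert.mp hp' with rfl | hp'
        · rw [Function.update_self]
          obtain ⟨e1, e2⟩ := RR_range hp0 hρ j
          rw [dvd_iff_emod hp0 _ _ e1 e2]
          exact congrFun h3 j
        · have hne : p' ≠ p := fun h => hpT (h ▸ hp')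
          rw [Function.update_of_ne hne]
          exact h2 p' hp' j
      · rintro ⟨h1, h2⟩
        have h3 : (fun j => v x j % (p : ℤ)) = ρ := by
          funext j
          have h4 := h2 p (Finset.mem_insert_self _ _) j
          rw [Function.update_self] at h4
          obtain ⟨e1, e2⟩ := RR_range hp0 hρ j
          rwa [dvd_iff_emod hp0 _ _ e1 e2] at h4
        refine ⟨⟨?_, ?_⟩, h3⟩
        · intro p' hp'
          rcases Finset.mem_insert.mp hp' with rfl | hp'
          · rw [hc, colJ_eq hpi, ← mem_RR_iff hp0, h3]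
            exact hρ
          · exact h1 p' hp'
        · intro p' hp' j
          have h4 := h2 p' (Finset.mem_insert_of_mem hp') j
          have hne : p' ≠ p := fun h => hpT (h ▸ hp')
          rwa [Function.update_of_ne hne] at h4
    have hdisj' : Disjoint S (insert p T) := by
      rw [Finset.disjoint_insert_right]
      exact ⟨hpS, (Finset.disjoint_insert_left.mp hdisj).2⟩
    have hih : ∀ ρ : Fin r → ℤ, _ := fun ρ =>
      ih (insert p T) (fun p' hp' => hS p' (Finset.mem_insert_of_mem hp'))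
      (fun p' hp' => hinj p' (Finset.mem_insert_of_mem hp'))
      (fun p' hp' => by
        rcases Finset.mem_insert.mp hp' with rfl | hp'
        · exact hpp
        · exact hT p' hp') hdisj'
      (by
        rw [Finset.prod_insert hpT]
        rw [Finset.prod_insert hpS] at hQ
        calc _ = (p : ℝ) * (∏ p ∈ S, (p : ℝ)) * ∏ p ∈ T, (p : ℝ) := by ring
          _ ≤ _ := hQ) D
      (fun p' hp' => hD p' (Finset.mem_insert_of_mem hp')) (Function.update τ p ρ)
    rw [hcard]
    push_cast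
    rw [Finset.sum_congr rfl fun ρ hρ => by rw [hfib ρ hρ]]
    -- the main term
    have hR : ((RR res p c).card : ℝ) = ((p : ℝ) - Fintype.card κ') ^ (r - 1) := by
      rw [card_RR]
      push_cast
      congr 1
      have := card_GG hp0 hpi
      have h2 : ((GG res p).card : ℝ) + Fintype.card κ' = p := by exact_mod_cast this
      linarith
    have hR2 : ((RR res p c).card : ℝ) ≤ (p : ℝ) ^ (r - 1) := by
      rw [card_RR]
      push_cast
      apply pow_le_pow_left₀ (Nat.cast_nonneg _)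
      have := card_GG hp0 hpi
      have h2 : ((GG res p).card : ℝ) + Fintype.card κ' = p := by exact_mod_cast this
      have : (0 : ℝ) ≤ Fintype.card κ' := Nat.cast_nonneg _
      linarith
    have hmain : N * (∏ p' ∈ insert p S, gJ r κ' p') * ∏ p' ∈ T, (1 / (p' : ℝ) ^ r) =
        ∑ _ρ ∈ RR res p c, N * (∏ p' ∈ S, gJ r κ' p') * ∏ p' ∈ insert p T, (1 / (p' : ℝ) ^ r) := by
      rw [Finset.sum_const, nsmul_eq_mul, hR, Finset.prod_insert hpS, Finset.prod_insert hpT]
      have : gJ r κ' p = ((p : ℝ) - Fintype.card κ') ^ (r - 1) * (1 / (p : ℝ) ^ r) := by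
        unfold gJ; ring
      rw [this]
      ring
    rw [hmain, ← Finset.sum_sub_distrib]
    refine (Finset.abs_sum_le_sum_abs _ _).trans ?_
    refine (Finset.sum_le_sum fun ρ _ => hih ρ).trans ?_
    rw [Finset.sum_const, nsmul_eq_mul, Finset.prod_insert hpS]
    have hpos : 0 ≤ ∏ p ∈ S, (p : ℝ) ^ (r - 1) :=
      Finset.prod_nonneg fun _ _ => pow_nonneg (Nat.cast_nonneg _) _
    calc ((RR res p c).card : ℝ) * (Err * ∏ p ∈ S, (p : ℝ) ^ (r - 1))
        ≤ (p : ℝ) ^ (r - 1) * (Err * ∏ p ∈ S, (p : ℝ) ^ (r - 1)) := by gcongr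
      _ = _ := by ring

end

end Pool.Agent.Y961.JR
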