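import Pool.Agent.Y961.JR.Abs
import Pool.Agent.Y961.JR.Count
import Pool.Agent.TH915.PW.Crit

set_option autoImplicit false

/-! # The joint criterion for vectors of integers -/

namespace Pool.Agent.Y961.JR

open Finset Filter
open Pool.Agent.H256R2.SC (ff params survivors)
open Pool.Agent.TH915.PW (crt_small)

open scoped Classical

lemma gJ_bounds (r : ℕ) (hr : 1 ≤ r) (κ' : Type) [Fintype κ'] (p : ℕ) (L : ℝ) (hL : 1 ≤ L)
    (hp : L ^ 2 < p) (hu : ((r - 1 : ℕ) : ℝ) * Fintype.card κ' ≤ L / 2)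
    (hu2 : (Fintype.card κ' : ℝ) ≤ L / 2) :
    1 / (p : ℝ) * (1 - 1 / (2 * L)) ≤ gJ r κ' p ∧ gJ r κ' p ≤ 1 / (p : ℝ) := by
  have hL0 : 0 < L := by linarith
  have hp0 : (0 : ℝ) < p := lt_trans (by positivity) hp
  set u : ℝ := (Fintype.card κ' : ℝ) with hu'
  have hu0 : 0 ≤ u := Nat.cast_nonneg _
  have hup : u ≤ p := by nlinarith
  have e1 : gJ r κ' p = 1 / (p : ℝ) * (1 - u / p) ^ (r - 1) := by
    unfold gJ
    obtain ⟨n, rfl⟩ : ∃ n, r = n + 1 := ⟨r - 1, by omega⟩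
    simp only [Nat.add_sub_cancel]
    rw [← hu', pow_succ]
    have : (1 - u / p) = (p - u) / p := by field_simp
    rw [this, div_pow]
    field_simp
  have h1 : (0 : ℝ) ≤ 1 - u / p := by
    have : u / p ≤ 1 := by rw [div_le_one hp0]; exact hup
    linarith
  have h2 : (1 - u / p) ≤ 1 := by
    have : 0 ≤ u / p := by positivity
    linarith
  rw [e1]
  constructor
  · apply mul_le_mul_of_nonneg_left _ (by positivity)
    have h3 := one_add_mul_le_pow (a := -(u / p)) (by linarith) (r - 1)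
    have h4 : ((r - 1 : ℕ) : ℝ) * (u / p) ≤ 1 / (2 * L) := by
      calc ((r - 1 : ℕ) : ℝ) * (u / p) = (((r - 1 : ℕ) : ℝ) * u) / p := by ring
        _ ≤ (L / 2) / L ^ 2 := by
          apply div_le_div₀ (by positivity) hu (by positivity) hp.le
        _ = 1 / (2 * L) := by field_simp
    have e2 : (1 + -(u / p)) = 1 - u / p := by ring
    rw [e2] at h3
    linarith
  · calc 1 / (p : ℝ) * (1 - u / p) ^ (r - 1) ≤ 1 / (p : ℝ) * 1 := by
          apply mul_le_mul_of_nonneg_left _ (by positivity)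
          exact pow_le_one₀ h1 h2
      _ = _ := mul_one _

/-- vectors of integers: the criterion -/
theorem critJ (r : ℕ) (hr : 1 ≤ r) : ∃ κ : ℝ, 0 < κ ∧ ∃ X₀ : ℝ, ∀ X : ℝ, X₀ ≤ X →
    κ * ff X + 1 ≤ (Real.log X) ^ 2 ∧
    ∀ (ι : Type) (s : Finset ι) (v : ι → Fin r → ℤ), s.Nonempty →
    (∀ q : ℕ, 1 ≤ q → (q : ℝ) ≤ X ^ (2 / 5 : ℝ) →
      ∀ ρ : Fin r → ℤ, |((s.filter (fun i => ∀ j, (q : ℤ) ∣ v i j - ρ j)).card : ℝ) -
        s.card / (q : ℝ) ^ r| ≤ s.card * X ^ (-(2 * (r : ℝ)))) →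
    ∃ i ∈ s, ∀ j, ∀ m : ℤ, |(m : ℝ) - v i j| ≤ κ * ff X + 1 →
      ∃ p : ℕ, p.Prime ∧ (p : ℝ) ≤ X ^ (1 / 10 : ℝ) ∧ (p : ℤ) ∣ m := by
  obtain ⟨c₀, hc₀, X₁, hcov⟩ := coverAbs
  set c₁ : ℝ := min c₀ (1 / 2) with hc₁'
  have hc₁ : 0 < c₁ := lt_min hc₀ (by norm_num)
  have hc₁0 : c₁ ≤ c₀ := min_le_left _ _
  have hc₁2 : c₁ ≤ 1 / 2 := min_le_right _ _
  have hr0 : (0 : ℝ) < r := by exact_mod_cast hr
  have hr1 : (1 : ℝ) ≤ r := by exact_mod_cast hr
  obtain ⟨c, hc, X₂, hpar⟩ := params survivors (c₁ / r) (by positivity)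
  have hlogx : ∀ᶠ X : ℝ in atTop, Real.log X / 10 ≤ X ^ (1 / 10 : ℝ) := by
    have h := (isLittleO_log_rpow_atTop (show (0 : ℝ) < 1 / 10 by norm_num)).def
      (show (0 : ℝ) < 1 by norm_num)
    filter_upwards [h, eventually_ge_atTop (1 : ℝ)] with X hX hX1
    rw [Real.norm_eq_abs, abs_of_nonneg (Real.log_nonneg hX1), Real.norm_eq_abs,
      abs_of_nonneg (Real.rpow_nonneg (by linarith) _)] at hX
    have := Real.log_nonneg hX1
    linarith
  obtain ⟨X₃, hX₃⟩ := eventually_atTop.mp hlogx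
  have hL16 : ∀ᶠ X : ℝ in atTop, 160 ≤ Real.log X := Real.tendsto_log_atTop.eventually_ge_atTop _
  obtain ⟨X₄, hX₄⟩ := eventually_atTop.mp hL16
  refine ⟨c / 4, by positivity, max (max X₁ X₂) (max X₃ (max X₄ 1)), ?_⟩
  intro X hX
  have hXX1 : X₁ ≤ X := ((le_max_left _ _).trans (le_max_left _ _)).trans hX
  have hXX2 : X₂ ≤ X := ((le_max_right _ _).trans (le_max_left _ _)).trans hX
  have hXX3 : X₃ ≤ X := ((le_max_left _ _).trans (le_max_right _ _)).trans hX
  have hXX4 : X₄ ≤ X := (((le_max_left _ _).trans (le_max_right _ _)).trans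
    (le_max_right _ _)).trans hX
  have hX1 : 1 ≤ X := (((le_max_right _ _).trans (le_max_right _ _)).trans
    (le_max_right _ _)).trans hX
  have hX0 : 0 < X := by linarith
  obtain ⟨hX1000, hLlog, hLge, hprim, b, hb1, hb2⟩ := hpar X hXX2
  have h3 := hX₃ X hXX3
  have h4 := hX₄ X hXX4
  set l : ℝ := Real.log X with hl
  have hl1 : 1 ≤ l := by linarith
  set L : ℕ := ⌊c * ff X⌋₊ with hL
  set Ny : ℕ := ⌊l / 10⌋₊ with hNy
  set P : ℕ := primorial Ny with hP
  set S : Finset ℕ := (Finset.range (Ny + 1)).filter Nat.Prime with hS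
  have hPS : P = ∏ p ∈ S, p := rfl
  have hSp : ∀ p ∈ S, p.Prime := fun p hp => (Finset.mem_filter.mp hp).2
  have hSle : ∀ p ∈ S, (p : ℝ) ≤ l / 10 := by
    intro p hp
    have h5 := Finset.mem_range.mp (Finset.mem_filter.mp hp).1
    have h6 : (p : ℝ) ≤ Ny := by exact_mod_cast Nat.lt_succ_iff.mp h5
    exact h6.trans (Nat.floor_le (by linarith))
  have hSmem : ∀ p : ℕ, p.Prime → (p : ℝ) ≤ l / 10 → p ∈ S := by
    intro p hp hpl
    rw [hS, Finset.mem_filter, Finset.mem_range]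
    exact ⟨Nat.lt_succ_of_le (Nat.le_floor hpl), hp⟩
  have hPpos : 0 < P := primorial_pos _
  have hPr : (0 : ℝ) < P := by exact_mod_cast hPpos
  have hff : c * ff X < L + 1 := Nat.lt_floor_add_one _
  refine ⟨by nlinarith, ?_⟩
  intro ι s v hs hcount
  set h : ℕ := L / 2 with hh
  obtain ⟨r0, hr0'⟩ := crt_small S hSp (fun p => b p + (p - 1) * h)
  -- the candidates
  set 𝒜 : Finset ι := s.filter (fun i => ∀ j, (P : ℤ) ∣ v i j - r0) with h𝒜
  set U : Finset ℕ := (Finset.Icc 1 L).filter (fun k => ∀ p : ℕ, p.Prime →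
          (p : ℝ) ≤ l / 10 → ¬ k ≡ b p [MOD p]) with hU
  have hcardU : (Fintype.card {k // k ∈ U} : ℝ) ≤ c₁ / r * l := by
    rw [Fintype.card_coe]
    exact hb2
  have hcard : (Fintype.card (Fin r × {k // k ∈ U}) : ℝ) ≤ c₀ * l := by
    rw [Fintype.card_prod, Fintype.card_fin]
    push_cast
    calc (r : ℝ) * (Fintype.card {k // k ∈ U} : ℝ) ≤ r * (c₁ / r * l) := by gcongr
      _ = c₁ * l := by field_simp
      _ ≤ c₀ * l := by gcongr
  have hru : (r : ℝ) * (Fintype.card {k // k ∈ U} : ℝ) ≤ l / 2 := by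
    calc (r : ℝ) * (Fintype.card {k // k ∈ U} : ℝ) ≤ r * (c₁ / r * l) := by gcongr
      _ = c₁ * l := by field_simp
      _ ≤ 1 / 2 * l := by gcongr
      _ = _ := by ring
  have hu0 : (0 : ℝ) ≤ (Fintype.card {k // k ∈ U} : ℝ) := Nat.cast_nonneg _
  have hru1 : ((r - 1 : ℕ) : ℝ) * (Fintype.card {k // k ∈ U} : ℝ) ≤ l / 2 := by
    refine le_trans ?_ hru
    apply mul_le_mul_of_nonneg_right _ hu0
    exact_mod_cast Nat.sub_le r 1
  have hru2 : (Fintype.card {k // k ∈ U} : ℝ) ≤ l / 2 := by nlinarith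
  set res : ℕ → {k // k ∈ U} → ℤ := fun _ k => (h : ℤ) - (k.1 : ℤ) with hres
  have hinj : ∀ p : ℕ, l ^ 2 < p → ∀ k k' : {k // k ∈ U}, k ≠ k' →
      ¬ ((p : ℤ) ∣ res p k - res p k') := by
    intro p hpl k k' hkk hd
    have h5 : res p k - res p k' = (k'.1 : ℤ) - (k.1 : ℤ) := by rw [hres]; ring
    rw [h5] at hd
    have hk := Finset.mem_Icc.mp (Finset.mem_filter.mp k.2).1
    have hk' := Finset.mem_Icc.mp (Finset.mem_filter.mp k'.2).1
    have hLp : L < p := by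
      have : (L : ℝ) < p := by linarith
      exact_mod_cast this
    have hne : k.1 ≠ k'.1 := fun h => hkk (Subtype.ext h)
    rcases lt_or_gt_of_ne hne with h6 | h6
    · have := Int.le_of_dvd (by omega) hd
      omega
    · have h7 : (p : ℤ) ∣ (k.1 : ℤ) - (k'.1 : ℤ) := by
        have := (dvd_neg (a := (p : ℤ))).mpr hd
        rwa [neg_sub] at this
      have := Int.le_of_dvd (by omega) h7
      omega
  have hscard : (0 : ℝ) < s.card := by exact_mod_cast hs.card_pos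
  have hNpos : (0 : ℝ) < s.card / (P : ℝ) ^ r := by positivity
  have hXr0 : 0 < X ^ (-(2 * (r : ℝ))) := Real.rpow_pos_of_pos hX0 _
  -- equidistribution of the candidates
  have hcountA : ∀ q : ℕ, Squarefree q → (q : ℝ) ≤ X ^ (1 / 4 : ℝ) →
      (∀ p ∈ q.primeFactors, l ^ 2 < p) → ∀ ρ : Fin r → ℤ,
      |((𝒜.filter (fun x => ∀ j, (q : ℤ) ∣ v x j - ρ j)).card : ℝ) -
        (s.card / (P : ℝ) ^ r) / (q : ℝ) ^ r| ≤ s.card * X ^ (-(2 * (r : ℝ))) := by
    intro q hq hqX hqp ρ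
    have hcop : Nat.Coprime P q := by
      rw [Nat.coprime_comm, hPS]
      apply Nat.Coprime.prod_right
      intro p hp
      rw [Nat.coprime_comm, Nat.Prime.coprime_iff_not_dvd (hSp p hp)]
      intro hd
      have h5 : p ∈ q.primeFactors := Nat.mem_primeFactors.mpr ⟨hSp p hp, hd, hq.ne_zero⟩
      have h6 := hqp p h5
      have h7 := hSle p hp
      have h8 : l ≤ l ^ 2 := by nlinarith
      linarith
    have hq1 : 1 ≤ q := Nat.one_le_iff_ne_zero.mpr hq.ne_zero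
    obtain ⟨u, w, huw⟩ := Nat.isCoprime_iff_coprime.2 hcop
    set r' : Fin r → ℤ := fun j => r0 * (w * q) + ρ j * (u * P) with hr'
    have hiff : ∀ (j : Fin r) (x : ℤ), ((P : ℤ) ∣ x - r0 ∧ (q : ℤ) ∣ x - ρ j) ↔
        ((P * q : ℕ) : ℤ) ∣ x - r' j := by
      intro j x
      have e1 : r0 - r' j = (r0 - ρ j) * u * P := by
        simp only [hr']
        linear_combination (-(r0 : ℤ)) * huw
      have e2 : ρ j - r' j = (ρ j - r0) * w * q := by
        simp only [hr']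
        linear_combination (-(ρ j : ℤ)) * huw
      constructor
      · rintro ⟨h5, h6⟩
        have h7 : (P : ℤ) ∣ x - r' j := by
          have : x - r' j = (x - r0) + (r0 - ρ j) * u * P := by rw [← e1]; ring
          rw [this]
          exact dvd_add h5 (Dvd.intro_left _ rfl)
        have h8 : (q : ℤ) ∣ x - r' j := by
          have : x - r' j = (x - ρ j) + (ρ j - r0) * w * q := by rw [← e2]; ring
          rw [this]
          exact dvd_add h6 (Dvd.intro_left _ rfl)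
        push_cast
        exact IsCoprime.mul_dvd (Nat.isCoprime_iff_coprime.2 hcop) h7 h8
      · intro h5
        push_cast at h5
        constructor
        · have h6 : (P : ℤ) ∣ x - r' j := (dvd_mul_right _ _).trans h5
          have : x - r0 = (x - r' j) - (r0 - ρ j) * u * P := by rw [← e1]; ring
          rw [this]
          exact dvd_sub h6 (Dvd.intro_left _ rfl)
        · have h6 : (q : ℤ) ∣ x - r' j := (dvd_mul_left _ _).trans h5
          have : x - ρ j = (x - r' j) - (ρ j - r0) * w * q := by rw [← e2]; ring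
          rw [this]
          exact dvd_sub h6 (Dvd.intro_left _ rfl)
    have h5 : 𝒜.filter (fun x => ∀ j, (q : ℤ) ∣ v x j - ρ j) =
        s.filter (fun x => ∀ j, ((P * q : ℕ) : ℤ) ∣ v x j - r' j) := by
      rw [h𝒜, Finset.filter_filter]
      apply Finset.filter_congr
      intro x _
      constructor
      · rintro ⟨a1, a2⟩ j
        exact (hiff j (v x j)).mp ⟨a1 j, a2 j⟩
      · intro a1
        exact ⟨fun j => ((hiff j (v x j)).mpr (a1 j)).1, fun j => ((hiff j (v x j)).mpr (a1 j)).2⟩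
    rw [h5]
    have h6 : (s.card : ℝ) / (P : ℝ) ^ r / (q : ℝ) ^ r = s.card / ((P * q : ℕ) : ℝ) ^ r := by
      push_cast
      rw [div_div, mul_pow]
    rw [h6]
    apply hcount (P * q) (Nat.mul_pos hPpos hq1)
    push_cast
    calc (P : ℝ) * q ≤ X ^ (3 / 20 : ℝ) * X ^ (1 / 4 : ℝ) := by gcongr
      _ = X ^ (3 / 20 + 1 / 4 : ℝ) := by rw [Real.rpow_add hX0]
      _ = _ := by norm_num
  set Err₀ : ℝ := s.card * X ^ (-(2 * (r : ℝ))) with hErr₀
  have hErr₀0 : 0 ≤ Err₀ := by positivity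
  set Err : ℝ := Err₀ * (X ^ (1 / 4 : ℝ)) ^ (r - 1) with hErr
  have hErr0 : 0 ≤ Err := by positivity
  obtain ⟨i, hi, hcovi⟩ := hcov X hXX1 (Fin r × {k // k ∈ U}) hcard (gJ r {k // k ∈ U})
    (fun p _ hpl _ => gJ_bounds r hr {k // k ∈ U} p l hl1 hpl hru1 hru2) ι 𝒜
    (fun x p => colJ res (v x) p) (s.card / (P : ℝ) ^ r) Err hNpos hErr0 (by
      have h5 : (P : ℝ) ^ r ≤ X ^ ((3 / 20 : ℝ) * r) := by
        rw [Real.rpow_mul hX0.le, Real.rpow_natCast]
        exact pow_le_pow_left₀ hPr.le hprim r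
      have h6 : (X ^ (1 / 4 : ℝ)) ^ (r - 1) ≤ X ^ ((1 / 4 : ℝ) * r) := by
        rw [Real.rpow_mul hX0.le, Real.rpow_natCast]
        exact pow_le_pow_right₀ (Real.one_le_rpow hX1 (by norm_num)) (Nat.sub_le r 1)
      rw [hErr, hErr₀, div_mul_eq_mul_div, le_div_iff₀ (by positivity)]
      calc (s.card : ℝ) * X ^ (-(2 * (r : ℝ))) * (X ^ (1 / 4 : ℝ)) ^ (r - 1) * (P : ℝ) ^ r
          ≤ (s.card : ℝ) * X ^ (-(2 * (r : ℝ))) * X ^ ((1 / 4 : ℝ) * r) * X ^ ((3 / 20 : ℝ) * r) := by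
            gcongr
        _ = (s.card : ℝ) * X ^ (-(2 * (r : ℝ)) + (1 / 4 : ℝ) * r + (3 / 20 : ℝ) * r) := by
            rw [Real.rpow_add hX0, Real.rpow_add hX0]; ring
        _ ≤ (s.card : ℝ) * X ^ (-(2 / 5) : ℝ) := by
            apply mul_le_mul_of_nonneg_left _ hscard.le
            apply Real.rpow_le_rpow_of_exponent_le hX1
            nlinarith) (by
      intro S' hS' hS'Q D hD
      have h5 := countJ 𝒜 v res (s.card / (P : ℝ) ^ r) Err₀ (X ^ (1 / 4 : ℝ)) (l ^ 2) hErr₀0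
        hcountA S' ∅ (fun p hp => ⟨(hS' p hp).1, (hS' p hp).2.1⟩)
        (fun p hp => hinj p (hS' p hp).2.1) (by simp) (Finset.disjoint_empty_right _)
        (by simpa using hS'Q) D hD (fun _ _ => 0)
      have h6 : (𝒜.filter (fun x => (∀ p ∈ S', colJ res (v x) p = D p) ∧
          ∀ p ∈ (∅ : Finset ℕ), ∀ j, (p : ℤ) ∣ v x j - (fun (_ : ℕ) (_ : Fin r) => (0 : ℤ)) p j)) =
          𝒜.filter (fun x => ∀ p ∈ S', colJ res (v x) p = D p) := by
        apply Finset.filter_congr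
        intro x _
        simp
      rw [h6, Finset.prod_empty, mul_one] at h5
      refine h5.trans ?_
      rw [hErr]
      apply mul_le_mul_of_nonneg_left _ hErr₀0
      rw [Finset.prod_pow]
      exact pow_le_pow_left₀ (Finset.prod_nonneg fun _ _ => Nat.cast_nonneg _) hS'Q _)
  rw [h𝒜, Finset.mem_filter] at hi
  refine ⟨i, hi.1, ?_⟩
  intro j m hm
  have hL16 : (16 : ℝ) ≤ L := by linarith
  have hLh : (L : ℝ) ≤ 2 * h + 1 := by
    have : L ≤ 2 * h + 1 := by omega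
    exact_mod_cast this
  have hLh' : 2 * (h : ℝ) ≤ L := by
    have : 2 * h ≤ L := by omega
    exact_mod_cast this
  have hm' := abs_le.mp hm
  have hk1 : (1 : ℤ) ≤ m - v i j + h := by
    have : (0 : ℝ) < ((m - v i j + h : ℤ) : ℝ) := by
      push_cast
      linarith [hm'.1]
    have : (0 : ℤ) < m - v i j + h := by exact_mod_cast this
    omega
  have hk2 : m - v i j + h ≤ L := by
    have : ((m - v i j + h : ℤ) : ℝ) ≤ ((L : ℤ) : ℝ) := by
      push_cast
      linarith [hm'.2]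
    exact_mod_cast this
  obtain ⟨k, hk⟩ : ∃ k : ℕ, (k : ℤ) = m - v i j + h := ⟨(m - v i j + h).toNat, by omega⟩
  have hkIcc : k ∈ Finset.Icc 1 L := by
    rw [Finset.mem_Icc]
    omega
  by_cases hkU : k ∈ U
  · obtain ⟨p, hp, hpl, hpX, hd⟩ := hcovi (j, ⟨k, hkU⟩)
    refine ⟨p, hp, hpX, ?_⟩
    have hd' := ((colJ_eq (hinj p hpl)).mp hd).1
    simp only at hd'
    have : v i j - res p ⟨k, hkU⟩ = m := by
      rw [hres]
      simp only
      omega
    rwa [this] at hd'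
  · have h5 : ∃ p : ℕ, p.Prime ∧ (p : ℝ) ≤ l / 10 ∧ k ≡ b p [MOD p] := by
      by_contra hcon
      push Not at hcon
      exact hkU (Finset.mem_filter.mpr ⟨hkIcc, hcon⟩)
    obtain ⟨p, hp, hpl, hkb⟩ := h5
    refine ⟨p, hp, hpl.trans h3, ?_⟩
    have hpS := hSmem p hp hpl
    have h6 : (p : ℤ) ∣ (r0 : ℤ) + ((b p : ℤ) + ((p : ℤ) - 1) * h) := by
      have h7 := Int.natCast_dvd_natCast.mpr (hr0' p hpS)
      push_cast [Nat.cast_sub hp.one_le] at h7
      exact h7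
    have h7 : (p : ℤ) ∣ v i j - r0 := by
      refine dvd_trans ?_ (hi.2 j)
      rw [hPS]
      exact Int.natCast_dvd_natCast.mpr (Finset.dvd_prod_of_mem _ hpS)
    have h8 : (p : ℤ) ∣ (k : ℤ) - b p := by
      have := (Nat.modEq_iff_dvd.mp hkb)
      rw [← neg_sub]
      exact (dvd_neg).mpr this
    have h9 : m = (v i j - r0) + ((r0 : ℤ) + ((b p : ℤ) + ((p : ℤ) - 1) * h)) +
        ((k : ℤ) - b p) - p * h := by
      rw [hk]; ring
    rw [h9]
    exact dvd_sub (dvd_add (dvd_add h7 h6) h8) (Dvd.intro _ rfl)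

end Pool.Agent.Y961.JR
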