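import Pool.Agent.TH915.PW.Disc

set_option autoImplicit false

/-! # Points with small exponential sums are well distributed in boxes (weak constants) -/

namespace Pool.Agent.Y961.JR

open Finset
open Pool.Agent.H469R2.NK (e norm_e e_add conj_e e_zero)
open Pool.Agent.TH915.PW (parseval kernel_small sq_expand)

lemma e_sum {α : Type*} (s : Finset α) (f : α → ℝ) : e (∑ j ∈ s, f j) = ∏ j ∈ s, e (f j) := by
  classical
  induction s using Finset.induction_on with
  | empty => simp [e_zero]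
  | insert a s ha ih => rw [Finset.sum_insert ha, Finset.prod_insert ha, e_add, ih]

/-- the sum of the product kernels over the points -/
lemma sum_kernelJ {ι : Type*} {r : ℕ} (s : Finset ι) (x : ι → Fin r → ℝ) (H : ℕ) (E : ℝ)
    (hE0 : 0 ≤ E) (hE : ∀ h : Fin r → ℤ, h ≠ 0 → (∀ j, (h j).natAbs < H) →
      ‖∑ i ∈ s, e (∑ j, (h j : ℝ) * x i j)‖ ≤ E) (c : Fin r → ℝ) :
    (H : ℝ) ^ r * s.card - (H : ℝ) ^ (2 * r) * E ≤
      ∑ i ∈ s, ∏ j, ‖∑ t ∈ range H, e (t * (x i j - c j))‖ ^ 2 := by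
  classical
  set Φ : Finset (Fin r → ℕ × ℕ) := Fintype.piFinset (fun _ => range H ×ˢ range H) with hΦ
  set hh : (Fin r → ℕ × ℕ) → Fin r → ℤ := fun φ j => ((φ j).1 : ℤ) - ((φ j).2 : ℤ) with hhh
  have h0 : ∀ i, ((∏ j, ‖∑ t ∈ range H, e (t * (x i j - c j))‖ ^ 2 : ℝ) : ℂ) =
      ∑ φ ∈ Φ, e (-∑ j, (hh φ j : ℝ) * c j) * e (∑ j, (hh φ j : ℝ) * x i j) := by
    intro i
    push_cast
    have h1 : ∀ j : Fin r, ((‖∑ t ∈ range H, e (t * (x i j - c j))‖ : ℂ)) ^ 2 =
        ∑ t ∈ range H ×ˢ range H, e ((((t.1 : ℤ) - (t.2 : ℤ) : ℤ) : ℝ) * (x i j - c j)) := by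
      intro j
      have h2 := sq_expand H (x i j - c j)
      push_cast at h2
      rw [Finset.sum_product, h2]
      push_cast
      rfl
    rw [Finset.prod_congr rfl fun j _ => h1 j, Finset.prod_univ_sum]
    refine Finset.sum_congr rfl fun φ _ => ?_
    rw [← e_sum, ← e_add]
    congr 1
    rw [← Finset.sum_neg_distrib, ← Finset.sum_add_distrib]
    refine Finset.sum_congr rfl fun j _ => ?_
    simp only [hhh]
    ring
  have h2 : ((∑ i ∈ s, ∏ j, ‖∑ t ∈ range H, e (t * (x i j - c j))‖ ^ 2 : ℝ) : ℂ) =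
      ∑ φ ∈ Φ, e (-∑ j, (hh φ j : ℝ) * c j) * ∑ i ∈ s, e (∑ j, (hh φ j : ℝ) * x i j) := by
    rw [Complex.ofReal_sum, Finset.sum_congr rfl fun i _ => h0 i, Finset.sum_comm]
    refine Finset.sum_congr rfl fun φ _ => ?_
    rw [Finset.mul_sum]
  have h3 : ((((H : ℝ) ^ r * s.card : ℝ)) : ℂ) =
      ∑ φ ∈ Φ, (if hh φ = 0 then (s.card : ℂ) else 0) := by
    have h4 : ∀ φ : Fin r → ℕ × ℕ, (if hh φ = 0 then (s.card : ℂ) else 0) =
        s.card * ∏ j, (if (φ j).1 = (φ j).2 then (1 : ℂ) else 0) := by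
      intro φ
      by_cases h : hh φ = 0
      · have h5 : ∀ j, (φ j).1 = (φ j).2 := by
          intro j
          have := congrFun h j
          simp only [hhh, Pi.zero_apply] at this
          omega
        rw [if_pos h, Finset.prod_congr rfl fun j _ => if_pos (h5 j)]
        simp
      · have h5 : ∃ j, (φ j).1 ≠ (φ j).2 := by
          by_contra hcon
          push Not at hcon
          apply h
          funext j
          simp only [hhh, Pi.zero_apply]
          have := hcon j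
          omega
        obtain ⟨j, hj⟩ := h5
        rw [if_neg h, Finset.prod_eq_zero (Finset.mem_univ j) (if_neg hj), mul_zero]
    rw [Finset.sum_congr rfl fun φ _ => h4 φ, ← Finset.mul_sum, hΦ,
      ← Finset.prod_univ_sum (fun _ => range H ×ˢ range H)
        (fun _ t => if t.1 = t.2 then (1 : ℂ) else 0)]
    have h6 : ∑ t ∈ range H ×ˢ range H, (if t.1 = t.2 then (1 : ℂ) else 0) = H := by
      rw [Finset.sum_product]
      have h7 : ∀ a ∈ range H, ∑ b ∈ range H, (if a = b then (1 : ℂ) else 0) = 1 := by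
        intro a ha
        rw [Finset.sum_ite_eq, if_pos ha]
      rw [Finset.sum_congr rfl h7]
      simp
    rw [Finset.prod_congr rfl fun j _ => h6, Finset.prod_const, Finset.card_univ,
      Fintype.card_fin]
    push_cast
    ring
  have hcardΦ : (Φ.card : ℝ) = (H : ℝ) ^ (2 * r) := by
    rw [hΦ, Fintype.card_piFinset]
    simp only [Finset.card_product, Finset.card_range, Finset.prod_const, Finset.card_univ,
      Fintype.card_fin]
    push_cast
    rw [← pow_two, ← pow_mul]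
  have h7 : ‖((∑ i ∈ s, ∏ j, ‖∑ t ∈ range H, e (t * (x i j - c j))‖ ^ 2 : ℝ) : ℂ) -
      (((H : ℝ) ^ r * s.card : ℝ) : ℂ)‖ ≤ (H : ℝ) ^ (2 * r) * E := by
    rw [h2, h3, ← Finset.sum_sub_distrib, ← hcardΦ, ← nsmul_eq_mul, ← Finset.sum_const]
    refine (norm_sum_le _ _).trans (Finset.sum_le_sum ?_)
    intro φ hφ
    rw [hΦ, Fintype.mem_piFinset] at hφ
    split_ifs with h
    · have h8 : ∀ j, (hh φ j : ℝ) = 0 := by
        intro j
        rw [h]
        simp
      simp only [h8, zero_mul, Finset.sum_const_zero, neg_zero, e_zero, one_mul]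
      simp [hE0]
    · rw [sub_zero, norm_mul, norm_e, one_mul]
      apply hE _ h
      intro j
      have h9 := hφ j
      rw [Finset.mem_product, Finset.mem_range, Finset.mem_range] at h9
      simp only [hhh]
      omega
  rw [← Complex.ofReal_sub, Complex.norm_real, Real.norm_eq_abs] at h7
  linarith [(abs_le.mp h7).1]

/-- lower bound for the number of points in a box -/
theorem discJ_low {ι : Type*} {r : ℕ} (hr : 1 ≤ r) (s : Finset ι) (x : ι → Fin r → ℝ) (K : ℕ)
    (hK : 1 ≤ K) (E : ℝ) (hE0 : 0 ≤ E)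
    (hE : ∀ h : Fin r → ℤ, h ≠ 0 → (∀ j, (h j).natAbs < K ^ 3) →
      ‖∑ i ∈ s, e (∑ j, (h j : ℝ) * x i j)‖ ≤ E) (a b : Fin r → ℝ)
    (ha : ∀ j, 0 ≤ a j) (hb : ∀ j, b j ≤ 1) (w : ℝ) (hw : ∀ j, b j - a j = w) (hwK : 3 / K ≤ w) :
    (s.card : ℝ) * (w - 3 / K) ^ r - 4 * s.card / K - (K : ℝ) ^ (3 * r) * E ≤
      ((s.filter (fun i => ∀ j, a j ≤ Int.fract (x i j) ∧ Int.fract (x i j) < b j)).card : ℝ) := by
  classical
  have hK1 : (1 : ℝ) ≤ K := by exact_mod_cast hK
  have hK0 : (0 : ℝ) < K := by linarith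
  set H : ℕ := K ^ 3 with hH
  have hH1 : 1 ≤ H := Nat.one_le_pow _ _ hK
  have hHr : (H : ℝ) = (K : ℝ) ^ 3 := by rw [hH]; push_cast; rfl
  have hH0 : (0 : ℝ) < H := by rw [hHr]; positivity
  set δ : ℝ := 1 / K with hδ
  have hδ0 : 0 < δ := by positivity
  set N : ℝ := (s.card : ℝ) with hN
  have hN0 : 0 ≤ N := Nat.cast_nonneg _
  set I : Fin r → Finset ℕ := fun j =>
    (range H).filter (fun t => a j + δ ≤ (t : ℝ) / H ∧ (t : ℝ) / H ≤ b j - δ) with hI
  -- cardinality of `I j`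
  have hIcard : ∀ j, (H : ℝ) * (w - 3 / K) ≤ (I j).card := by
    intro j
    have hwj := hw j
    have h0 : (H : ℝ) * (b j - a j - 2 * δ) - 1 ≤ (I j).card := by
      have h1 : Finset.Icc ⌈H * (a j + δ)⌉₊ ⌊H * (b j - δ)⌋₊ ⊆ I j := by
        intro t ht
        rw [Finset.mem_Icc] at ht
        have ht1 : H * (a j + δ) ≤ t := Nat.ceil_le.mp ht.1
        have haj := ha j
        have ht0 : 0 < H * (a j + δ) := by positivity
        have ht2 : (t : ℝ) ≤ H * (b j - δ) := by
          have hpos : 1 ≤ t := by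
            have : (0 : ℝ) < t := by linarith
            exact_mod_cast this
          exact (Nat.le_floor_iff' (by omega)).mp ht.2
        have hbj := hb j
        rw [hI, Finset.mem_filter, Finset.mem_range]
        refine ⟨?_, ?_, ?_⟩
        · have : (t : ℝ) < H := by nlinarith
          exact_mod_cast this
        · rw [le_div_iff₀ hH0]; linarith
        · rw [div_le_iff₀ hH0]; linarith
      have h2 := Finset.card_le_card h1
      rw [Nat.card_Icc] at h2
      have haj := ha j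
      rcases le_or_gt (b j - δ) 0 with h3 | h3
      · have : (H : ℝ) * (b j - a j - 2 * δ) ≤ 0 := by
          apply mul_nonpos_of_nonneg_of_nonpos hH0.le
          linarith
        have h4 : (0 : ℝ) ≤ (I j).card := Nat.cast_nonneg _
        linarith
      · have h4 : (H : ℝ) * (b j - δ) < ⌊H * (b j - δ)⌋₊ + 1 := Nat.lt_floor_add_one _
        have h5 : (⌈H * (a j + δ)⌉₊ : ℝ) < H * (a j + δ) + 1 := Nat.ceil_lt_add_one (by positivity)
        have h6 : (⌊H * (b j - δ)⌋₊ : ℝ) + 1 - ⌈H * (a j + δ)⌉₊ ≤ (I j).card := by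
          have : ⌊H * (b j - δ)⌋₊ + 1 ≤ (I j).card + ⌈H * (a j + δ)⌉₊ := by omega
          have h7 : ((⌊H * (b j - δ)⌋₊ + 1 : ℕ) : ℝ) ≤ (((I j).card + ⌈H * (a j + δ)⌉₊ : ℕ) : ℝ) := by
            exact_mod_cast this
          push_cast at h7
          linarith
        nlinarith
    have h1 : (1 : ℝ) ≤ H * (1 / K) := by
      rw [hHr]
      have : (K : ℝ) ^ 3 * (1 / K) = (K : ℝ) ^ 2 := by field_simp
      rw [this]
      exact one_le_pow₀ hK1
    rw [hwj] at h0
    have e1 : (H : ℝ) * (w - 3 / K) = H * (w - 2 * δ) - H * (1 / K) := by rw [hδ]; ring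
    rw [e1]
    linarith
  have hIle : ∀ j, ((I j).card : ℝ) ≤ H := by
    intro j
    have := Finset.card_filter_le (range H)
      (fun t : ℕ => a j + δ ≤ (t : ℝ) / H ∧ (t : ℝ) / H ≤ b j - δ)
    rw [card_range] at this
    exact_mod_cast this
  -- the weight
  set W : Fin r → ℝ → ℝ := fun j y =>
    ∑ t ∈ I j, ‖∑ m ∈ range H, e (m * (y - t / H))‖ ^ 2 with hW
  have hW0 : ∀ j y, 0 ≤ W j y := fun j y => Finset.sum_nonneg fun _ _ => by positivity
  have hW1 : ∀ j y, W j y ≤ (H : ℝ) * H := by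
    intro j y
    rw [← parseval H H hH1 le_rfl y]
    apply Finset.sum_le_sum_of_subset_of_nonneg (Finset.filter_subset _ _)
    intro t _ _
    positivity
  have hW2 : ∀ j y, ¬ (a j ≤ Int.fract y ∧ Int.fract y < b j) → W j y ≤ H * (4 * (K : ℝ) ^ 2) := by
    intro j y hy
    have haj := ha j
    have hbj := hb j
    have h1 : ∀ t ∈ I j, ‖∑ m ∈ range H, e (m * (y - t / H))‖ ^ 2 ≤ 4 * (K : ℝ) ^ 2 := by
      intro t ht
      rw [hI, Finset.mem_filter, Finset.mem_range] at ht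
      obtain ⟨_, h2, h3⟩ := ht
      have h4 : 4 / δ ^ 2 = 4 * (K : ℝ) ^ 2 := by rw [hδ]; field_simp
      rw [← h4]
      set c : ℝ := (t : ℝ) / H with hc
      have hf0 := Int.fract_nonneg y
      have hf1 := Int.fract_lt_one y
      rcases lt_or_ge (Int.fract y) (a j) with h5 | h5
      · have h6 : Int.fract (y - c) = Int.fract y - c + 1 := by
          rw [Int.fract_eq_iff]
          refine ⟨by linarith, by linarith, ⌊y⌋ - 1, ?_⟩
          have := Int.self_sub_floor y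
          push_cast
          linarith
        apply kernel_small _ _ _ hδ0
        · rw [h6]; linarith
        · rw [h6]; linarith
      · have h5' : b j ≤ Int.fract y := by
          by_contra hcon
          exact hy ⟨h5, not_le.mp hcon⟩
        have h6 : Int.fract (y - c) = Int.fract y - c := by
          rw [Int.fract_eq_iff]
          refine ⟨by linarith, by linarith, ⌊y⌋, ?_⟩
          have := Int.self_sub_floor y
          linarith
        apply kernel_small _ _ _ hδ0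
        · rw [h6]; linarith
        · rw [h6]; linarith
    calc W j y ≤ ∑ t ∈ I j, 4 * (K : ℝ) ^ 2 := Finset.sum_le_sum h1
      _ = (I j).card * (4 * (K : ℝ) ^ 2) := by rw [sum_const, nsmul_eq_mul]
      _ ≤ _ := by
        have := hIle j
        gcongr
  set G := s.filter (fun i => ∀ j, a j ≤ Int.fract (x i j) ∧ Int.fract (x i j) < b j) with hG
  have hup : ∑ i ∈ s, ∏ j, W j (x i j) ≤
      G.card * ((H : ℝ) * H) ^ r + N * (H * (4 * (K : ℝ) ^ 2) * ((H : ℝ) * H) ^ (r - 1)) := by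
    rw [← Finset.sum_filter_add_sum_filter_not s
      (fun i => ∀ j, a j ≤ Int.fract (x i j) ∧ Int.fract (x i j) < b j)]
    apply add_le_add
    · calc _ ≤ ∑ i ∈ G, ((H : ℝ) * H) ^ r := by
            apply Finset.sum_le_sum
            intro i _
            calc ∏ j, W j (x i j) ≤ ∏ _j : Fin r, ((H : ℝ) * H) :=
                  Finset.prod_le_prod (fun j _ => hW0 j _) (fun j _ => hW1 j _)
              _ = _ := by rw [Finset.prod_const, Finset.card_univ, Fintype.card_fin]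
        _ = _ := by rw [sum_const, nsmul_eq_mul]
    · calc _ ≤ ∑ i ∈ s.filter (fun i => ¬ (∀ j, a j ≤ Int.fract (x i j) ∧
            Int.fract (x i j) < b j)), H * (4 * (K : ℝ) ^ 2) * ((H : ℝ) * H) ^ (r - 1) := by
            apply Finset.sum_le_sum
            intro i hi
            rw [Finset.mem_filter] at hi
            obtain ⟨j0, hj0⟩ := not_forall.mp hi.2
            rw [← Finset.mul_prod_erase Finset.univ (fun j => W j (x i j)) (Finset.mem_univ j0)]
            apply mul_le_mul (hW2 j0 _ hj0) _ (Finset.prod_nonneg fun j _ => hW0 j _)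
              (by positivity)
            calc ∏ j ∈ Finset.univ.erase j0, W j (x i j) ≤
                  ∏ _j ∈ (Finset.univ : Finset (Fin r)).erase j0, ((H : ℝ) * H) :=
                  Finset.prod_le_prod (fun j _ => hW0 j _) (fun j _ => hW1 j _)
              _ = _ := by
                rw [Finset.prod_const, Finset.card_erase_of_mem (Finset.mem_univ _),
                  Finset.card_univ, Fintype.card_fin]
        _ = ((s.filter (fun i => ¬ (∀ j, a j ≤ Int.fract (x i j) ∧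
            Int.fract (x i j) < b j))).card : ℝ) *
            (H * (4 * (K : ℝ) ^ 2) * ((H : ℝ) * H) ^ (r - 1)) := by rw [sum_const, nsmul_eq_mul]
        _ ≤ _ := by
            apply mul_le_mul_of_nonneg_right _ (by positivity)
            rw [hN]
            exact_mod_cast Finset.card_filter_le _ _
  have hcardI : ((Fintype.piFinset I).card : ℝ) = ∏ j, ((I j).card : ℝ) := by
    rw [Fintype.card_piFinset]
    push_cast
    rfl
  have hlow : (∏ j, ((I j).card : ℝ)) * ((H : ℝ) ^ r * N - (H : ℝ) ^ (2 * r) * E) ≤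
      ∑ i ∈ s, ∏ j, W j (x i j) := by
    have h1 : ∀ i, ∏ j, W j (x i j) = ∑ ρ ∈ Fintype.piFinset I,
        ∏ j, ‖∑ m ∈ range H, e (m * (x i j - (ρ j : ℝ) / H))‖ ^ 2 := by
      intro i
      simp only [hW]
      rw [Finset.prod_univ_sum]
    rw [Finset.sum_congr rfl fun i _ => h1 i, sum_comm, ← hcardI, ← nsmul_eq_mul, ← sum_const]
    apply Finset.sum_le_sum
    intro ρ _
    exact sum_kernelJ s x H E hE0 hE (fun j => (ρ j : ℝ) / H)
  -- combine
  have hw0 : 0 ≤ w - 3 / K := by linarith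
  have hI1 : ((H : ℝ) * (w - 3 / K)) ^ r ≤ ∏ j, ((I j).card : ℝ) := by
    calc ((H : ℝ) * (w - 3 / K)) ^ r = ∏ _j : Fin r, ((H : ℝ) * (w - 3 / K)) := by
          rw [Finset.prod_const, Finset.card_univ, Fintype.card_fin]
      _ ≤ _ := Finset.prod_le_prod (fun _ _ => by positivity) (fun j _ => hIcard j)
  have hI2 : ∏ j, ((I j).card : ℝ) ≤ (H : ℝ) ^ r := by
    calc ∏ j, ((I j).card : ℝ) ≤ ∏ _j : Fin r, (H : ℝ) :=
          Finset.prod_le_prod (fun _ _ => Nat.cast_nonneg _) (fun j _ => hIle j)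
      _ = _ := by rw [Finset.prod_const, Finset.card_univ, Fintype.card_fin]
  have h1 := hlow.trans hup
  have hHH : ((H : ℝ) * H) ^ r = (H : ℝ) ^ r * (H : ℝ) ^ r := mul_pow _ _ _
  have h2 : ((H : ℝ) * (w - 3 / K)) ^ r * ((H : ℝ) ^ r * N) ≤
      (∏ j, ((I j).card : ℝ)) * ((H : ℝ) ^ r * N) :=
    mul_le_mul_of_nonneg_right hI1 (by positivity)
  have h3 : (∏ j, ((I j).card : ℝ)) * ((H : ℝ) ^ (2 * r) * E) ≤
      (H : ℝ) ^ r * ((H : ℝ) ^ (2 * r) * E) :=
    mul_le_mul_of_nonneg_right hI2 (by positivity)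
  have hHK : (K : ℝ) ^ (3 * r) = (H : ℝ) ^ r := by rw [hHr, ← pow_mul]
  have e1 : N * (H * (4 * (K : ℝ) ^ 2) * ((H : ℝ) * H) ^ (r - 1)) =
      ((H : ℝ) * H) ^ r * (4 * N / K) := by
    obtain ⟨n, rfl⟩ : ∃ n, r = n + 1 := ⟨r - 1, by omega⟩
    simp only [Nat.add_sub_cancel]
    rw [pow_succ ((H : ℝ) * H) n]
    have : (H : ℝ) * (4 * (K : ℝ) ^ 2) = H * H * (4 / K) := by
      rw [hHr]; field_simp
    rw [this]
    ring
  have e2 : (H : ℝ) ^ (2 * r) = (H : ℝ) ^ r * (H : ℝ) ^ r := by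
    rw [two_mul, pow_add]
  have h4 : ((H : ℝ) * H) ^ r * (N * (w - 3 / K) ^ r - 4 * N / K - (K : ℝ) ^ (3 * r) * E) ≤
      ((H : ℝ) * H) ^ r * G.card := by
    rw [e1] at h1
    rw [mul_pow] at h2
    rw [hHK, mul_sub, mul_sub]
    have e3 : ((H : ℝ) * H) ^ r * (N * (w - 3 / K) ^ r) =
        (H : ℝ) ^ r * (w - 3 / K) ^ r * ((H : ℝ) ^ r * N) := by rw [hHH]; ring
    have e4 : ((H : ℝ) * H) ^ r * ((H : ℝ) ^ r * E) = (H : ℝ) ^ r * ((H : ℝ) ^ (2 * r) * E) := by
      rw [hHH, e2]; ring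
    rw [e3, e4]
    linarith
  exact le_of_mul_le_mul_left h4 (by positivity)

lemma pow_sub_pow_le {a c : ℝ} (hc : 0 ≤ c) (hca : c ≤ a) (ha : a ≤ 1) (n : ℕ) :
    a ^ n - c ^ n ≤ n * (a - c) := by
  induction n with
  | zero => simp
  | succ n ih =>
    have h1 : c ^ n ≤ 1 := pow_le_one₀ hc (hca.trans ha)
    have h2 : 0 ≤ a ^ n - c ^ n := sub_nonneg.mpr (pow_le_pow_left₀ hc hca n)
    have h3 : 0 ≤ a := hc.trans hca
    have e1 : a ^ (n + 1) - c ^ (n + 1) = a * (a ^ n - c ^ n) + (a - c) * c ^ n := by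
      rw [pow_succ, pow_succ]; ring
    rw [e1]
    push_cast
    have h4 : a * (a ^ n - c ^ n) ≤ 1 * (a ^ n - c ^ n) := mul_le_mul_of_nonneg_right ha h2
    have h5 : (a - c) * c ^ n ≤ (a - c) * 1 := mul_le_mul_of_nonneg_left h1 (by linarith)
    linarith

lemma floor_class (q : ℕ) (hq : 1 ≤ q) (a : ℝ) (t : ℤ) (ht0 : 0 ≤ t) (ht1 : t < q) :
    ⌊a⌋ % (q : ℤ) = t ↔ (t : ℝ) / q ≤ Int.fract (a / q) ∧ Int.fract (a / q) < (t + 1) / q := by
  have hq0 : (0 : ℝ) < q := by exact_mod_cast hq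
  have hqi : (0 : ℤ) < q := by exact_mod_cast hq
  set m : ℤ := ⌊a⌋ / q with hm
  have hdm : (q : ℤ) * m + ⌊a⌋ % q = ⌊a⌋ := Int.mul_ediv_add_emod _ _
  set u : ℤ := ⌊a⌋ % q with hu
  have hu0 : 0 ≤ u := Int.emod_nonneg _ hqi.ne'
  have hu1 : u < q := Int.emod_lt_of_pos _ hqi
  have hfa0 := Int.fract_nonneg a
  have hfa1 := Int.fract_lt_one a
  have hafl : a = q * m + u + Int.fract a := by
    have h5 : (⌊a⌋ : ℝ) + Int.fract a = a := Int.floor_add_fract _
    have h6 : (⌊a⌋ : ℝ) = q * m + u := by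
      rw [← hdm]; push_cast; ring
    linarith
  have hu1' : (u : ℝ) + 1 ≤ q := by exact_mod_cast hu1
  have hu0' : (0 : ℝ) ≤ u := by exact_mod_cast hu0
  have hfr : Int.fract (a / q) = (u + Int.fract a) / q := by
    rw [Int.fract_eq_iff]
    refine ⟨by positivity, ?_, m, ?_⟩
    · rw [div_lt_one hq0]; linarith
    · have : a / q - (u + Int.fract a) / q = (a - (u + Int.fract a)) / q := by ring
      rw [this, div_eq_iff hq0.ne']
      linarith
  rw [hfr, div_le_div_iff_of_pos_right hq0, div_lt_div_iff_of_pos_right hq0]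
  constructor
  · intro h5
    rw [← h5]
    constructor <;> linarith
  · rintro ⟨h5, h6⟩
    have h7 : (t : ℝ) < u + 1 := by linarith
    have h8 : (u : ℝ) < t + 1 := by linarith
    have h7' : t < u + 1 := by exact_mod_cast h7
    have h8' : u < t + 1 := by exact_mod_cast h8
    omega

/-- the number of points in a residue class -/
theorem discJ {ι : Type*} {r : ℕ} (hr : 1 ≤ r) (s : Finset ι) (x : ι → Fin r → ℝ) (K q : ℕ)
    (hK : 1 ≤ K) (hq : 1 ≤ q) (hKq : 3 * q ≤ K) (E : ℝ) (hE0 : 0 ≤ E)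
    (hE : ∀ h : Fin r → ℤ, h ≠ 0 → (∀ j, (h j).natAbs < K ^ 3) →
      ‖∑ i ∈ s, e (∑ j, (h j : ℝ) * (x i j / q))‖ ≤ E) (ρ : Fin r → ℤ) :
    |((s.filter (fun i => ∀ j, (q : ℤ) ∣ ⌊x i j⌋ - ρ j)).card : ℝ) - s.card / (q : ℝ) ^ r| ≤
      (q : ℝ) ^ r * ((3 * r + 4) * s.card / K + (K : ℝ) ^ (3 * r) * E) := by
  classical
  have hq0 : (0 : ℝ) < q := by exact_mod_cast hq
  have hq1 : (1 : ℝ) ≤ q := by exact_mod_cast hq
  have hqi : (0 : ℤ) < q := by exact_mod_cast hq
  have hK0 : (0 : ℝ) < K := by exact_mod_cast hK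
  have hKq' : 3 * (q : ℝ) ≤ K := by exact_mod_cast hKq
  set err : ℝ := (3 * r + 4) * s.card / K + (K : ℝ) ^ (3 * r) * E with herr
  have herr0 : 0 ≤ err := by positivity
  set cnt : (Fin r → ℤ) → ℝ := fun τ =>
    ((s.filter (fun i => (fun j => ⌊x i j⌋ % (q : ℤ)) = τ)).card : ℝ) with hcnt
  set R : Finset (Fin r → ℤ) := Fintype.piFinset (fun _ => Finset.Ico 0 (q : ℤ)) with hR
  have hRcard : (R.card : ℝ) = (q : ℝ) ^ r := by
    rw [hR, Fintype.card_piFinset]
    simp
  have h3K : 3 / (K : ℝ) ≤ 1 / q := by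
    rw [div_le_div_iff₀ hK0 hq0]; linarith
  have hq11 : 1 / (q : ℝ) ≤ 1 := by rw [div_le_one hq0]; exact hq1
  have hlow : ∀ τ ∈ R, s.card / (q : ℝ) ^ r - err ≤ cnt τ := by
    intro τ hτ
    rw [hR, Fintype.mem_piFinset] at hτ
    have hτ' : ∀ j, 0 ≤ τ j ∧ τ j < q := fun j => by
      have := hτ j
      rwa [Finset.mem_Ico] at this
    have h1 := discJ_low hr s (fun i j => x i j / q) K hK E hE0 hE (fun j => (τ j : ℝ) / q)
      (fun j => ((τ j : ℝ) + 1) / q) (fun j => by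
        have : (0 : ℝ) ≤ τ j := by exact_mod_cast (hτ' j).1
        positivity) (fun j => by
        rw [div_le_one hq0]
        exact_mod_cast (hτ' j).2) (1 / q) (fun j => by ring) h3K
    have h2 : (s.filter (fun i => ∀ j, (τ j : ℝ) / q ≤ Int.fract (x i j / q) ∧
        Int.fract (x i j / q) < ((τ j : ℝ) + 1) / q)) =
        s.filter (fun i => (fun j => ⌊x i j⌋ % (q : ℤ)) = τ) := by
      apply Finset.filter_congr
      intro i _
      rw [funext_iff]
      exact forall_congr' fun j => (floor_class q hq (x i j) (τ j) (hτ' j).1 (hτ' j).2).symm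
    rw [h2] at h1
    have h3 := pow_sub_pow_le (a := 1 / (q : ℝ)) (c := 1 / q - 3 / K) (by linarith)
      (by have : 0 < 3 / (K : ℝ) := by positivity
          linarith) hq11 r
    have e1 : (1 / (q : ℝ)) ^ r = 1 / (q : ℝ) ^ r := by rw [div_pow, one_pow]
    rw [e1] at h3
    have h4 : (s.card : ℝ) * (1 / (q : ℝ) ^ r - (1 / q - 3 / K) ^ r) ≤
        s.card * (r * (1 / (q : ℝ) - (1 / q - 3 / K))) :=
      mul_le_mul_of_nonneg_left h3 (Nat.cast_nonneg _)
    have e2 : (s.card : ℝ) / (q : ℝ) ^ r - err = s.card * (1 / q - 3 / K) ^ r -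
        4 * s.card / K - (K : ℝ) ^ (3 * r) * E +
        (s.card * (1 / (q : ℝ) ^ r - (1 / q - 3 / K) ^ r) -
          s.card * (r * (1 / (q : ℝ) - (1 / q - 3 / K)))) := by
      rw [herr]; ring
    rw [e2]
    linarith
  have hsum : ∑ τ ∈ R, cnt τ = s.card := by
    have := Finset.card_eq_sum_card_fiberwise (s := s) (t := R)
      (f := fun i j => ⌊x i j⌋ % (q : ℤ)) (by
        intro i _
        rw [hR]
        simp only [Finset.mem_coe, Fintype.mem_piFinset, Finset.mem_Ico]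
        intro j
        exact ⟨Int.emod_nonneg _ hqi.ne', Int.emod_lt_of_pos _ hqi⟩)
    rw [this]
    push_cast
    rfl
  -- our class
  set τ₀ : Fin r → ℤ := fun j => ρ j % (q : ℤ) with hτ₀
  have hτR : τ₀ ∈ R := by
    rw [hR, Fintype.mem_piFinset]
    intro j
    rw [Finset.mem_Ico]
    exact ⟨Int.emod_nonneg _ hqi.ne', Int.emod_lt_of_pos _ hqi⟩
  have hfil : (s.filter (fun i => ∀ j, (q : ℤ) ∣ ⌊x i j⌋ - ρ j)) =
      s.filter (fun i => (fun j => ⌊x i j⌋ % (q : ℤ)) = τ₀) := by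
    apply Finset.filter_congr
    intro i _
    rw [funext_iff]
    refine forall_congr' fun j => ?_
    rw [hτ₀]
    constructor
    · intro h
      exact Int.emod_eq_emod_iff_emod_sub_eq_zero.mpr (Int.emod_eq_zero_of_dvd h)
    · intro h
      exact Int.dvd_of_emod_eq_zero (Int.emod_eq_emod_iff_emod_sub_eq_zero.mp h)
  rw [hfil]
  change |cnt τ₀ - s.card / (q : ℝ) ^ r| ≤ (q : ℝ) ^ r * err
  have hqr1 : (1 : ℝ) ≤ (q : ℝ) ^ r := one_le_pow₀ hq1
  have h1 := hlow τ₀ hτR
  have h2 : ∑ τ ∈ R.erase τ₀, (s.card / (q : ℝ) ^ r - err) ≤ ∑ τ ∈ R.erase τ₀, cnt τ :=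
    Finset.sum_le_sum fun τ hτ => hlow τ (Finset.mem_of_mem_erase hτ)
  rw [Finset.sum_const, nsmul_eq_mul, Finset.card_erase_of_mem hτR,
    Nat.cast_sub (Finset.card_pos.mpr ⟨τ₀, hτR⟩), hRcard] at h2
  have h3 := Finset.add_sum_erase R cnt hτR
  rw [hsum] at h3
  push_cast at h2
  have e1 : ((q : ℝ) ^ r - 1) * (s.card / (q : ℝ) ^ r - err) =
      s.card - s.card / (q : ℝ) ^ r - (q : ℝ) ^ r * err + err := by
    field_simp
    ring
  rw [e1] at h2
  rw [abs_le]
  constructor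
  · nlinarith
  · linarith

end Pool.Agent.Y961.JR
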