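import Pool.Agent.TH915.PW.Exp

set_option autoImplicit false

/-! # Exponential sums with a smooth phase: van der Corput's method with a long last step

The bound of `Pool.Agent.TH915.PW.exp_bound` with the saving in the average over the shifts.
-/

namespace Pool.Agent.Y961.JR

open Finset Filter
open Pool.Agent.H469R2.NK (e norm_e e_add norm_sum_neg Av Av_le Cq Cq_pos iterate harm_le)
open Pool.Agent.TH915.PW (Hy SD SD_sq SD_le)

/-- the exponential sum bound for positive frequencies -/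
theorem exp_boundH {k : ℕ} {A B lo hi : ℝ} {φ : ℕ → ℝ → ℝ} (hlo : 0 < lo)
    (hhi : 0 ≤ hi) (h : Hy k A B lo hi φ) (u : ℝ) (N L H : ℕ) (hN : 1 ≤ N) (hL : L ≤ N)
    (hu : A ≤ u) (huL : u + L ≤ B) (hH : 1 ≤ H) (hHN : H ≤ N)
    (hup : 2 * (hi * (H : ℝ) ^ k) ≤ 1) :
    (‖∑ n ∈ range L, e (φ 0 (u + n))‖ / N) ^ (2 ^ k) ≤
      Cq k * (1 / H + 2 / lo / N * ((1 + Real.log H) / H) ^ k) := by
  have hN' : (1 : ℝ) ≤ N := by exact_mod_cast hN
  have hH' : (1 : ℝ) ≤ H := by exact_mod_cast hH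
  have hL' : (L : ℝ) ≤ N := by exact_mod_cast hL
  have hHN' : (H : ℝ) ≤ N := by exact_mod_cast hHN
  have hstep : ∀ ls : List ℕ, (‖SD φ 1 u L ls‖ / N) ^ 2 ≤
      2 / H + 4 * ((∑ l ∈ Ico 1 H, ‖SD φ 1 u L (l :: ls)‖ / N) / H) := by
    intro ls
    have h := SD_sq φ 1 u L H ls
    set Sg := ∑ l ∈ Ico 1 H, ‖SD φ 1 u L (l :: ls)‖ with hSg
    have hSg0 : 0 ≤ Sg := sum_nonneg fun _ _ => norm_nonneg _
    have h2 : (H : ℝ) * ‖SD φ 1 u L ls‖ ^ 2 ≤ (2 * N) * (N + 2 * Sg) := by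
      refine h.trans ?_
      have : (L : ℝ) + H ≤ 2 * N := by linarith
      gcongr
    rw [← sum_div, ← hSg]
    have e1 : 2 / (H : ℝ) + 4 * (Sg / N / H) = ((2 * N) * (N + 2 * Sg)) / (H * N ^ 2) := by
      field_simp
      ring
    rw [e1, div_pow, div_le_div_iff₀ (by positivity) (by positivity)]
    calc ‖SD φ 1 u L ls‖ ^ 2 * (H * N ^ 2) = ((H : ℝ) * ‖SD φ 1 u L ls‖ ^ 2) * N ^ 2 := by ring
      _ ≤ _ := by gcongr
  have hit := iterate hH (fun ls => ‖SD φ 1 u L ls‖ / N) (fun ls => by positivity) hstep k []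
  have hSS : ∑ n ∈ range L, e (φ 0 (u + n)) = SD φ 1 u L [] := by
    unfold SD
    simp only [List.sum_nil, Nat.sub_zero, one_mul]
    rfl
  rw [hSS]
  refine hit.trans ?_
  have hC := Cq_pos k
  gcongr
  have h1 := Av_le (H := H) (T := fun ls => ‖SD φ 1 u L ls‖ / N)
    (κ := 2 / lo / N) k (by
      intro ls hlen hent
      have hpos : 0 < ls.prod := List.prod_pos fun l hl => (hent l hl).1
      have hle : ls.prod ≤ H ^ k := by
        have := List.prod_le_pow_card ls H (fun l hl => (hent l hl).2.le)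
        rwa [hlen] at this
      have hle' : ((ls.prod : ℕ) : ℝ) ≤ (H : ℝ) ^ k := by exact_mod_cast hle
      have h1 := SD_le hlo 1 one_pos h u L hu huL ls hpos hlen (by
        rw [one_mul]
        refine le_trans ?_ hup
        gcongr)
      have hP : (0 : ℝ) < (ls.prod : ℕ) := by exact_mod_cast hpos
      calc ‖SD φ 1 u L ls‖ / N ≤ (2 / (1 * lo * (ls.prod : ℕ))) / N := by
            gcongr
        _ = _ := by field_simp) k [] (by simp) (by simp)
  have h2 : (∑ l ∈ Ico 1 H, (1 : ℝ) / l) / H ≤ (1 + Real.log H) / H := by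
    apply div_le_div_of_nonneg_right (harm_le H) (by linarith)
  have h3 : ((∑ l ∈ Ico 1 H, (1 : ℝ) / l) / H) ^ k ≤ ((1 + Real.log H) / H) ^ k := by
    apply pow_le_pow_left₀ _ h2
    positivity
  have h4 : 0 ≤ 2 / lo / (N : ℝ) := by positivity
  calc Av H (fun ls => ‖SD φ 1 u L ls‖ / N) k [] ≤
        2 / lo / N * ((∑ l ∈ Ico 1 H, (1 : ℝ) / l) / H) ^ k / (([] : List ℕ).prod : ℕ) := h1
    _ = 2 / lo / N * ((∑ l ∈ Ico 1 H, (1 : ℝ) / l) / H) ^ k := by simp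
    _ ≤ _ := by gcongr

/-- sums of length at most `X` whose derivative of order `K + 1` is of size between
`X ^ (σ - K - 1)` and `1 / X` have a power saving -/
theorem core (K : ℕ) (hK : 1 ≤ K) (σ c₁ c₂ : ℝ) (hσ : 0 < σ) (hσ1 : σ ≤ 1) (hc₁ : 0 < c₁)
    (hc₂ : 0 < c₂) : ∃ X₀ : ℝ, ∀ X : ℕ, X₀ ≤ X → ∀ lam : ℝ, (X : ℝ) ^ (σ - K - 1) ≤ lam →
    lam ≤ (X : ℝ) ^ (-1 : ℝ) → ∀ (A B : ℝ) (φ : ℕ → ℝ → ℝ), Hy K A B (c₁ * lam) (c₂ * lam) φ →
    ∀ (u : ℝ) (L : ℕ), L ≤ X → A ≤ u → u + L ≤ B →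
    ‖∑ n ∈ range L, e (φ 0 (u + n))‖ ≤ (X : ℝ) ^ (1 - σ / (4 * K * 2 ^ K)) := by
  have hK0 : (0 : ℝ) < K := by exact_mod_cast hK
  have hK1 : (1 : ℝ) ≤ K := by exact_mod_cast hK
  have hCq := Cq_pos K
  set τ : ℝ := σ / (2 * K) with hτ
  have hτ0 : 0 < τ := by positivity
  have hτK : τ * K = σ / 2 := by rw [hτ]; field_simp
  have hτσ : τ ≤ σ / 2 := by nlinarith
  set D : ℝ := Cq K * (2 + 2 / c₁ * 2 ^ K) with hD
  have hlog : ∀ᶠ x : ℝ in atTop, (1 + Real.log x) ^ K ≤ x ^ (σ / 8) := by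
    have e1 := (isLittleO_log_rpow_atTop (show (0 : ℝ) < σ / (16 * K) by positivity)).def
      (show (0 : ℝ) < 1 by norm_num)
    filter_upwards [e1, eventually_ge_atTop (1 : ℝ),
      (tendsto_rpow_atTop (show (0 : ℝ) < σ / (16 * K) by positivity)).eventually_ge_atTop 2]
      with x h1 h2 h3
    have h4 : 0 ≤ Real.log x := Real.log_nonneg h2
    rw [Real.norm_eq_abs, Real.norm_eq_abs, abs_of_nonneg h4, abs_of_nonneg (by positivity),
      one_mul] at h1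
    have h5 : 1 + Real.log x ≤ x ^ (σ / (8 * K)) := by
      have h6 : x ^ (σ / (8 * K)) = x ^ (σ / (16 * K)) * x ^ (σ / (16 * K)) := by
        rw [← Real.rpow_add (by linarith)]
        congr 1
        field_simp
        ring
      rw [h6]
      nlinarith
    calc (1 + Real.log x) ^ K ≤ (x ^ (σ / (8 * K))) ^ K := pow_le_pow_left₀ (by linarith) h5 K
      _ = x ^ (σ / 8) := by
          rw [← Real.rpow_natCast, ← Real.rpow_mul (by linarith)]
          congr 1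
          field_simp
  obtain ⟨X₁, hX₁⟩ := eventually_atTop.mp (hlog.and ((eventually_ge_atTop (1 : ℝ)).and
    (((tendsto_rpow_atTop hτ0).eventually_ge_atTop 2).and
      (((tendsto_rpow_atTop (show (0 : ℝ) < 1 - σ / 2 by linarith)).eventually_ge_atTop
        (2 * c₂)).and
      ((tendsto_rpow_atTop (show (0 : ℝ) < τ / 4 by linarith)).eventually_ge_atTop D)))))
  refine ⟨X₁, fun X hX lam hlam1 hlam2 A B φ hHy u L hL hu huL => ?_⟩
  obtain ⟨g1, g2, g3, g4, g5⟩ := hX₁ X hX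
  have hX0 : (0 : ℝ) < X := by linarith
  have hXn : 1 ≤ X := by exact_mod_cast g2
  have hlam0 : 0 < lam := lt_of_lt_of_le (Real.rpow_pos_of_pos hX0 _) hlam1
  -- the length of the shifts
  set w : ℝ := lam * (X : ℝ) ^ (1 - σ / 2) with hw
  have hw0 : 0 < w := by positivity
  have hw1 : w ≤ (X : ℝ) ^ (-(σ / 2)) := by
    calc w ≤ (X : ℝ) ^ (-1 : ℝ) * (X : ℝ) ^ (1 - σ / 2) := by rw [hw]; gcongr
      _ = _ := by rw [← Real.rpow_add hX0]; congr 1; ring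
  have hw2 : (X : ℝ) ^ (σ / 2 - K) ≤ w := by
    calc (X : ℝ) ^ (σ / 2 - K) = (X : ℝ) ^ (σ - K - 1) * (X : ℝ) ^ (1 - σ / 2) := by
          rw [← Real.rpow_add hX0]; congr 1; ring
      _ ≤ w := by rw [hw]; gcongr
  set y : ℝ := w ^ (-(1 / (K : ℝ))) with hy
  have hy0 : 0 < y := by positivity
  have hyK : y ^ K = w⁻¹ := by
    rw [hy, ← Real.rpow_natCast, ← Real.rpow_mul hw0.le]
    have : -(1 / (K : ℝ)) * K = -1 := by field_simp
    rw [this, Real.rpow_neg_one]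
  have hy1 : (X : ℝ) ^ τ ≤ y := by
    have h1 : ((X : ℝ) ^ (-(σ / 2))) ^ (-(1 / (K : ℝ))) ≤ y :=
      Real.rpow_le_rpow_of_nonpos hw0 hw1 (by
        have : 0 < 1 / (K : ℝ) := by positivity
        linarith)
    rw [← Real.rpow_mul hX0.le] at h1
    have h2 : -(σ / 2) * -(1 / (K : ℝ)) = τ := by rw [hτ]; field_simp
    rwa [h2] at h1
  have hy2 : y ≤ X := by
    have h1 : y ≤ ((X : ℝ) ^ (σ / 2 - K)) ^ (-(1 / (K : ℝ))) :=
      Real.rpow_le_rpow_of_nonpos (by positivity) hw2 (by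
        have : 0 < 1 / (K : ℝ) := by positivity
        linarith)
    rw [← Real.rpow_mul hX0.le] at h1
    refine h1.trans ?_
    conv_rhs => rw [← Real.rpow_one (X : ℝ)]
    apply Real.rpow_le_rpow_of_exponent_le g2
    have h2 : (σ / 2 - K) * -(1 / (K : ℝ)) = 1 - τ := by rw [hτ]; field_simp; ring
    rw [h2]
    linarith
  set H : ℕ := ⌊y⌋₊ with hH
  have hH1 : (H : ℝ) ≤ y := Nat.floor_le hy0.le
  have hH2 : y < H + 1 := Nat.lt_floor_add_one _
  have hH3 : y / 2 ≤ H := by linarith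
  have hH4 : 1 ≤ H := by
    have : (0 : ℝ) < H := by linarith
    have : 0 < H := by exact_mod_cast this
    omega
  have hHr : (1 : ℝ) ≤ H := by exact_mod_cast hH4
  have hHX : H ≤ X := by
    have : (H : ℝ) ≤ X := hH1.trans hy2
    exact_mod_cast this
  have hHXr : (H : ℝ) ≤ X := by exact_mod_cast hHX
  have hup : 2 * (c₂ * lam * (H : ℝ) ^ K) ≤ 1 := by
    have h1 : (H : ℝ) ^ K ≤ w⁻¹ := by
      rw [← hyK]
      exact pow_le_pow_left₀ (by positivity) hH1 K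
    calc 2 * (c₂ * lam * (H : ℝ) ^ K) ≤ 2 * (c₂ * lam * w⁻¹) := by gcongr
      _ = 2 * c₂ / (X : ℝ) ^ (1 - σ / 2) := by
          rw [hw]
          field_simp
      _ ≤ 1 := by rw [div_le_one (by positivity)]; exact g4
  have hb := exp_boundH (by positivity) (by positivity) hHy u X L H hXn hL hu huL hH4 hHX hup
  -- the right-hand side
  have b1 : 1 / (H : ℝ) ≤ 2 * (X : ℝ) ^ (-(3 * τ / 4)) := by
    have h3 : 1 / (H : ℝ) ≤ 1 / ((X : ℝ) ^ τ / 2) :=
      one_div_le_one_div_of_le (by positivity) (by linarith)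
    have h4 : 1 / ((X : ℝ) ^ τ / 2) = 2 * (X : ℝ) ^ (-τ) := by
      rw [Real.rpow_neg hX0.le]
      field_simp
    have h5 : (X : ℝ) ^ (-τ) ≤ (X : ℝ) ^ (-(3 * τ / 4)) :=
      Real.rpow_le_rpow_of_exponent_le g2 (by linarith)
    linarith
  have b2 : 2 / (c₁ * lam) / X * ((1 + Real.log H) / H) ^ K ≤
      2 / c₁ * 2 ^ K * (X : ℝ) ^ (-(3 * τ / 4)) := by
    have h3 : 1 + Real.log H ≤ 1 + Real.log X := by
      have := Real.log_le_log (by linarith) hHXr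
      linarith
    have h30 : 0 ≤ Real.log (H : ℝ) := Real.log_nonneg hHr
    have h4 : ((1 + Real.log H) / H) ^ K ≤ (X : ℝ) ^ (σ / 8) * (2 ^ K * w) := by
      rw [div_pow]
      have h5 : (1 + Real.log H) ^ K ≤ (X : ℝ) ^ (σ / 8) :=
        (pow_le_pow_left₀ (by linarith) h3 K).trans g1
      have h6 : (2 ^ K * w)⁻¹ ≤ (H : ℝ) ^ K := by
        rw [mul_inv, ← hyK]
        calc (2 ^ K : ℝ)⁻¹ * y ^ K = (y / 2) ^ K := by rw [div_pow]; field_simp
          _ ≤ _ := pow_le_pow_left₀ (by positivity) hH3 K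
      have h7 : 0 < 2 ^ K * w := by positivity
      calc (1 + Real.log H) ^ K / (H : ℝ) ^ K ≤ (X : ℝ) ^ (σ / 8) / (2 ^ K * w)⁻¹ := by
            apply div_le_div₀ (by positivity) h5 (by positivity) h6
        _ = _ := by rw [div_inv_eq_mul]
    calc 2 / (c₁ * lam) / X * ((1 + Real.log H) / H) ^ K ≤
          2 / (c₁ * lam) / X * ((X : ℝ) ^ (σ / 8) * (2 ^ K * w)) := by gcongr
      _ = 2 / c₁ * 2 ^ K * ((X : ℝ) ^ (σ / 8) * (X : ℝ) ^ (1 - σ / 2) * (X : ℝ)⁻¹) := by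
          rw [hw]
          field_simp
      _ = 2 / c₁ * 2 ^ K * (X : ℝ) ^ (σ / 8 + (1 - σ / 2) + (-1)) := by
          rw [Real.rpow_add hX0, Real.rpow_add hX0, Real.rpow_neg_one]
      _ ≤ 2 / c₁ * 2 ^ K * (X : ℝ) ^ (-(3 * τ / 4)) := by
          apply mul_le_mul_of_nonneg_left _ (by positivity)
          apply Real.rpow_le_rpow_of_exponent_le g2
          linarith
  have b3 : (‖∑ n ∈ range L, e (φ 0 (u + n))‖ / X) ^ (2 ^ K) ≤
      ((X : ℝ) ^ (-(σ / (4 * K * 2 ^ K)))) ^ (2 ^ K) := by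
    calc _ ≤ Cq K * (1 / (H : ℝ) + 2 / (c₁ * lam) / X * ((1 + Real.log H) / H) ^ K) := hb
      _ ≤ Cq K * (2 * (X : ℝ) ^ (-(3 * τ / 4)) + 2 / c₁ * 2 ^ K * (X : ℝ) ^ (-(3 * τ / 4))) := by
          gcongr
      _ = D * (X : ℝ) ^ (-(3 * τ / 4)) := by rw [hD]; ring
      _ ≤ (X : ℝ) ^ (τ / 4) * (X : ℝ) ^ (-(3 * τ / 4)) := by gcongr
      _ = (X : ℝ) ^ (-(σ / (4 * K * 2 ^ K)) * ((2 ^ K : ℕ) : ℝ)) := by
          rw [← Real.rpow_add hX0, hτ]
          congr 1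
          push_cast
          field_simp
          ring
      _ = _ := by rw [Real.rpow_mul hX0.le, Real.rpow_natCast]
  have b4 : ‖∑ n ∈ range L, e (φ 0 (u + n))‖ / X ≤ (X : ℝ) ^ (-(σ / (4 * K * 2 ^ K))) :=
    (pow_le_pow_iff_left₀ (by positivity) (by positivity) (by positivity)).mp b3
  rw [div_le_iff₀ hX0] at b4
  refine b4.trans (le_of_eq ?_)
  rw [sub_eq_add_neg, Real.rpow_add hX0, Real.rpow_one]
  ring

end Pool.Agent.Y961.JR
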