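import Pool.Agent.Y961.JR.Bounds
import Pool.Agent.Y961.JR.Crit

set_option autoImplicit false

/-! # The joint criterion in terms of exponential sums -/

namespace Pool.Agent.Y961.JR

open Finset Filter
open Pool.Agent.H469R2.NK (e norm_e e_add)
open Pool.Agent.H256R2.SC (ff)

lemma ev_small : ∀ᶠ X : ℝ in atTop, (Real.log X) ^ 2 ≤ X / 2 ∧ X ^ (1 / 10 : ℝ) < X / 2 := by
  have e3 : ∀ᶠ X : ℝ in atTop, (Real.log X) ^ 2 ≤ X / 2 := Pool.Agent.H256R2.SC.ev_log_sq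
  have := (tendsto_rpow_atTop (show (0 : ℝ) < 9 / 10 by norm_num)).eventually_gt_atTop 2
  filter_upwards [e3, this, eventually_ge_atTop (1 : ℝ)] with X h3 hX hX1
  refine ⟨h3, ?_⟩
  have h0 : 0 < X := by linarith
  have h2 : X = X ^ (9 / 10 : ℝ) * X ^ (1 / 10 : ℝ) := by
    rw [← Real.rpow_add h0]; norm_num
  have h3 : 0 < X ^ (1 / 10 : ℝ) := Real.rpow_pos_of_pos h0 _
  have h4 : 2 * X ^ (1 / 10 : ℝ) < X ^ (9 / 10 : ℝ) * X ^ (1 / 10 : ℝ) :=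
    mul_lt_mul_of_pos_right hX h3
  rw [← h2] at h4
  linarith

lemma no_prime (κ X : ℝ) (h1 : κ * ff X + 1 ≤ (Real.log X) ^ 2) (h2 : (Real.log X) ^ 2 ≤ X / 2)
    (h3 : X ^ (1 / 10 : ℝ) < X / 2) (a : ℝ) (ha : X ≤ a)
    (h : ∀ m : ℤ, |(m : ℝ) - ⌊a⌋| ≤ κ * ff X + 1 →
      ∃ p : ℕ, p.Prime ∧ (p : ℝ) ≤ X ^ (1 / 10 : ℝ) ∧ (p : ℤ) ∣ m) (q : ℕ) (hq : q.Prime) :
    κ * ff X < |(q : ℝ) - a| := by
  by_contra hcon
  push Not at hcon
  have h5 : |((q : ℤ) : ℝ) - ⌊a⌋| ≤ κ * ff X + 1 := by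
    have h6 := Int.fract_nonneg a
    have h7 := Int.fract_lt_one a
    have h8 : (⌊a⌋ : ℝ) + Int.fract a = a := Int.floor_add_fract _
    have h9 := abs_le.mp hcon
    push_cast
    rw [abs_le]
    constructor <;> linarith [h9.1, h9.2]
  obtain ⟨p, hp, hpX, hpd⟩ := h q h5
  have h6 : p = q := (Nat.prime_dvd_prime_iff_eq hp hq).mp (by exact_mod_cast hpd)
  rw [h6] at hpX
  have h8 := abs_le.mp hcon
  linarith [h8.1]

/-- the joint criterion for vectors of real numbers -/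
theorem crit_expJ (r : ℕ) (hr : 1 ≤ r) : ∃ κ : ℝ, 0 < κ ∧ ∃ X₀ : ℝ, ∀ X : ℝ, X₀ ≤ X →
    ∀ (ι : Type) (s : Finset ι) (a : ι → Fin r → ℝ), s.Nonempty → (∀ i ∈ s, ∀ j, X ≤ a i j) →
    (∀ q : ℕ, 1 ≤ q → (q : ℝ) ≤ X ^ (2 / 5 : ℝ) → ∀ h : Fin r → ℤ, h ≠ 0 →
      (∀ j, |(h j : ℝ)| ≤ X ^ (10 * r)) →
      ‖∑ i ∈ s, e (∑ j, (h j : ℝ) * (a i j / q))‖ ≤ s.card * X ^ (-(20 * (r : ℝ) ^ 2))) →
    ∃ i ∈ s, ∀ j, ∀ q : ℕ, q.Prime → κ * ff X < |(q : ℝ) - a i j| := by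
  obtain ⟨κ, hκ, X₁, h1⟩ := critJ r hr
  obtain ⟨X₂, h2⟩ := eventually_atTop.mp (ev_bounds r r hr le_rfl)
  obtain ⟨X₃, h3⟩ := eventually_atTop.mp ev_small
  refine ⟨κ, hκ, max X₁ (max X₂ X₃), ?_⟩
  intro X hX ι s a hs ha hE
  obtain ⟨b1, b2⟩ := h2 X (((le_max_left _ _).trans (le_max_right _ _)).trans hX)
  obtain ⟨c1, c2⟩ := h3 X (((le_max_right _ _).trans (le_max_right _ _)).trans hX)
  obtain ⟨hfl, hcr⟩ := h1 X ((le_max_left _ _).trans hX)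
  have hX0 : 0 < X := by linarith
  obtain ⟨i, hi, hi2⟩ := hcr ι s (fun i j => ⌊a i j⌋) hs (by
    intro q hq hqX ρ
    obtain ⟨k1, k2, k3, k4⟩ := b2 q hq hqX s.card (Nat.cast_nonneg _)
    have hd := discJ hr s a ⌈X ^ (3 * r)⌉₊ q k1 hq k2 (s.card * X ^ (-(20 * (r : ℝ) ^ 2)))
      (by positivity) (fun h hh hh2 => hE q hq hqX h hh (fun j => by
        have h5 : ((h j).natAbs : ℝ) < ((⌈X ^ (3 * r)⌉₊ : ℕ) : ℝ) ^ 3 := by exact_mod_cast hh2 j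
        have h6 : |(h j : ℝ)| = ((h j).natAbs : ℝ) := by
          rw [Nat.cast_natAbs]; push_cast; rfl
        rw [h6]
        exact h5.le.trans k3)) ρ
    refine hd.trans (k4.trans ?_)
    have : 0 ≤ (s.card : ℝ) * X ^ (-(2 * (r : ℝ))) := by positivity
    linarith)
  exact ⟨i, hi, fun j q hq => no_prime κ X hfl c1 c2 (a i j) (ha i hi j) (hi2 j) q hq⟩

/-- the joint criterion for vectors of real numbers together with an integer -/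
theorem crit_exp1J (r : ℕ) (hr : 1 ≤ r) : ∃ κ : ℝ, 0 < κ ∧ ∃ X₀ : ℝ, ∀ X : ℝ, X₀ ≤ X →
    ∀ (ι : Type) (s : Finset ι) (u : ι → ℤ) (a : ι → Fin r → ℝ), s.Nonempty →
    (∀ i ∈ s, X ≤ (u i : ℝ)) → (∀ i ∈ s, ∀ j, X ≤ a i j) →
    (∀ q : ℕ, 1 ≤ q → (q : ℝ) ≤ X ^ (2 / 5 : ℝ) → ∀ b : ℤ,
      |((s.filter (fun i => (q : ℤ) ∣ u i - b)).card : ℝ) - s.card / q| ≤
        s.card * X ^ (-(20 * ((r : ℝ) + 1) ^ 2)) ∧
      ∀ h : Fin r → ℤ, h ≠ 0 → (∀ j, |(h j : ℝ)| ≤ X ^ (10 * (r + 1))) →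
      ‖∑ i ∈ s.filter (fun i => (q : ℤ) ∣ u i - b), e (∑ j, (h j : ℝ) * (a i j / q))‖ ≤
        s.card * X ^ (-(20 * ((r : ℝ) + 1) ^ 2))) →
    ∃ i ∈ s, (∀ q : ℕ, q.Prime → κ * ff X < |(q : ℝ) - u i|) ∧
      ∀ j, ∀ q : ℕ, q.Prime → κ * ff X < |(q : ℝ) - a i j| := by
  obtain ⟨κ, hκ, X₁, h1⟩ := critJ (r + 1) (by omega)
  obtain ⟨X₂, h2⟩ := eventually_atTop.mp (ev_bounds r (r + 1) hr (by omega))
  obtain ⟨X₃, h3⟩ := eventually_atTop.mp ev_small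
  refine ⟨κ, hκ, max X₁ (max X₂ X₃), ?_⟩
  intro X hX ι s u a hs hu ha hE
  obtain ⟨b1, b2⟩ := h2 X (((le_max_left _ _).trans (le_max_right _ _)).trans hX)
  obtain ⟨c1, c2⟩ := h3 X (((le_max_right _ _).trans (le_max_right _ _)).trans hX)
  obtain ⟨hfl, hcr⟩ := h1 X ((le_max_left _ _).trans hX)
  have hX0 : 0 < X := by linarith
  have hcast : (((r + 1 : ℕ) : ℝ)) = (r : ℝ) + 1 := by push_cast; rfl
  obtain ⟨i, hi, hi2⟩ := hcr ι s (fun i => Fin.cons (u i) (fun j => ⌊a i j⌋)) hs (by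
    intro q hq hqX ρ
    have hq0 : (0 : ℝ) < q := by exact_mod_cast hq
    have hq1 : (1 : ℝ) ≤ q := by exact_mod_cast hq
    obtain ⟨k1, k2, k3, k4⟩ := b2 q hq hqX s.card (Nat.cast_nonneg _)
    obtain ⟨g1, g2⟩ := hE q hq hqX (ρ 0)
    set s' := s.filter (fun i => (q : ℤ) ∣ u i - ρ 0) with hs'
    rw [hcast] at k4
    have hd := discJ hr s' a ⌈X ^ (3 * (r + 1))⌉₊ q k1 hq k2
      (s.card * X ^ (-(20 * ((r : ℝ) + 1) ^ 2)))
      (by positivity) (fun h hh hh2 => g2 h hh (fun j => by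
        have h5 : ((h j).natAbs : ℝ) < ((⌈X ^ (3 * (r + 1))⌉₊ : ℕ) : ℝ) ^ 3 := by
          exact_mod_cast hh2 j
        have h6 : |(h j : ℝ)| = ((h j).natAbs : ℝ) := by
          rw [Nat.cast_natAbs]; push_cast; rfl
        rw [h6]
        exact h5.le.trans k3)) (fun j => ρ j.succ)
    have hfil : (s.filter (fun i => ∀ j, (q : ℤ) ∣
        (Fin.cons (u i) (fun j => ⌊a i j⌋) : Fin (r + 1) → ℤ) j - ρ j)) =
        s'.filter (fun i => ∀ j : Fin r, (q : ℤ) ∣ ⌊a i j⌋ - ρ j.succ) := by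
      rw [hs', Finset.filter_filter]
      apply Finset.filter_congr
      intro i _
      rw [Fin.forall_fin_succ]
      simp only [Fin.cons_zero, Fin.cons_succ]
    rw [hfil]
    have hcard : (s'.card : ℝ) ≤ s.card := by
      exact_mod_cast Finset.card_filter_le _ _
    have t1 : (q : ℝ) ^ r * ((3 * (r : ℝ) + 4) * s'.card / (⌈X ^ (3 * (r + 1))⌉₊ : ℕ) +
        ((⌈X ^ (3 * (r + 1))⌉₊ : ℕ) : ℝ) ^ (3 * r) *
          (s.card * X ^ (-(20 * ((r : ℝ) + 1) ^ 2)))) ≤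
        s.card * X ^ (-(2 * ((r : ℝ) + 1))) / 2 := by
      refine le_trans ?_ k4
      gcongr
    have t2 : |(s'.card : ℝ) / (q : ℝ) ^ r - s.card / (q : ℝ) ^ (r + 1)| ≤
        s.card * X ^ (-(2 * ((r : ℝ) + 1))) / 2 := by
      have e1 : (s'.card : ℝ) / (q : ℝ) ^ r - s.card / (q : ℝ) ^ (r + 1) =
          (s'.card - s.card / q) / (q : ℝ) ^ r := by
        rw [pow_succ]
        field_simp
      have hqr : 1 ≤ (q : ℝ) ^ r := one_le_pow₀ hq1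
      rw [e1, abs_div, abs_of_pos (show (0 : ℝ) < (q : ℝ) ^ r by positivity)]
      refine (div_le_self (abs_nonneg _) hqr).trans (g1.trans ?_)
      rw [mul_div_assoc]
      apply mul_le_mul_of_nonneg_left _ (Nat.cast_nonneg _)
      have hr1 : (1 : ℝ) ≤ r := by exact_mod_cast hr
      calc X ^ (-(20 * ((r : ℝ) + 1) ^ 2)) ≤ X ^ (-(2 * ((r : ℝ) + 1)) + (-1)) := by
            apply Real.rpow_le_rpow_of_exponent_le (by linarith)
            nlinarith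
        _ = X ^ (-(2 * ((r : ℝ) + 1))) * X ^ (-1 : ℝ) := Real.rpow_add hX0 _ _
        _ ≤ X ^ (-(2 * ((r : ℝ) + 1))) * (1 / 2) := by
            apply mul_le_mul_of_nonneg_left _ (Real.rpow_nonneg hX0.le _)
            rw [Real.rpow_neg_one, ← one_div]
            exact one_div_le_one_div_of_le (by norm_num) (by linarith)
        _ = _ := by ring
    rw [hcast]
    have t3 := hd.trans t1
    have t4 := abs_le.mp t3
    have t5 := abs_le.mp t2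
    rw [abs_le]
    constructor <;> linarith [t4.1, t4.2, t5.1, t5.2])
  refine ⟨i, hi, ?_, ?_⟩
  · intro q hq
    apply no_prime κ X hfl c1 c2 (u i) (hu i hi) _ q hq
    intro m hm
    rw [Int.floor_intCast] at hm
    exact hi2 0 m (by simpa using hm)
  · intro j q hq
    apply no_prime κ X hfl c1 c2 (a i j) (ha i hi j) _ q hq
    intro m hm
    exact hi2 j.succ m (by simpa using hm)

end Pool.Agent.Y961.JR
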