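import Pool.Agent.Y961.JR.LinearFix
import Pool.Agent.TH629.ExpAlg

set_option autoImplicit false

/-! # Record prime gaps around multiples by algebraic numbers and powers of `e` -/

namespace Pool.Agent.Y961.JR

open Finset Filter Module
open Pool.Agent.W147.PS (ff)
open Pool.Agent.W472.AC (Meas)

/-- from a measure of linear independence with `1` to a Diophantine condition modulo one -/
theorem dioph_of_meas {r : ℕ} (α : Fin r → ℝ) (w c₀ : ℝ) (hw : 0 ≤ w) (hc₀ : 0 < c₀)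
    (hM : Meas (Fin.cons 1 α : Fin (r + 1) → ℝ) w c₀) :
    ∃ c : ℝ, 0 < c ∧ ∀ (H : ℕ) (h : Fin r → ℤ), h ≠ 0 → (∀ j, |h j| ≤ H) → ∀ m : ℤ,
      c * (H : ℝ) ^ (-w) ≤ |∑ j, (h j : ℝ) * α j - m| := by
  set C : ℝ := 1 + ∑ j, |α j| with hC
  have hC1 : 1 ≤ C := by
    have : 0 ≤ ∑ j, |α j| := Finset.sum_nonneg fun _ _ => abs_nonneg _
    linarith
  have hC0 : 0 < C := by linarith
  have hCw : 0 < C ^ w := Real.rpow_pos_of_pos hC0 _
  refine ⟨min 1 (c₀ / C ^ w), lt_min one_pos (by positivity), ?_⟩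
  intro H h hh hH m
  have hj : ∃ j, h j ≠ 0 := by
    by_contra hcon
    push Not at hcon
    exact hh (funext hcon)
  obtain ⟨j, hj⟩ := hj
  have hH1 : 1 ≤ H := by
    have h1 := Int.one_le_abs hj
    have h2 := hH j
    omega
  have hH1' : (1 : ℝ) ≤ H := by exact_mod_cast hH1
  have hH0 : (0 : ℝ) < H := by linarith
  have hHw1 : (H : ℝ) ^ (-w) ≤ 1 := by
    calc (H : ℝ) ^ (-w) ≤ (H : ℝ) ^ (0 : ℝ) :=
          Real.rpow_le_rpow_of_exponent_le hH1' (by linarith)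
      _ = 1 := Real.rpow_zero _
  have hHw0 : 0 < (H : ℝ) ^ (-w) := Real.rpow_pos_of_pos hH0 _
  rcases le_or_gt 1 |∑ j, (h j : ℝ) * α j - m| with h1 | h1
  · calc min 1 (c₀ / C ^ w) * (H : ℝ) ^ (-w) ≤ 1 * 1 := by
          apply mul_le_mul (min_le_left _ _) hHw1 hHw0.le zero_le_one
      _ = 1 := one_mul 1
      _ ≤ _ := h1
  · have hsum : |∑ j, (h j : ℝ) * α j| ≤ H * ∑ j, |α j| := by
      refine (Finset.abs_sum_le_sum_abs _ _).trans ?_
      rw [Finset.mul_sum]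
      apply Finset.sum_le_sum
      intro j _
      rw [abs_mul]
      apply mul_le_mul_of_nonneg_right _ (abs_nonneg _)
      exact_mod_cast hH j
    have hm : |(m : ℝ)| ≤ H * C := by
      have h2 : |(m : ℝ)| ≤ |∑ j, (h j : ℝ) * α j| + |∑ j, (h j : ℝ) * α j - m| := by
        have e1 : (m : ℝ) = ∑ j, (h j : ℝ) * α j - (∑ j, (h j : ℝ) * α j - m) := by ring
        calc |(m : ℝ)| = |∑ j, (h j : ℝ) * α j - (∑ j, (h j : ℝ) * α j - m)| := by rw [← e1]
          _ ≤ _ := abs_sub _ _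
      rw [hC, mul_add, mul_one]
      linarith
    have hsum0 : 0 ≤ ∑ j, |α j| := Finset.sum_nonneg fun _ _ => abs_nonneg _
    have h3 := hM (Fin.cons (-m) h : Fin (r + 1) → ℤ) (by
      intro h0
      apply hh
      funext i
      have := congrFun h0 i.succ
      simpa using this) (H * C) (by nlinarith) (by
      intro i
      refine Fin.cases ?_ (fun i => ?_) i
      · simp only [Fin.cons_zero]
        push_cast
        rw [abs_neg]
        exact hm
      · simp only [Fin.cons_succ]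
        have h4 : |(h i : ℝ)| ≤ H := by exact_mod_cast hH i
        nlinarith)
    rw [Fin.sum_univ_succ] at h3
    simp only [Fin.cons_zero, Fin.cons_succ, mul_one] at h3
    have e2 : ((-m : ℤ) : ℝ) + ∑ i, (h i : ℝ) * α i = ∑ j, (h j : ℝ) * α j - m := by
      push_cast
      ring
    rw [e2, Real.mul_rpow hH0.le hC0.le] at h3
    have hHw : 0 < (H : ℝ) ^ w := Real.rpow_pos_of_pos hH0 _
    calc min 1 (c₀ / C ^ w) * (H : ℝ) ^ (-w) ≤ (c₀ / C ^ w) * (H : ℝ) ^ (-w) :=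
          mul_le_mul_of_nonneg_right (min_le_right _ _) hHw0.le
      _ = c₀ / ((H : ℝ) ^ w * C ^ w) := by
        rw [Real.rpow_neg hH0.le]
        field_simp
      _ ≤ _ := by
        rw [div_le_iff₀ (by positivity), mul_comm]
        exact h3

/-- multiples by numbers `b e ^ w` with `b` in a real number field -/
theorem linear_exp (K : IntermediateField ℚ ℝ) [FiniteDimensional ℚ K] (r : ℕ) (hr : 1 ≤ r)
    (b : Fin r → K) (w : Fin r → ℕ) (hb : ∀ j, 0 < ((b j : K) : ℝ))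
    (hli : LinearIndependent ℚ
      (Fin.cons 1 (fun j => (b j : ℝ) * Real.exp (w j)) : Fin (r + 1) → ℝ)) :
    ∃ κ : ℝ, 0 < κ ∧ ∀ β : Fin r → ℝ, ∃ Z₀ : ℝ, ∀ Z : ℝ, Z₀ ≤ Z → ∀ M : ℝ, Z ≤ M →
    ∃ n : ℕ, M < n ∧ (n : ℝ) ≤ M + Z ∧ (∀ q : ℕ, q.Prime → κ * ff Z < |(q : ℝ) - n|) ∧
      ∀ j, ∀ q : ℕ, q.Prime → κ * ff Z < |(q : ℝ) - ((b j : ℝ) * Real.exp (w j) * n + β j)| := by
  set R : ℕ := ∑ j, w j with hR
  have hfun : (fun j : Fin (r + 1) => (((Fin.cons 1 b : Fin (r + 1) → K) j : K) : ℝ) *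
      Real.exp (((Fin.cons 0 w : Fin (r + 1) → ℕ) j : ℕ) : ℝ)) =
      (Fin.cons 1 (fun j => (b j : ℝ) * Real.exp (w j)) : Fin (r + 1) → ℝ) := by
    funext j
    refine Fin.cases ?_ (fun j => ?_) j
    · simp
    · simp
  obtain ⟨c₀, hc₀, hMeas⟩ := Pool.Agent.TH629.ExpAlg.meas_exp_field K
    (Fin.cons 1 b : Fin (r + 1) → K) (Fin.cons 0 w : Fin (r + 1) → ℕ) R (by
      intro j
      refine Fin.cases ?_ (fun j => ?_) j
      · simp
      · simp only [Fin.cons_succ]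
        exact Finset.single_le_sum (fun _ _ => Nat.zero_le _) (Finset.mem_univ j))
    (by rw [hfun]; exact hli) 1 one_pos
  rw [hfun] at hMeas
  set τ : ℝ := (finrank ℚ K : ℝ) * (finrank ℚ K * R + 1) - 1 + 1 with hτ
  have hτ0 : 0 ≤ τ := by
    rw [hτ, sub_add_cancel]
    positivity
  have hdio := dioph_of_meas (fun j => (b j : ℝ) * Real.exp (w j)) τ c₀ hτ0 hc₀ hMeas
  obtain ⟨κ, hκ, h⟩ := linear_dioph r hr τ hτ0
  exact ⟨κ, hκ, fun β => h (fun j => (b j : ℝ) * Real.exp (w j)) β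
    (fun j => mul_pos (hb j) (Real.exp_pos _)) hdio⟩

end Pool.Agent.Y961.JR
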