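import Pool.Agent.Y961.JR.PolyMainJ
import Pool.Agent.TH629.ExpAlg

set_option autoImplicit false

/-! # Integer combinations of algebraic numbers are not very close to integers -/

namespace Pool.Agent.Y961.JR

open Finset Filter Module
open Pool.Agent.W147.PS (ff)
open Pool.Agent.W472.AC (Meas)

theorem field_lower (K : IntermediateField ℚ ℝ) [FiniteDimensional ℚ K] {ι : Type} [Fintype ι]
    (α : ι → K) : ∃ c τ : ℝ, 0 < c ∧ 0 ≤ τ ∧ ∀ (H : ℕ) (h : ι → ℤ), (∀ i, |h i| ≤ H) → ∀ m : ℤ,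
      ∑ i, (h i : ℝ) * ((α i : K) : ℝ) - m ≠ 0 →
      c * (H : ℝ) ^ (-τ) ≤ |∑ i, (h i : ℝ) * ((α i : K) : ℝ) - m| := by
  classical
  obtain ⟨n, hn⟩ : ∃ n, finrank ℚ K = n + 1 := ⟨finrank ℚ K - 1, by
    have : 0 < finrank ℚ K := finrank_pos
    omega⟩
  let B : Basis (Fin (n + 1)) ℚ K := Module.finBasisOfFinrankEq ℚ K hn
  have hli : LinearIndependent ℚ fun j => ((B j : K) : ℝ) * Real.exp (((0 : ℕ) : ℕ) : ℝ) := by
    have h1 := B.linearIndependent.map' (K.val.toLinearMap) (LinearMap.ker_eq_bot.mpr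
      (fun x y h => Subtype.ext h))
    have hfun : (fun j => ((B j : K) : ℝ) * Real.exp (((0 : ℕ) : ℕ) : ℝ)) =
        K.val.toLinearMap ∘ B := by
      funext j
      simp
    rw [hfun]
    exact h1
  obtain ⟨c₀, hc₀, hMeas⟩ := Pool.Agent.TH629.ExpAlg.meas_exp_field K (fun j => B j)
    (fun _ => 0) 0 (fun _ => le_rfl) hli 1 one_pos
  set w : ℝ := (finrank ℚ K : ℝ) * (finrank ℚ K * ((0 : ℕ) : ℝ) + 1) - 1 + 1 with hw
  have hw0 : 0 ≤ w := by
    rw [hw, sub_add_cancel]
    positivity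
  obtain ⟨D, hD, z, hz⟩ := Pool.Agent.TH629.ExpAlg.common_den
    (fun p : Option ι × Fin (n + 1) => B.repr (p.1.elim (1 : K) α) p.2)
  have hD0 : (0 : ℝ) < D := by exact_mod_cast hD
  have hcomb : ∀ o : Option ι, (D : ℝ) * (((o.elim (1 : K) α : K)) : ℝ) =
      ∑ l, (z (o, l) : ℝ) * ((B l : K) : ℝ) := by
    intro o
    have h1 : ((D : ℕ) : K) * (o.elim (1 : K) α) = ∑ l, ((z (o, l) : ℤ) : K) * B l := by
      conv_lhs => rw [← B.sum_repr (o.elim (1 : K) α)]
      rw [Finset.mul_sum]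
      apply Finset.sum_congr rfl
      intro l _
      have h3 := hz (o, l)
      rw [Algebra.smul_def, ← mul_assoc]
      congr 1
      have h4 : ((z (o, l) : ℤ) : K) = algebraMap ℚ K ((z (o, l) : ℤ) : ℚ) := by simp
      rw [h4, h3, map_mul, map_natCast]
    have h2 := congrArg (algebraMap K ℝ) h1
    rw [map_mul, map_sum] at h2
    simp only [map_mul, map_natCast, map_intCast] at h2
    exact h2
  set Sz : ℝ := ∑ p : Option ι × Fin (n + 1), |(z p : ℝ)| with hSz
  have hSz0 : 0 ≤ Sz := Finset.sum_nonneg fun _ _ => abs_nonneg _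
  have hzS : ∀ p, |(z p : ℝ)| ≤ Sz := fun p =>
    Finset.single_le_sum (f := fun p => |(z p : ℝ)|) (fun _ _ => abs_nonneg _) (Finset.mem_univ p)
  set Sα : ℝ := ∑ i, |((α i : K) : ℝ)| with hSα
  have hSα0 : 0 ≤ Sα := Finset.sum_nonneg fun _ _ => abs_nonneg _
  set C : ℝ := (Fintype.card ι : ℝ) * Sz + (Sα + 1) * Sz + 1 with hC
  have hcι : (0 : ℝ) ≤ Fintype.card ι := Nat.cast_nonneg _
  have hC1 : 1 ≤ C := by
    have h1 : 0 ≤ (Fintype.card ι : ℝ) * Sz := mul_nonneg hcι hSz0
    have h2 : 0 ≤ (Sα + 1) * Sz := mul_nonneg (by linarith) hSz0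
    linarith
  have hC0 : 0 < C := by linarith
  have hCw : 0 < C ^ w := Real.rpow_pos_of_pos hC0 _
  refine ⟨min 1 (c₀ / (D * C ^ w)), w, lt_min one_pos (by positivity), hw0, ?_⟩
  intro H h hH m hne
  set x : ℝ := ∑ i, (h i : ℝ) * ((α i : K) : ℝ) with hx
  have hxH : |x| ≤ H * Sα := by
    rw [hx, hSα, Finset.mul_sum]
    refine (Finset.abs_sum_le_sum_abs _ _).trans (Finset.sum_le_sum fun i _ => ?_)
    rw [abs_mul]
    apply mul_le_mul_of_nonneg_right _ (abs_nonneg _)
    exact_mod_cast hH i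
  have hHw1 : (H : ℝ) ^ (-w) ≤ 1 := by
    rcases Nat.eq_zero_or_pos H with h0 | h0
    · rw [h0, Nat.cast_zero]
      exact Real.zero_rpow_le_one _
    · have : (1 : ℝ) ≤ H := by exact_mod_cast h0
      calc (H : ℝ) ^ (-w) ≤ (H : ℝ) ^ (0 : ℝ) :=
            Real.rpow_le_rpow_of_exponent_le this (by linarith)
        _ = 1 := Real.rpow_zero _
  have hHw0 : 0 ≤ (H : ℝ) ^ (-w) := Real.rpow_nonneg (Nat.cast_nonneg _) _
  rcases le_or_gt 1 |x - m| with h1 | h1
  · calc min 1 (c₀ / (D * C ^ w)) * (H : ℝ) ^ (-w) ≤ 1 * 1 := by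
          apply mul_le_mul (min_le_left _ _) hHw1 hHw0 zero_le_one
      _ = 1 := one_mul 1
      _ ≤ _ := h1
  · -- here `H ≥ 1`
    have hH1 : 1 ≤ H := by
      by_contra hcon
      have h0 : H = 0 := by omega
      rw [h0, Nat.cast_zero, zero_mul] at hxH
      have hx0 : x = 0 := abs_eq_zero.mp (le_antisymm hxH (abs_nonneg _))
      rw [hx0, zero_sub, abs_neg] at h1
      have h2 : |m| < 1 := by exact_mod_cast h1
      have h3 : m = 0 := Int.abs_lt_one_iff.mp h2
      apply hne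
      rw [hx0, h3]
      simp
    have hH1' : (1 : ℝ) ≤ H := by exact_mod_cast hH1
    have hH0 : (0 : ℝ) < H := by linarith
    have hm : |(m : ℝ)| ≤ H * (Sα + 1) := by
      have e1 : (m : ℝ) = x - (x - m) := by ring
      have h2 : |(m : ℝ)| ≤ |x| + |x - m| := by
        calc |(m : ℝ)| = |x - (x - m)| := by rw [← e1]
          _ ≤ _ := abs_sub _ _
      nlinarith
    set v : Fin (n + 1) → ℤ := fun l => ∑ i, h i * z (some i, l) - m * z (none, l) with hv
    have hsum : ∑ l, (v l : ℝ) * ((B l : K) : ℝ) = D * (x - m) := by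
      have h2 : ∑ l, (v l : ℝ) * ((B l : K) : ℝ) =
          ∑ i, (h i : ℝ) * ∑ l, (z (some i, l) : ℝ) * ((B l : K) : ℝ) -
            m * ∑ l, (z (none, l) : ℝ) * ((B l : K) : ℝ) := by
        rw [hv]
        push_cast
        simp only [sub_mul, Finset.sum_sub_distrib, Finset.sum_mul, Finset.mul_sum]
        rw [Finset.sum_comm]
        congr 1
        · exact Finset.sum_congr rfl fun i _ => Finset.sum_congr rfl fun l _ => by ring
        · exact Finset.sum_congr rfl fun l _ => by ring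
      rw [h2, ← hcomb none]
      have h3 : ∀ i, ∑ l, (z (some i, l) : ℝ) * ((B l : K) : ℝ) = D * ((α i : K) : ℝ) :=
        fun i => (hcomb (some i)).symm
      simp only [h3, Option.elim_none, hx]
      rw [mul_sub, Finset.mul_sum]
      congr 1
      · exact Finset.sum_congr rfl fun i _ => by ring
      · push_cast
        ring
    have hvne : v ≠ 0 := by
      intro h0
      have h2 : D * (x - m) = 0 := by
        rw [← hsum, h0]
        simp
      exact hne ((mul_eq_zero.mp h2).resolve_left hD0.ne')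
    have hvb : ∀ l, |(v l : ℝ)| ≤ H * C := by
      intro l
      rw [hv]
      push_cast
      have h2 : |∑ i, (h i : ℝ) * (z (some i, l) : ℝ)| ≤ H * ((Fintype.card ι : ℝ) * Sz) := by
        calc |∑ i, (h i : ℝ) * (z (some i, l) : ℝ)| ≤ ∑ i, |(h i : ℝ) * (z (some i, l) : ℝ)| :=
              Finset.abs_sum_le_sum_abs _ _
          _ ≤ ∑ _i : ι, (H : ℝ) * Sz := by
              apply Finset.sum_le_sum
              intro i _
              rw [abs_mul]
              apply mul_le_mul _ (hzS _) (abs_nonneg _) hH0.le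
              exact_mod_cast hH i
          _ = _ := by
              rw [Finset.sum_const, Finset.card_univ, nsmul_eq_mul]
              ring
      have h3 : |(m : ℝ) * (z (none, l) : ℝ)| ≤ H * (Sα + 1) * Sz := by
        rw [abs_mul]
        exact mul_le_mul hm (hzS _) (abs_nonneg _) (by positivity)
      calc _ ≤ _ := abs_sub _ _
        _ ≤ H * ((Fintype.card ι : ℝ) * Sz) + H * (Sα + 1) * Sz := add_le_add h2 h3
        _ ≤ H * C := by
            rw [hC]
            nlinarith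
    have h3 := hMeas v hvne (H * C) (by nlinarith) hvb
    have h4 : (fun j => ((B j : K) : ℝ) * Real.exp (((0 : ℕ) : ℕ) : ℝ)) =
        fun j => ((B j : K) : ℝ) := by
      funext j
      simp
    have h5 : ∑ j, (v j : ℝ) * (((B j : K) : ℝ) * Real.exp (((0 : ℕ) : ℕ) : ℝ)) = D * (x - m) := by
      rw [← hsum]
      apply Finset.sum_congr rfl
      intro j _
      simp
    rw [h5, Real.mul_rpow hH0.le hC0.le, abs_mul, abs_of_pos hD0] at h3
    have hHw : 0 < (H : ℝ) ^ w := Real.rpow_pos_of_pos hH0 _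
    calc min 1 (c₀ / (D * C ^ w)) * (H : ℝ) ^ (-w) ≤ (c₀ / (D * C ^ w)) * (H : ℝ) ^ (-w) :=
          mul_le_mul_of_nonneg_right (min_le_right _ _) hHw0
      _ = c₀ / ((H : ℝ) ^ w * C ^ w * D) := by
        rw [Real.rpow_neg hH0.le]
        field_simp
      _ ≤ _ := by
        rw [div_le_iff₀ (by positivity)]
        calc c₀ ≤ _ := h3
          _ = _ := by ring

/-- polynomials with coefficients in a real number field -/
theorem polys_field (K : IntermediateField ℚ ℝ) [FiniteDimensional ℚ K] (r : ℕ) (hr : 1 ≤ r)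
    (P : Fin r → Polynomial K)
    (hlc : ∀ j, 0 < ((P j).map (algebraMap K ℝ)).leadingCoeff)
    (hind : ∀ h : Fin r → ℤ, h ≠ 0 → ∃ i, 1 ≤ i ∧
      Irrational (∑ j, (h j : ℝ) * ((P j).map (algebraMap K ℝ)).coeff i)) :
    ∃ κ : ℝ, 0 < κ ∧ ∃ Z₀ : ℝ, ∀ Z : ℝ, Z₀ ≤ Z → ∀ M : ℝ, Z ≤ M →
    ∃ n : ℕ, M < n ∧ (n : ℝ) ≤ M + Z ∧ (∀ q : ℕ, q.Prime → κ * ff Z < |(q : ℝ) - n|) ∧
      ∀ j, ∀ q : ℕ, q.Prime →
        κ * ff Z < |(q : ℝ) - ((P j).map (algebraMap K ℝ)).eval (n : ℝ)| := by
  classical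
  set D : ℕ := Finset.univ.sup (fun j => (P j).natDegree) with hD
  have hDj : ∀ j, (P j).natDegree ≤ D := fun j =>
    Finset.le_sup (f := fun j => (P j).natDegree) (Finset.mem_univ j)
  obtain ⟨c, τ, hc, hτ, hlow⟩ := field_lower K (ι := Fin r × Fin (D + 1))
    (fun p => (P p.1).coeff p.2)
  refine polys_main r hr (fun j => (P j).map (algebraMap K ℝ)) hlc c τ hc hτ ?_ hind
  intro i hi H h hH hirr m
  by_cases hiD : i ≤ D
  · have h1 := hlow H (fun p => if (p.2 : ℕ) = i then h p.1 else 0) (by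
      intro p
      split_ifs
      · exact hH p.1
      · simp) m
    have e1 : ∑ p : Fin r × Fin (D + 1), (((if (p.2 : ℕ) = i then h p.1 else 0 : ℤ)) : ℝ) *
        (((P p.1).coeff p.2 : K) : ℝ) = ∑ j, (h j : ℝ) * ((P j).map (algebraMap K ℝ)).coeff i := by
      rw [Fintype.sum_prod_type]
      apply Finset.sum_congr rfl
      intro j _
      rw [Finset.sum_eq_single (⟨i, by omega⟩ : Fin (D + 1))]
      · simp only [if_true, Polynomial.coeff_map]
        rfl
      · intro l _ hl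
        have : (l : ℕ) ≠ i := fun h => hl (Fin.ext h)
        simp [this]
      · intro h
        exact absurd (Finset.mem_univ _) h
    rw [e1] at h1
    apply h1
    intro h0
    apply hirr
    exact ⟨m, by push_cast; linarith⟩
  · exfalso
    apply hirr
    refine ⟨0, ?_⟩
    have : ∀ j, ((P j).map (algebraMap K ℝ)).coeff i = 0 := by
      intro j
      rw [Polynomial.coeff_map, Polynomial.coeff_eq_zero_of_natDegree_lt (by
        have := hDj j
        omega), map_zero]
    simp [this]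

end Pool.Agent.Y961.JR
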