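import Pool.Agent.Y961.JR.GenP

set_option autoImplicit false

/-! # Exponential sums with integer combinations of generalised polynomials, over progressions -/

namespace Pool.Agent.Y961.JR

open Finset Filter
open Pool.Agent.H469R2.NK (e norm_e e_add norm_sum_neg Cq Cq_pos)
open Pool.Agent.W147.PS (ff ff_compare ev_pow)
open Pool.Agent.TH915.PW (pw pw_der lower_small exp_bound Hy)

variable {r : ℕ} {F : Fin r → Finset ℝ} {a : Fin r → ℝ → ℝ} {c : Fin r → ℝ}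

lemma gg_exp_pos (H : Fam F a c) (j₀ : Fin r) : ∃ η₀ : ℝ, 0 < η₀ ∧ η₀ ≤ 1 / 4 ∧
    ∀ η δ : ℝ, 0 < η → η ≤ η₀ → δ ≤ η₀ → ∀ᶠ M : ℝ in atTop, ∀ h : Fin r → ℤ, 0 < h j₀ →
    (∀ j, c j₀ < c j → h j = 0) → (∀ j, |(h j : ℝ)| ≤ M ^ η) → ∀ q : ℕ, 1 ≤ q → (q : ℝ) ≤ M ^ η →
    ∀ n₀ L N : ℕ, M ≤ n₀ → (n₀ : ℝ) + q * L ≤ 3 * M → L ≤ N → M ^ (1 - δ) / 2 ≤ N →
    ‖∑ m ∈ range L, e (gg F a h 0 (n₀ + q * m) / q)‖ ≤ N * M ^ (-η) := by
  have hC := CC_pos H j₀
  set k : ℕ := ⌊c j₀⌋₊ with hk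
  have hk1 : (k : ℝ) ≤ c j₀ := Nat.floor_le (H.cpos j₀).le
  have hk1' : (k : ℝ) < c j₀ := lt_of_le_of_ne hk1 (H.nonint j₀ k).symm
  have hk2 : c j₀ < k + 1 := Nat.lt_floor_add_one _
  set β : ℝ := c j₀ - k with hβ
  have hβ0 : 0 < β := by linarith
  have hβ1 : β < 1 := by linarith
  set C : ℝ := CC a c j₀ with hCdef
  obtain ⟨η₁, hη₁, h1⟩ := gg_bounds H j₀
  have hk0 : (0 : ℝ) ≤ k := Nat.cast_nonneg k
  set h₀ : ℝ := (1 - β) / (4 * (k + 1)) with hh₀
  have h₀0 : 0 < h₀ := div_pos (by linarith) (by positivity)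
  have h₀k : h₀ * (k + 1) = (1 - β) / 4 := by rw [hh₀]; field_simp
  have h₀1 : h₀ ≤ 1 / 4 := by nlinarith
  set ξ : ℝ := min h₀ (β / 2) with hξ
  have hξ0 : 0 < ξ := lt_min h₀0 (by linarith)
  have hξ1 : ξ ≤ h₀ := min_le_left _ _
  have hξ2 : ξ ≤ β / 2 := min_le_right _ _
  have h2k : (1 : ℝ) ≤ 2 ^ k := one_le_pow₀ (by norm_num)
  set η₂ : ℝ := ξ / 2 ^ (k + 1) with hη₂
  have hη₂0 : 0 < η₂ := by positivity
  have hη₂k : η₂ * 2 ^ k = ξ / 2 := by rw [hη₂, pow_succ]; field_simp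
  have hη₂ξ : η₂ ≤ ξ / 2 := by nlinarith
  refine ⟨min η₁ (min η₂ (1 / 4)), lt_min hη₁ (lt_min hη₂0 (by norm_num)),
    (min_le_right _ _).trans (min_le_right _ _), ?_⟩
  intro η δ hη hηle hδ
  have g1 : η ≤ η₁ := hηle.trans (min_le_left _ _)
  have g2 : η ≤ η₂ := hηle.trans ((min_le_right _ _).trans (min_le_left _ _))
  have g3 : δ ≤ η₂ := hδ.trans ((min_le_right _ _).trans (min_le_left _ _))
  have g4 : δ ≤ 1 / 4 := hδ.trans ((min_le_right _ _).trans (min_le_right _ _))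
  have hCq := Cq_pos k
  filter_upwards [h1, ev_pow h₀ (1 - δ) 2 (by linarith), ev_pow (-((1 - β) / 2)) 0 (4 * C) (by linarith),
    ev_pow (-ξ) (-(ξ / 2)) (Cq k * (2 + 24 / C)) (by linarith),
    (tendsto_rpow_atTop h₀0).eventually_ge_atTop 2, eventually_ge_atTop (1 : ℝ)]
    with M a1 a2 a3 a4 a5 a6
  intro h hpos hz hh q hq hqM n₀ L N hn₀ hL hLN hN
  rw [Real.rpow_zero] at a3
  have hM0 : 0 < M := by linarith
  have hq0 : (0 : ℝ) < q := by exact_mod_cast hq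
  have hq1 : (1 : ℝ) ≤ q := by exact_mod_cast hq
  set Hn : ℕ := ⌊M ^ h₀⌋₊ with hHn
  have hH1 : (Hn : ℝ) ≤ M ^ h₀ := Nat.floor_le (by positivity)
  have hH2 : M ^ h₀ < Hn + 1 := Nat.lt_floor_add_one _
  have hH3 : M ^ h₀ / 2 ≤ Hn := by linarith
  have hH4 : 1 ≤ Hn := by
    have : (0 : ℝ) < Hn := by linarith
    have : 0 < Hn := by exact_mod_cast this
    omega
  have hHN : Hn ≤ N := by
    have : (Hn : ℝ) ≤ N := by linarith
    exact_mod_cast this
  have hN1 : 1 ≤ N := hH4.trans hHN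
  have hN0 : (0 : ℝ) < N := by exact_mod_cast hN1
  set φ : ℕ → ℝ → ℝ := fun m s => (q : ℝ) ^ m * gg F a h m (q * s) with hφ
  set lo : ℝ := (q : ℝ) ^ (k + 1) * (C / 6 * M ^ (β - 1)) with hlo
  set hi : ℝ := (q : ℝ) ^ (k + 1) * (2 * C * M ^ (η + (β - 1))) with hhi
  have hMβ := Real.rpow_pos_of_pos hM0 (β - 1)
  have hMηβ := Real.rpow_pos_of_pos hM0 (η + (β - 1))
  have hrange : ∀ s ∈ Set.Icc (M / q) (3 * M / q), M ≤ q * s ∧ q * s ≤ 3 * M := by
    intro s hs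
    have h3 := hs.1
    have h4 := hs.2
    rw [div_le_iff₀ hq0] at h3
    rw [le_div_iff₀ hq0] at h4
    constructor <;> linarith
  have hHy : Hy k (M / q) (3 * M / q) lo hi φ := by
    refine ⟨?_, ?_, ?_, ?_⟩
    · intro m _ s hs
      have h3 := (hrange s hs).1
      have h4 := gg_der F a h m (q * s) (by linarith)
      have h5 : HasDerivAt (fun s : ℝ => (q : ℝ) * s) q s := by
        simpa using (hasDerivAt_id s).const_mul (q : ℝ)
      have h6 := (h4.comp s h5).const_mul ((q : ℝ) ^ m)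
      have e1 : φ (m + 1) s = (q : ℝ) ^ m * (gg F a h (m + 1) (q * s) * q) := by
        simp only [hφ]
        rw [pow_succ]
        ring
      rw [e1]
      exact h6
    · intro s hs
      obtain ⟨h3, h4⟩ := hrange s hs
      have := (a1 (q * s) h3 h4 η hη g1 h hpos hz hh).1
      exact mul_le_mul_of_nonneg_left this (by positivity)
    · intro s hs
      obtain ⟨h3, h4⟩ := hrange s hs
      have := (a1 (q * s) h3 h4 η hη g1 h hpos hz hh).2.1
      exact mul_le_mul_of_nonneg_left this (by positivity)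
    · intro s hs
      obtain ⟨h3, h4⟩ := hrange s hs
      have := (a1 (q * s) h3 h4 η hη g1 h hpos hz hh).2.2
      exact mul_nonpos_of_nonneg_of_nonpos (by positivity) this
  have hlo0 : 0 < lo := by positivity
  have hhi0 : 0 ≤ hi := by positivity
  have hθ : (0 : ℝ) < 1 / q := by positivity
  have hθlo : (C / 6 * M ^ (β - 1)) ≤ 1 / q * lo := by
    have e1 : 1 / (q : ℝ) * lo = (q : ℝ) ^ k * (C / 6 * M ^ (β - 1)) := by
      rw [hlo, pow_succ]
      field_simp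
    rw [e1]
    have h3 : (1 : ℝ) ≤ (q : ℝ) ^ k := one_le_pow₀ hq1
    have h4 : 0 < C / 6 * M ^ (β - 1) := by positivity
    nlinarith
  have hexp : η * k + (η + (β - 1)) + h₀ * k ≤ -((1 - β) / 2) := by
    have h3 : η ≤ h₀ := by linarith
    have h4 : η * (k + 1) ≤ h₀ * (k + 1) := mul_le_mul_of_nonneg_right h3 (by linarith)
    have h5 : h₀ * k ≤ h₀ * (k + 1) := by linarith
    rw [h₀k] at h4 h5
    linarith
  have hup : 2 * (1 / q * (hi * (Hn : ℝ) ^ k)) ≤ 1 := by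
    have e1 : 2 * (1 / (q : ℝ) * (hi * (Hn : ℝ) ^ k)) =
        4 * C * ((q : ℝ) ^ k * M ^ (η + (β - 1)) * (Hn : ℝ) ^ k) := by
      rw [hhi, pow_succ]
      field_simp
      ring
    rw [e1]
    have h3 : (q : ℝ) ^ k ≤ M ^ (η * k) := by
      rw [Real.rpow_mul hM0.le, Real.rpow_natCast]
      exact pow_le_pow_left₀ hq0.le hqM k
    have h4 : (Hn : ℝ) ^ k ≤ M ^ (h₀ * k) := by
      rw [Real.rpow_mul hM0.le, Real.rpow_natCast]
      exact pow_le_pow_left₀ (Nat.cast_nonneg _) hH1 k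
    calc 4 * C * ((q : ℝ) ^ k * M ^ (η + (β - 1)) * (Hn : ℝ) ^ k) ≤
          4 * C * (M ^ (η * k) * M ^ (η + (β - 1)) * M ^ (h₀ * k)) := by gcongr
      _ = 4 * C * M ^ (η * k + (η + (β - 1)) + h₀ * k) := by
          rw [← Real.rpow_add hM0, ← Real.rpow_add hM0]
      _ ≤ 4 * C * M ^ (-((1 - β) / 2)) := by
          apply mul_le_mul_of_nonneg_left _ (by positivity)
          exact Real.rpow_le_rpow_of_exponent_le a6 hexp
      _ ≤ 1 := a3
  have hb := exp_bound hlo0 hhi0 (1 / q) hθ hHy ((n₀ : ℝ) / q) N L Hn hN1 hLN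
    (by rw [div_le_div_iff_of_pos_right hq0]; exact hn₀)
    (by
      rw [le_div_iff₀ hq0, add_mul, div_mul_cancel₀ _ hq0.ne']
      linarith) hH4 hHN hup
  have hsum : ∑ m ∈ range L, e (1 / q * φ 0 ((n₀ : ℝ) / q + m)) =
      ∑ m ∈ range L, e (gg F a h 0 (n₀ + q * m) / q) := by
    apply Finset.sum_congr rfl
    intro m _
    simp only [hφ, pow_zero, one_mul]
    rw [mul_add, mul_div_cancel₀ _ hq0.ne']
    congr 1
    ring
  rw [hsum] at hb
  -- the right-hand side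
  have b1 : 1 / (Hn : ℝ) ≤ 2 * M ^ (-ξ) := by
    have h3 : 1 / (Hn : ℝ) ≤ 1 / (M ^ h₀ / 2) := one_div_le_one_div_of_le (by positivity) hH3
    have h4 : 1 / (M ^ h₀ / 2) = 2 * M ^ (-h₀) := by
      rw [Real.rpow_neg hM0.le]
      field_simp
    have h5 : M ^ (-h₀) ≤ M ^ (-ξ) := Real.rpow_le_rpow_of_exponent_le a6 (by linarith)
    linarith
  have b2 : 2 / (1 / q * lo) / N ≤ 24 / C * M ^ (-ξ) := by
    have h3 : 2 / (1 / q * lo) ≤ 2 / (C / 6 * M ^ (β - 1)) := by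
      apply div_le_div_of_nonneg_left (by norm_num) (by positivity) hθlo
    have hM1δ : 0 < M ^ (1 - δ) / 2 := by positivity
    calc 2 / (1 / q * lo) / N ≤ 2 / (C / 6 * M ^ (β - 1)) / (M ^ (1 - δ) / 2) := by
          apply div_le_div₀ (by positivity) h3 hM1δ hN
      _ = 24 / C * (M ^ (β - 1) * M ^ (1 - δ))⁻¹ := by
          field_simp
          norm_num
      _ = 24 / C * M ^ (-(β - δ)) := by
          rw [← Real.rpow_add hM0, ← Real.rpow_neg hM0.le]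
          congr 2
          ring
      _ ≤ 24 / C * M ^ (-ξ) := by
          apply mul_le_mul_of_nonneg_left _ (by positivity)
          apply Real.rpow_le_rpow_of_exponent_le a6
          linarith
  have b3 : (‖∑ m ∈ range L, e (gg F a h 0 (n₀ + q * m) / q)‖ / N) ^ (2 ^ k) ≤
      (M ^ (-η)) ^ (2 ^ k) := by
    calc _ ≤ Cq k * (1 / (Hn : ℝ) + 2 / (1 / q * lo) / N) := hb
      _ ≤ Cq k * (2 * M ^ (-ξ) + 24 / C * M ^ (-ξ)) := by gcongr
      _ = Cq k * (2 + 24 / C) * M ^ (-ξ) := by ring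
      _ ≤ M ^ (-(ξ / 2)) := a4
      _ ≤ M ^ (-η * ((2 ^ k : ℕ) : ℝ)) := by
          apply Real.rpow_le_rpow_of_exponent_le a6
          push_cast
          have : η * 2 ^ k ≤ η₂ * 2 ^ k := mul_le_mul_of_nonneg_right g2 (by positivity)
          linarith
      _ = _ := by rw [Real.rpow_mul hM0.le, Real.rpow_natCast]
  have b4 : ‖∑ m ∈ range L, e (gg F a h 0 (n₀ + q * m) / q)‖ / N ≤ M ^ (-η) :=
    (pow_le_pow_iff_left₀ (by positivity) (by positivity) (by positivity)).mp b3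
  rw [div_le_iff₀ hN0] at b4
  linarith

end Pool.Agent.Y961.JR
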