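import Pool.Agent.Y961.JR.ExpJ
import Pool.Agent.W147.PS.Scale

set_option autoImplicit false

/-! # The joint criterion at the scale of a power of `M` -/

namespace Pool.Agent.Y961.JR

open Finset Filter
open Pool.Agent.H469R2.NK (e norm_e e_add)
open Pool.Agent.W147.PS (ff ff_compare ev_pow)

lemma ff_scaled (κ η M : ℝ) (hκ : 0 < κ) (h1 : η ≤ 1) (hM1 : 1 ≤ M)
    (hM : ∀ x : ℝ, M ^ η ≤ x → x ≤ M ^ 2 → η / 32 * ff M ≤ ff x ∧
      0 < Real.log (Real.log x) ∧ Real.log (Real.log x) ≤ 2 * Real.log (Real.log M)) :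
    κ * (η / 32) * ff M ≤ κ * ff (M ^ η) := by
  have h5 := (hM (M ^ η) le_rfl (by
    calc M ^ η ≤ M ^ (2 : ℝ) := Real.rpow_le_rpow_of_exponent_le hM1 (by linarith)
      _ = M ^ 2 := by norm_num)).1
  calc κ * (η / 32) * ff M = κ * (η / 32 * ff M) := by ring
    _ ≤ _ := mul_le_mul_of_nonneg_left h5 hκ.le

/-- A finite family of vectors of real numbers whose exponential sums at the small rational vectors
save a power of `M` has a member without primes at distance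
`κ log M (log₂ M)² log₄ M / (log₃ M)²` of any of its coordinates. -/
theorem crit_scaledJ (r : ℕ) (hr : 1 ≤ r) (η : ℝ) (h0 : 0 < η) (h1 : η ≤ 1) :
    ∃ κ : ℝ, 0 < κ ∧ ∀ᶠ M : ℝ in atTop,
    ∀ (ι : Type) (s : Finset ι) (a : ι → Fin r → ℝ), s.Nonempty → (∀ i ∈ s, ∀ j, M ^ η ≤ a i j) →
    (∀ q : ℕ, 1 ≤ q → (q : ℝ) ≤ M ^ η → ∀ h : Fin r → ℤ, h ≠ 0 → (∀ j, |(h j : ℝ)| ≤ M ^ η) →
      ‖∑ i ∈ s, e (∑ j, (h j : ℝ) * (a i j / q))‖ ≤ s.card * M ^ (-η)) →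
    ∃ i ∈ s, ∀ j, ∀ q : ℕ, q.Prime → κ * ff M < |(q : ℝ) - a i j| := by
  obtain ⟨κ, hκ, X₀, hc⟩ := crit_expJ r hr
  have hr1 : (1 : ℝ) ≤ r := by exact_mod_cast hr
  set θ : ℝ := η / (20 * (r : ℝ) ^ 2) with hθ
  have hr2 : (1 : ℝ) ≤ (r : ℝ) ^ 2 := one_le_pow₀ hr1
  have hθ0 : 0 < θ := by positivity
  have hθη : θ ≤ η := div_le_self h0.le (by linarith)
  have hθ1 : θ ≤ 1 := hθη.trans h1
  refine ⟨κ * (θ / 32), by positivity, ?_⟩
  filter_upwards [ff_compare θ hθ0 hθ1, (tendsto_rpow_atTop hθ0).eventually_ge_atTop X₀,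
    eventually_ge_atTop (1 : ℝ)] with M hM hMX hM1
  intro ι s a hs ha hE
  have hM0 : 0 < M := by linarith
  have hmono : ∀ x y : ℝ, x ≤ y → M ^ x ≤ M ^ y := fun x y h =>
    Real.rpow_le_rpow_of_exponent_le hM1 h
  obtain ⟨i, hi, hi2⟩ := hc (M ^ θ) hMX ι s a hs
    (fun i hi j => (hmono _ _ hθη).trans (ha i hi j)) (by
    intro q hq hqX h hh hhX
    refine (hE q hq (hqX.trans ?_) h hh (fun j => (hhX j).trans ?_)).trans (le_of_eq ?_)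
    · rw [← Real.rpow_mul hM0.le]
      apply hmono
      linarith
    · rw [← Real.rpow_natCast, ← Real.rpow_mul hM0.le]
      apply hmono
      push_cast
      have e1 : θ * (10 * (r : ℝ)) * (2 * r) = η := by rw [hθ]; field_simp; norm_num
      have e2 : 0 ≤ θ * (10 * (r : ℝ)) := by positivity
      nlinarith
    · rw [← Real.rpow_mul hM0.le]
      congr 2
      rw [hθ]
      field_simp)
  refine ⟨i, hi, fun j q hq => lt_of_le_of_lt ?_ (hi2 j q hq)⟩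
  exact ff_scaled κ θ M hκ hθ1 hM1 hM.2

/-- The same for vectors of real numbers together with an integer. -/
theorem crit_scaled1J (r : ℕ) (hr : 1 ≤ r) (η : ℝ) (h0 : 0 < η) (h1 : η ≤ 1) :
    ∃ κ : ℝ, 0 < κ ∧ ∀ᶠ M : ℝ in atTop,
    ∀ (ι : Type) (s : Finset ι) (u : ι → ℤ) (a : ι → Fin r → ℝ), s.Nonempty →
    (∀ i ∈ s, M ^ η ≤ (u i : ℝ)) → (∀ i ∈ s, ∀ j, M ^ η ≤ a i j) →
    (∀ q : ℕ, 1 ≤ q → (q : ℝ) ≤ M ^ η → ∀ b : ℤ,
      |((s.filter (fun i => (q : ℤ) ∣ u i - b)).card : ℝ) - s.card / q| ≤ s.card * M ^ (-η) ∧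
      ∀ h : Fin r → ℤ, h ≠ 0 → (∀ j, |(h j : ℝ)| ≤ M ^ η) →
      ‖∑ i ∈ s.filter (fun i => (q : ℤ) ∣ u i - b), e (∑ j, (h j : ℝ) * (a i j / q))‖ ≤
        s.card * M ^ (-η)) →
    ∃ i ∈ s, (∀ q : ℕ, q.Prime → κ * ff M < |(q : ℝ) - u i|) ∧
      ∀ j, ∀ q : ℕ, q.Prime → κ * ff M < |(q : ℝ) - a i j| := by
  obtain ⟨κ, hκ, X₀, hc⟩ := crit_exp1J r hr
  have hr1 : (1 : ℝ) ≤ r := by exact_mod_cast hr
  set θ : ℝ := η / (20 * ((r : ℝ) + 1) ^ 2) with hθ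
  have hr2 : (1 : ℝ) ≤ ((r : ℝ) + 1) ^ 2 := one_le_pow₀ (by linarith)
  have hθ0 : 0 < θ := by positivity
  have hθη : θ ≤ η := div_le_self h0.le (by linarith)
  have hθ1 : θ ≤ 1 := hθη.trans h1
  refine ⟨κ * (θ / 32), by positivity, ?_⟩
  filter_upwards [ff_compare θ hθ0 hθ1, (tendsto_rpow_atTop hθ0).eventually_ge_atTop X₀,
    eventually_ge_atTop (1 : ℝ)] with M hM hMX hM1
  intro ι s u a hs hu ha hE
  have hM0 : 0 < M := by linarith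
  have hmono : ∀ x y : ℝ, x ≤ y → M ^ x ≤ M ^ y := fun x y h =>
    Real.rpow_le_rpow_of_exponent_le hM1 h
  have hexp : (M ^ θ) ^ (-(20 * ((r : ℝ) + 1) ^ 2)) = M ^ (-η) := by
    rw [← Real.rpow_mul hM0.le]
    congr 1
    rw [hθ]
    field_simp
  obtain ⟨i, hi, hi2, hi3⟩ := hc (M ^ θ) hMX ι s u a hs
    (fun i hi => (hmono _ _ hθη).trans (hu i hi))
    (fun i hi j => (hmono _ _ hθη).trans (ha i hi j)) (by
    intro q hq hqX b
    obtain ⟨g1, g2⟩ := hE q hq (hqX.trans (by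
      rw [← Real.rpow_mul hM0.le]
      apply hmono
      linarith)) b
    rw [hexp]
    refine ⟨g1, fun h hh hhX => g2 h hh fun j => (hhX j).trans ?_⟩
    rw [← Real.rpow_natCast, ← Real.rpow_mul hM0.le]
    apply hmono
    push_cast
    have e1 : θ * (10 * ((r : ℝ) + 1)) * (2 * (r + 1)) = η := by rw [hθ]; field_simp; norm_num
    have e2 : 0 ≤ θ * (10 * ((r : ℝ) + 1)) := by positivity
    nlinarith)
  refine ⟨i, hi, fun q hq => lt_of_le_of_lt ?_ (hi2 q hq),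
    fun j q hq => lt_of_le_of_lt ?_ (hi3 j q hq)⟩
  · exact ff_scaled κ θ M hκ hθ1 hM1 hM.2
  · exact ff_scaled κ θ M hκ hθ1 hM1 hM.2

end Pool.Agent.Y961.JR
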