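import Pool.Agent.Y961.JR.GenExp
import Pool.Agent.Y961.JR.ScaledJ
import Pool.Agent.Y961.JR.Class

set_option autoImplicit false

/-! # Record prime gaps around a number and the values of several generalised polynomials -/

namespace Pool.Agent.Y961.JR

open Finset Filter
open Pool.Agent.H469R2.NK (e norm_e e_add norm_sum_neg Cq Cq_pos)
open Pool.Agent.W147.PS (ff ff_compare ev_pow)
open Pool.Agent.TH915.PW (pw pw_der lower_small exp_bound Hy)

variable {r : ℕ} {F : Fin r → Finset ℝ} {a : Fin r → ℝ → ℝ} {c : Fin r → ℝ}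

lemma exists_min_pos (hr : 1 ≤ r) (f : Fin r → ℝ) (hf : ∀ j, 0 < f j) :
    ∃ η : ℝ, 0 < η ∧ ∀ j, η ≤ f j := by
  have hne : (Finset.univ : Finset (Fin r)).Nonempty := ⟨⟨0, hr⟩, Finset.mem_univ _⟩
  refine ⟨Finset.univ.inf' hne f, ?_, fun j => Finset.inf'_le _ (Finset.mem_univ j)⟩
  rw [Finset.lt_inf'_iff]
  exact fun j _ => hf j

/-- the exponential sums over progressions -/
theorem gg_exp (hr : 1 ≤ r) (H : Fam F a c) : ∃ η₀ : ℝ, 0 < η₀ ∧ η₀ ≤ 1 / 4 ∧
    ∀ η δ : ℝ, 0 < η → η ≤ η₀ → δ ≤ η₀ → ∀ᶠ M : ℝ in atTop, ∀ h : Fin r → ℤ, h ≠ 0 →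
    (∀ j, |(h j : ℝ)| ≤ M ^ η) → ∀ q : ℕ, 1 ≤ q → (q : ℝ) ≤ M ^ η →
    ∀ n₀ L N : ℕ, M ≤ n₀ → (n₀ : ℝ) + q * L ≤ 3 * M → L ≤ N → M ^ (1 - δ) / 2 ≤ N →
    ‖∑ m ∈ range L, e (gg F a h 0 (n₀ + q * m) / q)‖ ≤ N * M ^ (-η) := by
  choose ηj hηj hηj4 hj using gg_exp_pos H
  obtain ⟨η₀, hη₀, hle⟩ := exists_min_pos hr ηj hηj
  refine ⟨η₀, hη₀, (hle ⟨0, hr⟩).trans (hηj4 _), ?_⟩
  intro η δ hη hηle hδ
  filter_upwards [eventually_all.mpr fun j => hj j η δ hη (hηle.trans (hle j)) (hδ.trans (hle j))]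
    with M hM
  intro h hh hhM q hq hqM n₀ L N hn₀ hL hLN hN
  obtain ⟨j₀, hj₀, hmax⟩ := Finset.exists_max_image (Finset.univ.filter fun j => h j ≠ 0) c (by
    by_contra hcon
    rw [Finset.not_nonempty_iff_eq_empty, Finset.filter_eq_empty_iff] at hcon
    apply hh
    funext j
    have := hcon (Finset.mem_univ j)
    push Not at this
    exact this)
  rw [Finset.mem_filter] at hj₀
  have hz : ∀ j, c j₀ < c j → h j = 0 := by
    intro j hlt
    by_contra hne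
    have := hmax j (Finset.mem_filter.mpr ⟨Finset.mem_univ j, hne⟩)
    linarith
  rcases lt_or_gt_of_ne hj₀.2 with hneg | hpos
  · have h1 := hM j₀ (-h) (by simpa using hneg) (fun j hlt => by simp [hz j hlt])
      (fun j => by
        have : (((-h) j : ℤ) : ℝ) = -(h j : ℝ) := by simp
        rw [this, abs_neg]
        exact hhM j) q hq hqM n₀ L N hn₀ hL hLN hN
    have h2 : ∀ m : ℕ, gg F a (-h) 0 (n₀ + q * m) / q = -(gg F a h 0 (n₀ + q * m) / q) := by
      intro m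
      rw [gg_neg]
      ring
    simp_rw [h2] at h1
    rwa [norm_sum_neg] at h1
  · exact hM j₀ h hpos hz hhM q hq hqM n₀ L N hn₀ hL hLN hN

lemma val_lower (H : Fam F a c) (j : Fin r) : ∀ᶠ t : ℝ in atTop, ∀ M : ℝ, 1 ≤ M → M ≤ t →
    ∀ η : ℝ, 0 < η → η ≤ c j / 2 → M ^ η ≤ ∑ x ∈ F j, a j x * t ^ x := by
  have ha := H.apos j
  have hc := H.cpos j
  have h3 := lower_small ((F j).erase (c j)) (a j) (c j) (fun x hx => by
    rw [Finset.mem_erase] at hx
    exact lt_of_le_of_ne (H.le j x hx.2) hx.1) 0 (a j (c j) / 2) (by positivity)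
  filter_upwards [h3, ev_pow (c j / 2) (c j) (2 / a j (c j)) (by linarith),
    eventually_ge_atTop (1 : ℝ)] with t h1 h2 h4
  intro M hM1 hMt η hη hηc
  have ht0 : 0 < t := by linarith
  have hM0 : 0 < M := by linarith
  have e1 : ∑ x ∈ F j, a j x * t ^ x = a j (c j) * t ^ (c j) +
      ∑ x ∈ (F j).erase (c j), pw (a j x) x 0 t := by
    rw [← Finset.add_sum_erase (F j) _ (H.mem j)]
    congr 1
    apply Finset.sum_congr rfl
    intro x _
    unfold pw
    simp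
  have e2 : c j - ((0 : ℕ) : ℝ) = c j := by simp
  rw [e2] at h1
  have h5 := (abs_le.mp h1).1
  have h6 : M ^ η ≤ t ^ (c j / 2) := by
    refine (Real.rpow_le_rpow hM0.le hMt hη.le).trans ?_
    exact Real.rpow_le_rpow_of_exponent_le h4 hηc
  rw [div_mul_eq_mul_div, div_le_iff₀ ha] at h2
  rw [e1]
  linarith

/-- **Generalised polynomials.** -/
theorem genpolys (hr : 1 ≤ r) (H : Fam F a c) :
    ∃ κ : ℝ, 0 < κ ∧ ∃ δ : ℝ, 0 < δ ∧ ∃ M₀ : ℝ, ∀ M : ℝ, M₀ ≤ M →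
    ∃ n : ℕ, M < n ∧ (n : ℝ) ≤ M + M ^ (1 - δ) ∧ (∀ q : ℕ, q.Prime → κ * ff M < |(q : ℝ) - n|) ∧
      ∀ j, ∀ q : ℕ, q.Prime → κ * ff M < |(q : ℝ) - ∑ x ∈ F j, a j x * (n : ℝ) ^ x| := by
  obtain ⟨η₀, hη₀, hη₀4, hexp⟩ := gg_exp hr H
  obtain ⟨η₁, hη₁, hη₁c⟩ := exists_min_pos hr (fun j => c j / 2) (fun j => by
    have := H.cpos j
    positivity)
  set η : ℝ := min η₀ η₁ with hη
  have hη0 : 0 < η := lt_min hη₀ hη₁
  have hηle : η ≤ η₀ := min_le_left _ _
  have hηle1 : η ≤ η₁ := min_le_right _ _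
  obtain ⟨κ, hκ, hcr⟩ := crit_scaled1J r hr η hη0 (by linarith)
  refine ⟨κ, hκ, η₀, hη₀, ?_⟩
  obtain ⟨t₁, ht₁⟩ := eventually_atTop.mp (eventually_all.mpr (val_lower H))
  have hev := hcr.and ((hexp η η₀ hη0 hηle le_rfl).and ((ev_pow η (1 - η₀) 2 (by linarith)).and
    ((ev_pow (1 - η₀) 1 2 (by linarith)).and ((ev_pow η 1 4 (by linarith)).and
      ((eventually_ge_atTop t₁).and ((eventually_ge_atTop (1 : ℝ)).and
        ((tendsto_rpow_atTop (show 0 < 1 - η₀ by linarith)).eventually_ge_atTop 2)))))))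
  obtain ⟨M₀, hM₀⟩ := eventually_atTop.mp hev
  refine ⟨M₀, ?_⟩
  intro M hM
  obtain ⟨b1, b2, b3, b4, b5, b6, b7, b8⟩ := hM₀ M hM
  rw [Real.rpow_one] at b4 b5
  have hM0 : 0 < M := by linarith
  set Z : ℝ := M ^ (1 - η₀) with hZ
  set A : ℕ := ⌊M⌋₊ with hA
  set B : ℕ := ⌊M + Z⌋₊ with hB
  have hAM : (A : ℝ) ≤ M := Nat.floor_le hM0.le
  have hAM2 : M < A + 1 := Nat.lt_floor_add_one M
  have hBM : (B : ℝ) ≤ M + Z := Nat.floor_le (by linarith)
  have hBM2 : M + Z < B + 1 := Nat.lt_floor_add_one (M + Z)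
  have hAB' : (A : ℝ) < B := by linarith
  have hAB : A < B := by exact_mod_cast hAB'
  have hmem : ∀ n ∈ Ioc A B, M < (n : ℝ) ∧ (n : ℝ) ≤ M + Z := by
    intro n hn
    rw [Finset.mem_Ioc] at hn
    have h1 : ((A + 1 : ℕ) : ℝ) ≤ n := by exact_mod_cast hn.1
    have h2 : (n : ℝ) ≤ B := by exact_mod_cast hn.2
    push_cast at h1
    constructor <;> linarith
  have hcard : ((Ioc A B).card : ℝ) = (B : ℝ) - A := by
    rw [Nat.card_Ioc, Nat.cast_sub hAB.le]
  have hZhalf : Z / 2 ≤ (Ioc A B).card := by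
    rw [hcard]; linarith
  have hmain : 1 ≤ ((Ioc A B).card : ℝ) * M ^ (-η) := by
    rw [Real.rpow_neg hM0.le]
    have h1 : 0 < M ^ η := Real.rpow_pos_of_pos hM0 _
    rw [← div_eq_mul_inv, le_div_iff₀ h1]
    linarith
  have hMη : M ^ η ≤ M := by
    calc M ^ η ≤ M ^ (1 : ℝ) := Real.rpow_le_rpow_of_exponent_le b7 (by linarith)
      _ = M := Real.rpow_one M
  obtain ⟨n, hn, hn1, hn2⟩ := b1 ℕ (Ioc A B) (fun n => (n : ℤ))
    (fun n j => ∑ x ∈ F j, a j x * (n : ℝ) ^ x) ⟨B, Finset.mem_Ioc.mpr ⟨hAB, le_rfl⟩⟩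
    (fun n hn => by
      have := (hmem n hn).1
      push_cast
      linarith)
    (fun n hn j => by
      have := (hmem n hn).1
      exact ht₁ n (by linarith) j M b7 this.le η hη0 (hηle1.trans (hη₁c j)))
    (by
      intro q hq hqZ b
      obtain ⟨n₀, L, g1, g2, g3, g4, g5, g6⟩ := class_param A B q hq hAB.le b
      have hq0 : (0 : ℝ) < q := by exact_mod_cast hq
      constructor
      · rw [g5, hcard]
        exact g3.trans (by rw [← hcard]; exact hmain)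
      · intro h hh hhZ
        rw [g6]
        have e1 : ∀ m : ℕ, (∑ j, (h j : ℝ) * ((∑ x ∈ F j, a j x * ((n₀ + q * m : ℕ) : ℝ) ^ x) / q)) =
            gg F a h 0 ((n₀ : ℝ) + q * m) / q := by
          intro m
          rw [gg_zero, Finset.sum_div]
          apply Finset.sum_congr rfl
          intro j _
          push_cast
          ring
        simp_rw [e1]
        apply b2 h hh hhZ q hq hqZ n₀ L (Ioc A B).card
        · have : ((A + 1 : ℕ) : ℝ) ≤ n₀ := by exact_mod_cast g1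
          push_cast at this
          linarith
        · have h1 : (n₀ : ℝ) ≤ A + q := by exact_mod_cast g2
          have h2 : (L : ℝ) * q ≤ (B - A) + q := by
            have h3 := (abs_le.mp g3).2
            have h4 : (L : ℝ) ≤ ((B : ℝ) - A) / q + 1 := by linarith
            calc (L : ℝ) * q ≤ (((B : ℝ) - A) / q + 1) * q := mul_le_mul_of_nonneg_right h4 hq0.le
              _ = _ := by field_simp
          linarith
        · rw [← g5]
          exact Finset.card_filter_le _ _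
        · exact hZhalf)
  refine ⟨n, (hmem n hn).1, (hmem n hn).2, fun q hq => ?_, fun j q hq => hn2 j q hq⟩
  have := hn1 q hq
  push_cast at this
  exact this

end Pool.Agent.Y961.JR
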