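import Pool.Agent.Y961.JR.ScaledJ
import Pool.Agent.Y961.JR.Class

set_option autoImplicit false

/-! # Record prime gaps around a number and several of its real multiples -/

namespace Pool.Agent.Y961.JR

open Finset Filter
open Pool.Agent.H469R2.NK (e norm_e e_add conj_e e_zero)
open Pool.Agent.W147.PS (ff ff_compare ev_pow)

/-- the uniform theorem -/
theorem linear_uniform (r : ℕ) (hr : 1 ≤ r) (ε : ℝ) (hε : 0 < ε) (hε1 : ε ≤ 1) :
    ∃ κ : ℝ, 0 < κ ∧ ∃ Z₀ : ℝ, ∀ Z : ℝ, Z₀ ≤ Z → ∀ α β : Fin r → ℝ,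
    (∀ h : Fin r → ℤ, h ≠ 0 → (∀ j, |(h j : ℝ)| ≤ Z ^ ε) → ∀ m : ℤ,
      Z ^ (-(1 - ε)) ≤ |∑ j, (h j : ℝ) * α j - m|) →
    ∀ M : ℝ, Z ^ ε ≤ M → (∀ n : ℕ, M < n → (n : ℝ) ≤ M + Z → ∀ j, Z ^ ε ≤ α j * n + β j) →
    ∃ n : ℕ, M < n ∧ (n : ℝ) ≤ M + Z ∧ (∀ q : ℕ, q.Prime → κ * ff Z < |(q : ℝ) - n|) ∧
      ∀ j, ∀ q : ℕ, q.Prime → κ * ff Z < |(q : ℝ) - (α j * n + β j)| := by
  obtain ⟨κ, hκ, hev⟩ := crit_scaled1J r hr (ε / 2) (by positivity) (by linarith)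
  have hev2 : ∀ᶠ Z : ℝ in atTop, 2 * Z ^ (ε / 2) ≤ Z ∧ 4 * Z ^ (1 - ε) ≤ Z ^ (1 - ε / 2) := by
    filter_upwards [ev_pow (ε / 2) 1 2 (by linarith), ev_pow (1 - ε) (1 - ε / 2) 4 (by linarith)]
      with Z h1 h2
    rw [Real.rpow_one] at h1
    exact ⟨h1, h2⟩
  obtain ⟨Z₀, hZ₀⟩ := eventually_atTop.mp (hev.and (hev2.and (eventually_ge_atTop (2 : ℝ))))
  refine ⟨κ, hκ, Z₀, ?_⟩
  intro Z hZ α β hα M hM hpos
  obtain ⟨hcr, ⟨hZ1, hZ2⟩, hZ3⟩ := hZ₀ Z hZ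
  have hZ0 : 0 < Z := by linarith
  have hZ1' : 1 ≤ Z := by linarith
  have hM0 : 0 ≤ M := (Real.rpow_nonneg hZ0.le _).trans hM
  set A : ℕ := ⌊M⌋₊ with hA
  set B : ℕ := ⌊M + Z⌋₊ with hB
  have hAM : (A : ℝ) ≤ M := Nat.floor_le hM0
  have hAM2 : M < A + 1 := Nat.lt_floor_add_one M
  have hBM : (B : ℝ) ≤ M + Z := Nat.floor_le (by linarith)
  have hBM2 : M + Z < B + 1 := Nat.lt_floor_add_one (M + Z)
  have hAB' : (A : ℝ) < B := by linarith
  have hAB : A < B := by exact_mod_cast hAB'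
  have hmem : ∀ n ∈ Ioc A B, M < (n : ℝ) ∧ (n : ℝ) ≤ M + Z := by
    intro n hn
    rw [Finset.mem_Ioc] at hn
    have h1 : ((A + 1 : ℕ) : ℝ) ≤ n := by exact_mod_cast hn.1
    have h2 : (n : ℝ) ≤ B := by exact_mod_cast hn.2
    push_cast at h1
    constructor <;> linarith
  have hcard : ((Ioc A B).card : ℝ) = (B : ℝ) - A := by
    rw [Nat.card_Ioc, Nat.cast_sub hAB.le]
  have hZhalf : Z / 2 ≤ (Ioc A B).card := by
    rw [hcard]; linarith
  have hmono : Z ^ (ε / 2) ≤ Z ^ ε := Real.rpow_le_rpow_of_exponent_le hZ1' (by linarith)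
  have hmain : 1 ≤ ((Ioc A B).card : ℝ) * Z ^ (-(ε / 2)) := by
    rw [Real.rpow_neg hZ0.le]
    have h1 : 0 < Z ^ (ε / 2) := Real.rpow_pos_of_pos hZ0 _
    rw [← div_eq_mul_inv, le_div_iff₀ h1]
    linarith
  have hmain2 : 2 / Z ^ (-(1 - ε)) ≤ ((Ioc A B).card : ℝ) * Z ^ (-(ε / 2)) := by
    rw [Real.rpow_neg hZ0.le (1 - ε), div_inv_eq_mul]
    have h1 : Z ^ (1 - ε / 2) = Z * Z ^ (-(ε / 2)) := by
      rw [sub_eq_add_neg, Real.rpow_add hZ0, Real.rpow_one]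
    have h2 : Z / 2 * Z ^ (-(ε / 2)) ≤ ((Ioc A B).card : ℝ) * Z ^ (-(ε / 2)) :=
      mul_le_mul_of_nonneg_right hZhalf (Real.rpow_nonneg hZ0.le _)
    linarith
  obtain ⟨n, hn, hn1, hn2⟩ := hcr ℕ (Ioc A B) (fun n => (n : ℤ)) (fun n j => α j * n + β j)
    ⟨B, Finset.mem_Ioc.mpr ⟨hAB, le_rfl⟩⟩
    (fun n hn => by
      have := (hmem n hn).1
      push_cast
      linarith)
    (fun n hn j => by
      have := hmem n hn
      exact hmono.trans (hpos n this.1 this.2 j))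
    (by
      intro q hq hqZ b
      obtain ⟨n₀, L, g1, g2, g3, g4, g5, g6⟩ := class_param A B q hq hAB.le b
      constructor
      · rw [g5, hcard]
        exact g3.trans (by rw [← hcard]; exact hmain)
      · intro h hh hhZ
        rw [g6]
        have hq0 : (0 : ℝ) < q := by exact_mod_cast hq
        have e1 : ∀ m : ℕ, (∑ j, (h j : ℝ) * ((α j * ((n₀ + q * m : ℕ) : ℝ) + β j) / q)) =
            (∑ j, (h j : ℝ) * ((α j * n₀ + β j) / q)) + m * ∑ j, (h j : ℝ) * α j := by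
          intro m
          rw [Finset.mul_sum, ← Finset.sum_add_distrib]
          apply Finset.sum_congr rfl
          intro j _
          push_cast
          field_simp
          ring
        simp_rw [e1]
        exact (geom_bound _ _ _ (Real.rpow_pos_of_pos hZ0 _)
          (hα h hh fun j => (hhZ j).trans hmono) L).trans hmain2)
  refine ⟨n, (hmem n hn).1, (hmem n hn).2, fun q hq => ?_, fun j q hq => hn2 j q hq⟩
  have := hn1 q hq
  push_cast at this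
  exact this

end Pool.Agent.Y961.JR
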