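import Pool.Agent.Y961.JR.Linear
import Pool.Agent.TH915.PW.Freq

set_option autoImplicit false

/-! # Record prime gaps around a number and several of its real multiples: fixed coefficients -/

namespace Pool.Agent.Y961.JR

open Finset Filter
open Pool.Agent.W147.PS (ff ff_compare ev_pow)
open Pool.Agent.TH915.PW (GS GS_frequent dist_of_approx)

lemma ev_lower {r : ℕ} (ε : ℝ) (hε1 : ε < 1) (α β : Fin r → ℝ) (hα : ∀ j, 0 < α j) :
    ∀ᶠ Z : ℝ in atTop, ∀ M : ℝ, Z ≤ M → ∀ n : ℕ, M < n → ∀ j, Z ^ ε ≤ α j * n + β j := by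
  have h1 : ∀ j : Fin r, ∀ᶠ Z : ℝ in atTop, Z ^ ε ≤ α j * Z + β j := by
    intro j
    have hj := hα j
    filter_upwards [ev_pow ε 1 (2 / α j) hε1, eventually_ge_atTop (2 * |β j| / α j)] with Z h1 h2
    rw [Real.rpow_one, div_mul_eq_mul_div, div_le_iff₀ hj] at h1
    rw [div_le_iff₀ hj] at h2
    have := neg_abs_le (β j)
    linarith
  filter_upwards [eventually_all.mpr h1] with Z hZ M hM n hn j
  have := hZ j
  have hj := hα j
  nlinarith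

/-- Diophantine coefficients -/
theorem linear_dioph (r : ℕ) (hr : 1 ≤ r) (τ : ℝ) (hτ : 0 ≤ τ) :
    ∃ κ : ℝ, 0 < κ ∧ ∀ α β : Fin r → ℝ, (∀ j, 0 < α j) →
    (∃ c : ℝ, 0 < c ∧ ∀ (H : ℕ) (h : Fin r → ℤ), h ≠ 0 → (∀ j, |h j| ≤ H) → ∀ m : ℤ,
      c * (H : ℝ) ^ (-τ) ≤ |∑ j, (h j : ℝ) * α j - m|) →
    ∃ Z₀ : ℝ, ∀ Z : ℝ, Z₀ ≤ Z → ∀ M : ℝ, Z ≤ M →
    ∃ n : ℕ, M < n ∧ (n : ℝ) ≤ M + Z ∧ (∀ q : ℕ, q.Prime → κ * ff Z < |(q : ℝ) - n|) ∧
      ∀ j, ∀ q : ℕ, q.Prime → κ * ff Z < |(q : ℝ) - (α j * n + β j)| := by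
  set ε : ℝ := 1 / (τ + 2) with hε
  have hε0 : 0 < ε := by positivity
  have hε1 : ε < 1 := by
    rw [hε, div_lt_one (by positivity)]
    linarith
  obtain ⟨κ, hκ, Z₁, h1⟩ := linear_uniform r hr ε hε0 hε1.le
  refine ⟨κ, hκ, ?_⟩
  intro α β hα ⟨c, hc, hdio⟩
  have hexp : -(1 - ε) < -(ε * τ) := by
    have : ε * (τ + 2) = 1 := by rw [hε]; field_simp
    nlinarith
  obtain ⟨Z₂, h2⟩ := eventually_atTop.mp ((ev_lower ε hε1 α β hα).and
    ((ev_pow (-(1 - ε)) (-(ε * τ)) (1 / c) hexp).and (eventually_ge_atTop (1 : ℝ))))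
  refine ⟨max Z₁ Z₂, fun Z hZ M hM => ?_⟩
  obtain ⟨g1, g2, g3⟩ := h2 Z ((le_max_right _ _).trans hZ)
  have hZ0 : 0 < Z := by linarith
  refine h1 Z ((le_max_left _ _).trans hZ) α β ?_ M ?_ (fun n hn _ j => g1 M hM n hn j)
  · intro h hh hhZ m
    set H : ℕ := ⌊Z ^ ε⌋₊ with hH
    have hHZ : (H : ℝ) ≤ Z ^ ε := Nat.floor_le (Real.rpow_nonneg hZ0.le _)
    have hhH : ∀ j, |h j| ≤ (H : ℤ) := by
      intro j
      have h3 : ((h j).natAbs : ℝ) ≤ Z ^ ε := by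
        rw [Nat.cast_natAbs]
        push_cast
        exact hhZ j
      have h4 : (h j).natAbs ≤ H := Nat.le_floor h3
      rw [Int.abs_eq_natAbs]
      exact_mod_cast h4
    have hH1 : 1 ≤ H := Nat.le_floor (by
      rw [Nat.cast_one]
      exact Real.one_le_rpow g3 hε0.le)
    have hH0 : (0 : ℝ) < H := by exact_mod_cast hH1
    refine le_trans ?_ (hdio H h hh hhH m)
    have e1 : (Z ^ ε) ^ (-τ) ≤ (H : ℝ) ^ (-τ) :=
      Real.rpow_le_rpow_of_nonpos hH0 hHZ (by linarith)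
    have e2 : (Z ^ ε) ^ (-τ) = Z ^ (-(ε * τ)) := by
      rw [← Real.rpow_mul hZ0.le]
      congr 1
      ring
    rw [e2] at e1
    have e3 : Z ^ (-(1 - ε)) ≤ c * Z ^ (-(ε * τ)) := by
      rw [one_div, inv_mul_le_iff₀ hc] at g2
      exact g2
    exact e3.trans (mul_le_mul_of_nonneg_left e1 hc.le)
  · refine le_trans ?_ hM
    calc Z ^ ε ≤ Z ^ (1 : ℝ) := Real.rpow_le_rpow_of_exponent_le g3 hε1.le
      _ = Z := Real.rpow_one Z

/-- one irrational coefficient -/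
theorem linear_irrational : ∃ κ : ℝ, 0 < κ ∧ ∀ α β : ℝ, 0 < α → Irrational α →
    ∀ Z₁ : ℝ, ∃ Z : ℝ, Z₁ ≤ Z ∧ ∀ M : ℝ, Z ≤ M →
    ∃ n : ℕ, M < n ∧ (n : ℝ) ≤ M + Z ∧ (∀ q : ℕ, q.Prime → κ * ff Z < |(q : ℝ) - n|) ∧
      ∀ q : ℕ, q.Prime → κ * ff Z < |(q : ℝ) - (α * n + β)| := by
  obtain ⟨κ, hκ, Z₂, h1⟩ := linear_uniform 1 le_rfl (1 / 3) (by norm_num) (by norm_num)
  refine ⟨κ, hκ, ?_⟩
  intro α β hα hirr Z₁
  obtain ⟨Z₃, h2⟩ := eventually_atTop.mp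
    ((ev_lower (1 / 3) (by norm_num) (fun _ : Fin 1 => α) (fun _ => β) (fun _ => hα)).and
    ((ev_pow (1 / 3) (1 / 2) 2 (by norm_num)).and ((ev_pow (1 / 2) (2 / 3) 2 (by norm_num)).and
      (eventually_ge_atTop (1 : ℝ)))))
  obtain ⟨Z, hZ, a, D, hcop, hD1, hD2, hap⟩ := GS_frequent hirr (1 / 2) le_rfl
    (max Z₁ (max Z₂ Z₃))
  obtain ⟨g1, g2, g3, g4⟩ := h2 Z (((le_max_right _ _).trans (le_max_right _ _)).trans hZ)
  have hZ0 : 0 < Z := by linarith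
  refine ⟨Z, (le_max_left _ _).trans hZ, fun M hM => ?_⟩
  obtain ⟨n, k1, k2, k3, k4⟩ := h1 Z (((le_max_left _ _).trans (le_max_right _ _)).trans hZ)
    (fun _ => α) (fun _ => β) (by
    intro h hh hhZ m
    rw [Fin.sum_univ_one]
    have hD0 : (0 : ℝ) < D := lt_of_lt_of_le (Real.rpow_pos_of_pos hZ0 _) hD1
    have hT0 : h 0 ≠ 0 := by
      intro h0
      apply hh
      funext j
      rw [Subsingleton.elim j 0, h0]
      rfl
    set T : ℕ := (h 0).natAbs with hT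
    have hT1 : 1 ≤ T := Int.natAbs_pos.mpr hT0
    have hTZ : (T : ℝ) ≤ Z ^ (1 / 3 : ℝ) := by
      rw [hT, Nat.cast_natAbs]
      push_cast
      exact hhZ 0
    have hTD : 2 * T ≤ D := by
      have : 2 * (T : ℝ) ≤ D := by
        have h3 : 2 * (T : ℝ) ≤ 2 * Z ^ (1 / 3 : ℝ) := by linarith
        linarith
      exact_mod_cast this
    have key := dist_of_approx hcop hap hT1 hTD
    have e1 : Z ^ (-(1 - 1 / 3) : ℝ) ≤ 1 / (2 * (D : ℝ)) := by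
      rw [Real.rpow_neg hZ0.le, ← one_div]
      apply one_div_le_one_div_of_le (by positivity)
      have e2 : Z ^ (1 - 1 / 3 : ℝ) = Z ^ (2 / 3 : ℝ) := by norm_num
      rw [e2]
      linarith
    refine e1.trans ?_
    rcases le_total 0 (h 0) with h5 | h5
    · have e2 : ((h 0 : ℤ) : ℝ) = T := by
        rw [hT, Nat.cast_natAbs, abs_of_nonneg h5]
      rw [e2]
      exact key m
    · have e2 : ((h 0 : ℤ) : ℝ) = -T := by
        rw [hT, Nat.cast_natAbs, abs_of_nonpos h5]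
        push_cast
        ring
      have := key (-m)
      rw [e2]
      push_cast at this
      rw [← abs_neg]
      have e3 : -(-(T : ℝ) * α - m) = T * α - -m := by ring
      rw [e3]
      exact this) M (by
    refine le_trans ?_ hM
    calc Z ^ (1 / 3 : ℝ) ≤ Z ^ (1 : ℝ) := Real.rpow_le_rpow_of_exponent_le g4 (by norm_num)
      _ = Z := Real.rpow_one Z) (fun n hn _ j => g1 M hM n hn j)
  exact ⟨n, k1, k2, k3, fun q hq => k4 0 q hq⟩

end Pool.Agent.Y961.JR
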