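import Pool.Agent.Y961.JR.GenP

set_option autoImplicit false

/-! # Derivatives of high order of integer combinations of generalised polynomials -/

namespace Pool.Agent.Y961.JR

open Finset Filter
open Pool.Agent.W147.PS (ff ff_compare ev_pow)
open Pool.Agent.TH915.PW (pw pw_der lower_small)

variable {r : ℕ} {F : Fin r → Finset ℝ} {a : Fin r → ℝ → ℝ} {c : Fin r → ℝ}

/-- the leading constant of the derivative of order `k` -/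
noncomputable def CK (a : Fin r → ℝ → ℝ) (c : Fin r → ℝ) (j : Fin r) (k : ℕ) : ℝ :=
  a j (c j) * ∏ i ∈ range k, (c j - i)

lemma CK_ne (H : Fam F a c) (j : Fin r) (k : ℕ) : CK a c j k ≠ 0 := by
  unfold CK
  apply mul_ne_zero (H.apos j).ne'
  rw [prod_ne_zero_iff]
  intro i _
  exact sub_ne_zero.mpr (H.nonint j i)

lemma CK_succ (j : Fin r) (k : ℕ) : CK a c j (k + 1) = CK a c j k * (c j - k) := by
  unfold CK
  rw [prod_range_succ]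
  ring

/-- the derivative of `t ^ k G⁽ᵏ⁾(t)` -/
noncomputable def DD {r : ℕ} (F : Fin r → Finset ℝ) (a : Fin r → ℝ → ℝ) (h : Fin r → ℤ) (k : ℕ)
    (t : ℝ) : ℝ :=
  k * t ^ (k - 1) * gg F a h k t + t ^ k * gg F a h (k + 1) t

lemma DD_der (h : Fin r → ℤ) (k : ℕ) (t : ℝ) (ht : 0 < t) :
    HasDerivAt (fun t => t ^ k * gg F a h k t) (DD F a h k t) t := by
  have h1 := (hasDerivAt_pow k t).mul (gg_der F a h k t ht)
  exact h1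

/-- the derivatives are close to their main terms -/
lemma gg_two (H : Fam F a c) (j₀ : Fin r) (k : ℕ) :
    ∃ η₀ : ℝ, 0 < η₀ ∧ ∀ᶠ N : ℝ in atTop, ∀ t : ℝ, N ≤ t → ∀ η : ℝ, 0 < η → η ≤ η₀ →
      ∀ h : Fin r → ℤ, 0 < h j₀ → (∀ j, c j₀ < c j → h j = 0) → (∀ j, |(h j : ℝ)| ≤ N ^ η) →
      |gg F a h k t - h j₀ * CK a c j₀ k * t ^ (c j₀ - k)| ≤
        h j₀ * |CK a c j₀ k| / 2 * t ^ (c j₀ - k) ∧
      |DD F a h k t - h j₀ * (c j₀ * CK a c j₀ k) * t ^ (c j₀ - 1)| ≤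
        h j₀ * (c j₀ * |CK a c j₀ k|) / 2 * t ^ (c j₀ - 1) := by
  have hc := H.cpos j₀
  have hCK : 0 < |CK a c j₀ k| := abs_pos.mpr (CK_ne H j₀ k)
  set ρ : ℝ := min (|CK a c j₀ k| / 2) (c j₀ * |CK a c j₀ k| / (2 * (k + 1))) with hρ
  have hρ0 : 0 < ρ := lt_min (by positivity) (by positivity)
  have hρ1 : ρ ≤ |CK a c j₀ k| / 2 := min_le_left _ _
  have hρ2 : ρ ≤ c j₀ * |CK a c j₀ k| / (2 * (k + 1)) := min_le_right _ _
  obtain ⟨η₁, hη₁, h1⟩ := gg_main H j₀ k ρ hρ0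
  obtain ⟨η₂, hη₂, h2⟩ := gg_main H j₀ (k + 1) ρ hρ0
  refine ⟨min η₁ η₂, lt_min hη₁ hη₂, ?_⟩
  obtain ⟨t₁, ht₁⟩ := eventually_atTop.mp (h1.and h2)
  filter_upwards [eventually_ge_atTop t₁, eventually_ge_atTop (1 : ℝ)] with N hN hN1
  intro t hNt η hη hηle h hpos h0 hh
  have hN0 : 0 < N := by linarith
  have ht0 : 0 < t := by linarith
  have hh1 : (1 : ℝ) ≤ h j₀ := by exact_mod_cast hpos
  obtain ⟨g1, g2⟩ := ht₁ t (hN.trans hNt)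
  have g1' := g1 N hN0 hNt η hη (hηle.trans (min_le_left _ _)) h hpos h0 hh
  have g2' := g2 N hN0 hNt η hη (hηle.trans (min_le_right _ _)) h hpos h0 hh
  have e1 : pw (a j₀ (c j₀)) (c j₀) k t = CK a c j₀ k * t ^ (c j₀ - k) := rfl
  have e2 : pw (a j₀ (c j₀)) (c j₀) (k + 1) t = CK a c j₀ (k + 1) * t ^ (c j₀ - ((k + 1 : ℕ) : ℝ)) :=
    rfl
  rw [e1] at g1'
  rw [e2, CK_succ] at g2'
  have htk := Real.rpow_pos_of_pos ht0 (c j₀ - k)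
  constructor
  · calc |gg F a h k t - h j₀ * CK a c j₀ k * t ^ (c j₀ - k)| =
          |gg F a h k t - h j₀ * (CK a c j₀ k * t ^ (c j₀ - k))| := by rw [mul_assoc]
      _ ≤ h j₀ * (ρ * t ^ (c j₀ - k)) := g1'
      _ ≤ h j₀ * (|CK a c j₀ k| / 2 * t ^ (c j₀ - k)) := by gcongr
      _ = _ := by ring
  · have p1 : (t : ℝ) ^ (k : ℕ) * t ^ (c j₀ - ((k + 1 : ℕ) : ℝ)) = t ^ (c j₀ - 1) := by
      rw [← Real.rpow_natCast t k, ← Real.rpow_add ht0]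
      congr 1
      push_cast
      ring
    have p2 : (k : ℝ) * ((t : ℝ) ^ (k - 1 : ℕ) * t ^ (c j₀ - k)) = k * t ^ (c j₀ - 1) := by
      rcases Nat.eq_zero_or_pos k with hk | hk
      · rw [hk]; simp
      · rw [← Real.rpow_natCast t (k - 1), ← Real.rpow_add ht0]
        congr 2
        rw [Nat.cast_sub hk]
        push_cast
        ring
    have htp := Real.rpow_pos_of_pos ht0 (c j₀ - 1)
    have e3 : DD F a h k t - h j₀ * (c j₀ * CK a c j₀ k) * t ^ (c j₀ - 1) =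
        (k : ℝ) * t ^ (k - 1) * (gg F a h k t - h j₀ * (CK a c j₀ k * t ^ (c j₀ - k))) +
        t ^ k * (gg F a h (k + 1) t -
          h j₀ * (CK a c j₀ k * (c j₀ - k) * t ^ (c j₀ - ((k + 1 : ℕ) : ℝ)))) := by
      unfold DD
      have e4 : (k : ℝ) * t ^ (k - 1) * (gg F a h k t - h j₀ * (CK a c j₀ k * t ^ (c j₀ - k))) =
          k * t ^ (k - 1) * gg F a h k t -
            h j₀ * CK a c j₀ k * (k * (t ^ (k - 1) * t ^ (c j₀ - k))) := by ring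
      have e5 : t ^ k * (gg F a h (k + 1) t -
          h j₀ * (CK a c j₀ k * (c j₀ - k) * t ^ (c j₀ - ((k + 1 : ℕ) : ℝ)))) =
          t ^ k * gg F a h (k + 1) t - h j₀ * (CK a c j₀ k * (c j₀ - k)) *
            (t ^ k * t ^ (c j₀ - ((k + 1 : ℕ) : ℝ))) := by ring
      rw [e4, e5, p1, p2]
      ring
    rw [e3]
    have hk0 : (0 : ℝ) ≤ k := Nat.cast_nonneg k
    calc _ ≤ |(k : ℝ) * t ^ (k - 1) * (gg F a h k t - h j₀ * (CK a c j₀ k * t ^ (c j₀ - k)))| +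
        |t ^ k * (gg F a h (k + 1) t -
          h j₀ * (CK a c j₀ k * (c j₀ - k) * t ^ (c j₀ - ((k + 1 : ℕ) : ℝ))))| := abs_add_le _ _
      _ ≤ (k : ℝ) * t ^ (k - 1) * (h j₀ * (ρ * t ^ (c j₀ - k))) +
          t ^ k * (h j₀ * (ρ * t ^ (c j₀ - ((k + 1 : ℕ) : ℝ)))) := by
          rw [abs_mul, abs_mul (t ^ k), abs_of_nonneg (by positivity : (0 : ℝ) ≤ k * t ^ (k - 1)),
            abs_of_nonneg (by positivity : (0 : ℝ) ≤ t ^ k)]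
          gcongr
      _ = h j₀ * ρ * (k * (t ^ (k - 1) * t ^ (c j₀ - k))) +
          h j₀ * ρ * (t ^ k * t ^ (c j₀ - ((k + 1 : ℕ) : ℝ))) := by ring
      _ = h j₀ * (ρ * (k + 1)) * t ^ (c j₀ - 1) := by rw [p1, p2]; ring
      _ ≤ h j₀ * (c j₀ * |CK a c j₀ k| / (2 * (k + 1)) * (k + 1)) * t ^ (c j₀ - 1) := by gcongr
      _ = _ := by field_simp

/-- bounds for the derivatives of orders `K + 1`, `K + 2` -/
lemma gg_high (H : Fam F a c) (j₀ : Fin r) (K : ℕ) (hK : c j₀ < K + 1) :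
    ∃ η₀ : ℝ, 0 < η₀ ∧ ∃ c₁ c₂ ε : ℝ, 0 < c₁ ∧ 0 < c₂ ∧ (ε = 1 ∨ ε = -1) ∧
      ∀ᶠ N : ℝ in atTop, ∀ t : ℝ, N ≤ t → t ≤ 3 * N →
      ∀ η : ℝ, 0 < η → η ≤ η₀ → ∀ h : Fin r → ℤ, 0 < h j₀ → (∀ j, c j₀ < c j → h j = 0) →
      (∀ j, |(h j : ℝ)| ≤ N ^ η) →
      c₁ * (h j₀ * N ^ (c j₀ - (K + 1))) ≤ ε * gg F a h (K + 1) t ∧
      ε * gg F a h (K + 1) t ≤ c₂ * (h j₀ * N ^ (c j₀ - (K + 1))) ∧ ε * gg F a h (K + 2) t ≤ 0 ∧
      c₁ * (h j₀ * N ^ (c j₀ - 1)) ≤ ε * DD F a h (K + 1) t ∧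
      ε * DD F a h (K + 1) t ≤ c₂ * (h j₀ * N ^ (c j₀ - 1)) ∧ ε * DD F a h (K + 2) t ≤ 0 := by
  have hc := H.cpos j₀
  set C : ℝ := CK a c j₀ (K + 1) with hC
  have hCne : C ≠ 0 := CK_ne H j₀ (K + 1)
  have hCabs : 0 < |C| := abs_pos.mpr hCne
  obtain ⟨ε, hε, hεC⟩ : ∃ ε : ℝ, (ε = 1 ∨ ε = -1) ∧ ε * C = |C| := by
    rcases lt_or_gt_of_ne hCne with h | h
    · exact ⟨-1, Or.inr rfl, by rw [abs_of_neg h]; ring⟩
    · exact ⟨1, Or.inl rfl, by rw [abs_of_pos h]; ring⟩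
  have hεabs : |ε| = 1 := by rcases hε with h | h <;> rw [h] <;> norm_num
  obtain ⟨η₁, hη₁, h1⟩ := gg_two H j₀ (K + 1)
  obtain ⟨η₂, hη₂, h2⟩ := gg_two H j₀ (K + 2)
  set κ₁ : ℝ := min 1 (3 ^ (c j₀ - 1)) with hκ₁
  set κ₂ : ℝ := max 1 (3 ^ (c j₀ - 1)) with hκ₂
  have hκ₁0 : 0 < κ₁ := lt_min one_pos (by positivity)
  have hκ₂1 : 1 ≤ κ₂ := le_max_left _ _
  set b₁ : ℝ := |C| / 2 * 3 ^ (c j₀ - (K + 1)) with hb₁
  set b₂ : ℝ := c j₀ * |C| / 2 * κ₁ with hb₂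
  have hb₁0 : 0 < b₁ := by positivity
  have hb₂0 : 0 < b₂ := by positivity
  set d₁ : ℝ := 3 / 2 * |C| with hd₁
  set d₂ : ℝ := 3 / 2 * (c j₀ * |C|) * κ₂ with hd₂
  have hd₁0 : 0 < d₁ := by positivity
  have hd₂0 : 0 < d₂ := by positivity
  refine ⟨min η₁ η₂, lt_min hη₁ hη₂, min b₁ b₂, max d₁ d₂, ε, lt_min hb₁0 hb₂0,
    lt_max_of_lt_left hd₁0, hε, ?_⟩
  filter_upwards [h1, h2, eventually_ge_atTop (1 : ℝ)] with N g1 g2 g3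
  intro t hNt htN η hη hηle h hpos h0 hh
  obtain ⟨p1, p2⟩ := g1 t hNt η hη (hηle.trans (min_le_left _ _)) h hpos h0 hh
  obtain ⟨p3, p4⟩ := g2 t hNt η hη (hηle.trans (min_le_right _ _)) h hpos h0 hh
  have hh1 : (1 : ℝ) ≤ h j₀ := by exact_mod_cast hpos
  have hN0 : 0 < N := by linarith
  have ht0 : 0 < t := by linarith
  rw [← hC] at p1 p2
  have hCs : CK a c j₀ (K + 2) = C * (c j₀ - ((K + 1 : ℕ) : ℝ)) := by
    rw [hC]; exact CK_succ j₀ (K + 1)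
  have hneg : c j₀ - ((K + 1 : ℕ) : ℝ) < 0 := by push_cast; linarith
  have hεCs : ε * CK a c j₀ (K + 2) = -|CK a c j₀ (K + 2)| := by
    rw [hCs, abs_mul, abs_of_neg hneg, ← hεC]
    ring
  -- general transfer
  have htr : ∀ x y z : ℝ, |x - y| ≤ z → ε * y - z ≤ ε * x ∧ ε * x ≤ ε * y + z := by
    intro x y z hxyz
    have h3 : |ε * x - ε * y| ≤ z := by
      rw [← mul_sub, abs_mul, hεabs, one_mul]
      exact hxyz
    have h4 := abs_le.mp h3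
    constructor <;> linarith [h4.1, h4.2]
  have t1 := htr _ _ _ p1
  have t2 := htr _ _ _ p2
  have t3 := htr _ _ _ p3
  have t4 := htr _ _ _ p4
  have r1 : ε * (h j₀ * C * t ^ (c j₀ - ((K + 1 : ℕ) : ℝ))) =
      h j₀ * |C| * t ^ (c j₀ - ((K + 1 : ℕ) : ℝ)) := by rw [← hεC]; ring
  have r2 : ε * (h j₀ * (c j₀ * C) * t ^ (c j₀ - 1)) = h j₀ * (c j₀ * |C|) * t ^ (c j₀ - 1) := by
    rw [← hεC]; ring
  have r3 : ε * (h j₀ * CK a c j₀ (K + 2) * t ^ (c j₀ - ((K + 2 : ℕ) : ℝ))) =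
      -(h j₀ * |CK a c j₀ (K + 2)| * t ^ (c j₀ - ((K + 2 : ℕ) : ℝ))) := by
    rw [show ε * (h j₀ * CK a c j₀ (K + 2) * t ^ (c j₀ - ((K + 2 : ℕ) : ℝ))) =
      (ε * CK a c j₀ (K + 2)) * (h j₀ * t ^ (c j₀ - ((K + 2 : ℕ) : ℝ))) by ring, hεCs]
    ring
  have r4 : ε * (h j₀ * (c j₀ * CK a c j₀ (K + 2)) * t ^ (c j₀ - 1)) =
      -(h j₀ * (c j₀ * |CK a c j₀ (K + 2)|) * t ^ (c j₀ - 1)) := by
    rw [show ε * (h j₀ * (c j₀ * CK a c j₀ (K + 2)) * t ^ (c j₀ - 1)) =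
      (ε * CK a c j₀ (K + 2)) * (h j₀ * c j₀ * t ^ (c j₀ - 1)) by ring, hεCs]
    ring
  rw [r1] at t1
  rw [r2] at t2
  rw [r3] at t3
  rw [r4] at t4
  have hexp : c j₀ - ((K + 1 : ℕ) : ℝ) = c j₀ - (K + 1) := by push_cast; ring
  rw [hexp] at t1
  have q1 : 3 ^ (c j₀ - (K + 1)) * N ^ (c j₀ - (K + 1)) ≤ t ^ (c j₀ - (K + 1)) := by
    rw [← Real.mul_rpow (by norm_num) hN0.le]
    exact Real.rpow_le_rpow_of_nonpos ht0 htN (by linarith)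
  have q2 : t ^ (c j₀ - (K + 1)) ≤ N ^ (c j₀ - (K + 1)) :=
    Real.rpow_le_rpow_of_nonpos hN0 hNt (by linarith)
  have q3 : κ₁ * N ^ (c j₀ - 1) ≤ t ^ (c j₀ - 1) := by
    rcases le_or_gt 1 (c j₀) with h3 | h3
    · have h4 : N ^ (c j₀ - 1) ≤ t ^ (c j₀ - 1) := Real.rpow_le_rpow hN0.le hNt (by linarith)
      have h5 : κ₁ ≤ 1 := min_le_left _ _
      calc κ₁ * N ^ (c j₀ - 1) ≤ 1 * N ^ (c j₀ - 1) := by gcongr
        _ ≤ _ := by rw [one_mul]; exact h4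
    · have h4 : (3 * N) ^ (c j₀ - 1) ≤ t ^ (c j₀ - 1) :=
        Real.rpow_le_rpow_of_nonpos ht0 htN (by linarith)
      rw [Real.mul_rpow (by norm_num) hN0.le] at h4
      have h5 : κ₁ ≤ 3 ^ (c j₀ - 1) := min_le_right _ _
      calc κ₁ * N ^ (c j₀ - 1) ≤ 3 ^ (c j₀ - 1) * N ^ (c j₀ - 1) := by gcongr
        _ ≤ _ := h4
  have q4 : t ^ (c j₀ - 1) ≤ κ₂ * N ^ (c j₀ - 1) := by
    rcases le_or_gt 1 (c j₀) with h3 | h3
    · have h4 : t ^ (c j₀ - 1) ≤ (3 * N) ^ (c j₀ - 1) := Real.rpow_le_rpow ht0.le htN (by linarith)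
      rw [Real.mul_rpow (by norm_num) hN0.le] at h4
      have h5 : 3 ^ (c j₀ - 1) ≤ κ₂ := le_max_right _ _
      calc t ^ (c j₀ - 1) ≤ 3 ^ (c j₀ - 1) * N ^ (c j₀ - 1) := h4
        _ ≤ _ := by gcongr
    · have h4 : t ^ (c j₀ - 1) ≤ N ^ (c j₀ - 1) :=
        Real.rpow_le_rpow_of_nonpos hN0 hNt (by linarith)
      calc t ^ (c j₀ - 1) ≤ 1 * N ^ (c j₀ - 1) := by rw [one_mul]; exact h4
        _ ≤ _ := by gcongr
  have hNp := Real.rpow_pos_of_pos hN0 (c j₀ - (K + 1))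
  have hNp1 := Real.rpow_pos_of_pos hN0 (c j₀ - 1)
  have htp := Real.rpow_pos_of_pos ht0 (c j₀ - (K + 1))
  have htp1 := Real.rpow_pos_of_pos ht0 (c j₀ - 1)
  have htp2 := Real.rpow_pos_of_pos ht0 (c j₀ - ((K + 2 : ℕ) : ℝ))
  refine ⟨?_, ?_, ?_, ?_, ?_, ?_⟩
  · calc min b₁ b₂ * (h j₀ * N ^ (c j₀ - (K + 1))) ≤ b₁ * (h j₀ * N ^ (c j₀ - (K + 1))) := by
          gcongr
          exact min_le_left _ _
      _ = h j₀ * |C| / 2 * (3 ^ (c j₀ - (K + 1)) * N ^ (c j₀ - (K + 1))) := by rw [hb₁]; ring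
      _ ≤ h j₀ * |C| / 2 * t ^ (c j₀ - (K + 1)) := by gcongr
      _ ≤ _ := by linarith [t1.1]
  · calc ε * gg F a h (K + 1) t ≤ 3 / 2 * (h j₀ * |C|) * t ^ (c j₀ - (K + 1)) := by
          linarith [t1.2]
      _ ≤ 3 / 2 * (h j₀ * |C|) * N ^ (c j₀ - (K + 1)) := by gcongr
      _ = d₁ * (h j₀ * N ^ (c j₀ - (K + 1))) := by rw [hd₁]; ring
      _ ≤ _ := by
          gcongr
          exact le_max_left _ _
  · have h5 : 0 ≤ h j₀ * |CK a c j₀ (K + 2)| / 2 * t ^ (c j₀ - ((K + 2 : ℕ) : ℝ)) := by positivity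
    linarith [t3.2]
  · calc min b₁ b₂ * (h j₀ * N ^ (c j₀ - 1)) ≤ b₂ * (h j₀ * N ^ (c j₀ - 1)) := by
          gcongr
          exact min_le_right _ _
      _ = h j₀ * (c j₀ * |C|) / 2 * (κ₁ * N ^ (c j₀ - 1)) := by rw [hb₂]; ring
      _ ≤ h j₀ * (c j₀ * |C|) / 2 * t ^ (c j₀ - 1) := by gcongr
      _ ≤ _ := by linarith [t2.1]
  · calc ε * DD F a h (K + 1) t ≤ 3 / 2 * (h j₀ * (c j₀ * |C|)) * t ^ (c j₀ - 1) := by
          linarith [t2.2]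
      _ ≤ 3 / 2 * (h j₀ * (c j₀ * |C|)) * (κ₂ * N ^ (c j₀ - 1)) := by gcongr
      _ = d₂ * (h j₀ * N ^ (c j₀ - 1)) := by rw [hd₂]; ring
      _ ≤ _ := by
          gcongr
          exact le_max_right _ _
  · have h5 : 0 ≤ h j₀ * (c j₀ * |CK a c j₀ (K + 2)|) / 2 * t ^ (c j₀ - 1) := by positivity
    linarith [t4.2]

end Pool.Agent.Y961.JR
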