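import Pool.Agent.Y961.JR.PGVaughan
import Pool.Agent.TH915.PW.PrimeMain

set_option autoImplicit false

/-! # Record prime gaps around the values of several generalised polynomials at a prime number -/

namespace Pool.Agent.Y961.JR

open Finset Filter
open Pool.Agent.H469R2.NK (e norm_e e_add conj_e norm_sum_neg)
open Pool.Agent.W147.PS (ff ff_compare ev_pow)
open Pool.Agent.TH915.PW (pw pw_der lower_small class_bound prime_bound abel_bound card_primes)

variable {r : ℕ} {F : Fin r → Finset ℝ} {a : Fin r → ℝ → ℝ} {c : Fin r → ℝ}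

/-- sums over primes -/
theorem vm_all (hr : 1 ≤ r) (H : Fam F a c) :
    ∃ η τ : ℝ, 0 < η ∧ η ≤ 1 / 4 ∧ 0 < τ ∧ τ ≤ 1 / 16 ∧ τ ≤ η ∧ ∃ x₀ : ℝ, ∀ N : ℕ, x₀ ≤ N →
    ∀ h : Fin r → ℤ, h ≠ 0 → (∀ j, |(h j : ℝ)| ≤ (N : ℝ) ^ η) →
    ∀ q : ℕ, 1 ≤ q → (q : ℝ) ≤ (N : ℝ) ^ η → ∀ β : ℝ, ∀ N' : ℕ, N ≤ N' → N' ≤ 2 * N →
    ‖∑ n ∈ Ioc N N', ((ArithmeticFunction.vonMangoldt n : ℝ) : ℂ) * EE F a h q β n‖ ≤
      (N : ℝ) ^ (1 - τ) := by
  choose ηj τj h1 h2 h3 h4 xj hj using vm_pos H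
  obtain ⟨η, hη, hηle⟩ := exists_min_pos hr ηj h1
  obtain ⟨τ', hτ', hτle⟩ := exists_min_pos hr τj h3
  have hne : (Finset.univ : Finset (Fin r)).Nonempty := ⟨⟨0, hr⟩, Finset.mem_univ _⟩
  refine ⟨η, min η τ', hη, (hηle ⟨0, hr⟩).trans (h2 _), lt_min hη hτ',
    (min_le_right _ _).trans (by
      have := hτle ⟨0, hr⟩
      have := h4 ⟨0, hr⟩
      have := h2 ⟨0, hr⟩
      linarith), min_le_left _ _,
    max 1 (Finset.univ.sup' hne xj), ?_⟩
  intro N hN h hh hhN q hq hqN β N' hNN' hN'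
  have hN1 : (1 : ℝ) ≤ N := (le_max_left _ _).trans hN
  have hNx : ∀ j, xj j ≤ N := fun j =>
    (Finset.le_sup' xj (Finset.mem_univ j)).trans ((le_max_right _ _).trans hN)
  have hup : ∀ j, (N : ℝ) ^ η ≤ (N : ℝ) ^ (ηj j) := fun j =>
    Real.rpow_le_rpow_of_exponent_le hN1 (hηle j)
  have hfin : ∀ j, (N : ℝ) ^ (1 - τj j) ≤ (N : ℝ) ^ (1 - min η τ') := fun j =>
    Real.rpow_le_rpow_of_exponent_le hN1 (by
      have := hτle j
      have := min_le_right η τ'
      linarith)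
  obtain ⟨j₀, hj₀, hmax⟩ := Finset.exists_max_image (Finset.univ.filter fun j => h j ≠ 0) c (by
    by_contra hcon
    rw [Finset.not_nonempty_iff_eq_empty, Finset.filter_eq_empty_iff] at hcon
    apply hh
    funext j
    have := hcon (Finset.mem_univ j)
    push Not at this
    exact this)
  rw [Finset.mem_filter] at hj₀
  have hz : ∀ j, c j₀ < c j → h j = 0 := by
    intro j hlt
    by_contra hne
    have := hmax j (Finset.mem_filter.mpr ⟨Finset.mem_univ j, hne⟩)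
    linarith
  rcases lt_or_gt_of_ne hj₀.2 with hneg | hpos
  · have k1 := hj j₀ N (hNx j₀) (-h) (by simpa using hneg) (fun j hlt => by simp [hz j hlt])
      (fun j => by
        have : (((-h) j : ℤ) : ℝ) = -(h j : ℝ) := by simp
        rw [this, abs_neg]
        exact (hhN j).trans (hup j₀)) q hq (hqN.trans (hup j₀)) (-β) N' hNN' hN'
    have k2 : ∑ n ∈ Ioc N N', ((ArithmeticFunction.vonMangoldt n : ℝ) : ℂ) * EE F a (-h) q (-β) n =
        (starRingEnd ℂ) (∑ n ∈ Ioc N N', ((ArithmeticFunction.vonMangoldt n : ℝ) : ℂ) *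
          EE F a h q β n) := by
      rw [map_sum]
      apply Finset.sum_congr rfl
      intro n _
      rw [map_mul, Complex.conj_ofReal]
      unfold EE
      rw [conj_e, gg_neg]
      congr 2
      ring
    rw [k2, Complex.norm_conj] at k1
    exact k1.trans (hfin j₀)
  · exact (hj j₀ N (hNx j₀) h hpos hz (fun j => (hhN j).trans (hup j₀)) q hq
      (hqN.trans (hup j₀)) β N' hNN' hN').trans (hfin j₀)

set_option maxHeartbeats 4000000 in
/-- short range of the ratio -/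
theorem primes_gen_half (hr : 1 ≤ r) (H : Fam F a c) (d b : ℕ) (hd : 0 < d) (hb : b.Coprime d)
    (ρ : ℝ) (hρ : 0 < ρ) (hρ1 : ρ ≤ 1 / 2) :
    ∃ κ : ℝ, 0 < κ ∧ ∃ Z₀ : ℝ, ∀ Z : ℝ, Z₀ ≤ Z →
    ∃ p : ℕ, p.Prime ∧ p ≡ b [MOD d] ∧ Z < p ∧ (p : ℝ) ≤ (1 + ρ) * Z ∧
      ∀ j, ∀ q : ℕ, q.Prime → κ * ff Z < |(q : ℝ) - ∑ x ∈ F j, a j x * (p : ℝ) ^ x| := by
  classical
  obtain ⟨η, τ, hη, hη4, hτ, hτ16, hτη, x₀, hvm⟩ := vm_all hr H
  obtain ⟨η₁, hη₁, hη₁c⟩ := exists_min_pos hr (fun j => c j / 2) (fun j => by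
    have := H.cpos j
    positivity)
  set ω : ℝ := min (τ / 8) η₁ with hω
  have hω0 : 0 < ω := lt_min (by positivity) hη₁
  have hωτ : ω ≤ τ / 8 := min_le_left _ _
  have hωη₁ : ω ≤ η₁ := min_le_right _ _
  obtain ⟨κ, hκ, hcrit⟩ := crit_scaledJ r hr ω hω0 (by linarith)
  have hlogev : ∀ᶠ Z : ℝ in atTop, Real.log (2 * Z) ≤ Z ^ (1 / 4 : ℝ) := by
    have e1 := (isLittleO_log_rpow_atTop (show (0 : ℝ) < 1 / 8 by norm_num)).def
      (show (0 : ℝ) < 1 by norm_num)
    have e2 : Tendsto (fun Z : ℝ => 2 * Z) atTop atTop := tendsto_id.const_mul_atTop (by norm_num)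
    filter_upwards [e2.eventually e1, eventually_ge_atTop (1 : ℝ),
      ev_pow (1 / 8) (1 / 4) (2 ^ (1 / 8 : ℝ)) (by norm_num)] with Z e3 e4 e5
    rw [Real.norm_eq_abs, Real.norm_eq_abs, abs_of_nonneg (Real.log_nonneg (by linarith)),
      abs_of_nonneg (by positivity), one_mul, Real.mul_rpow (by norm_num) (by linarith)] at e3
    linarith
  obtain ⟨t₁, ht₁⟩ := eventually_atTop.mp (eventually_all.mpr (val_lower H))
  refine ⟨κ, hκ, ?_⟩
  apply eventually_atTop.mp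
  filter_upwards [hcrit, card_primes d hd b hb ρ ω hρ (by linarith) hω0, hlogev,
    eventually_ge_atTop (4 : ℝ), eventually_ge_atTop (2 * x₀), eventually_ge_atTop t₁,
    ev_pow (3 / 4) (1 - τ) 4 (by linarith), ev_pow ω η 2 (by linarith),
    ev_pow (1 - τ) (1 - ω - ω) 2 (by linarith)]
    with Z hcr hcard hlog hZ4 hZx hZt hp1 hp2 hp3
  have hZ0 : 0 < Z := by linarith
  have hZ1 : 1 ≤ Z := by linarith
  set m₀ : ℕ := ⌊Z⌋₊ with hm₀
  set m₁ : ℕ := ⌊(1 + ρ) * Z⌋₊ with hm₁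
  have hm04 : 4 ≤ m₀ := Nat.le_floor (by exact_mod_cast hZ4)
  have hm0le : (m₀ : ℝ) ≤ Z := Nat.floor_le hZ0.le
  have hm0lt : Z < m₀ + 1 := Nat.lt_floor_add_one _
  have hm0half : Z / 2 ≤ (m₀ : ℝ) := by linarith
  have hm0pos : (0 : ℝ) < m₀ := by linarith
  have hm1' : (m₁ : ℝ) ≤ (1 + ρ) * Z := Nat.floor_le (by positivity)
  have hm1 : (m₁ : ℝ) ≤ 2 * Z := by nlinarith
  set Q : Finset ℕ := (Ioc m₀ m₁).filter (fun p => p.Prime ∧ p ≡ b [MOD d]) with hQ
  have hQpos : (0 : ℝ) < Q.card := lt_of_lt_of_le (by positivity) hcard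
  have hQne : Q.Nonempty := by
    rw [← Finset.card_pos]
    exact_mod_cast hQpos
  have hQmem : ∀ p ∈ Q, p.Prime ∧ p ≡ b [MOD d] ∧ Z < p ∧ (p : ℝ) ≤ (1 + ρ) * Z := by
    intro p hp
    rw [hQ, Finset.mem_filter, Finset.mem_Ioc] at hp
    refine ⟨hp.2.1, hp.2.2, ?_, ?_⟩
    · exact (Nat.floor_lt hZ0.le).mp hp.1.1
    · have : (p : ℝ) ≤ m₁ := by exact_mod_cast hp.1.2
      linarith
  have hm01 : m₀ < m₁ := by
    obtain ⟨p, hp⟩ := hQne
    rw [hQ, Finset.mem_filter, Finset.mem_Ioc] at hp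
    omega
  have hωη : Z ^ ω ≤ (m₀ : ℝ) ^ η := by
    have h1 : (Z / 2) ^ η ≤ (m₀ : ℝ) ^ η := Real.rpow_le_rpow (by positivity) hm0half hη.le
    have h2 : Z ^ η / 2 ≤ (Z / 2) ^ η := by
      rw [Real.div_rpow hZ0.le (by norm_num)]
      apply div_le_div_of_nonneg_left (by positivity) (by positivity)
      calc (2 : ℝ) ^ η ≤ 2 ^ (1 : ℝ) :=
            Real.rpow_le_rpow_of_exponent_le (by norm_num) (by linarith)
        _ = 2 := Real.rpow_one 2
    linarith
  obtain ⟨p, hp, hp2'⟩ := hcr ℕ Q (fun p j => ∑ x ∈ F j, a j x * (p : ℝ) ^ x) hQne (by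
      intro p hp j
      have h1 := (hQmem p hp).2.2.1
      exact ht₁ p (by linarith) j Z hZ1 h1.le ω hω0 (hωη₁.trans (hη₁c j))) (by
      intro q hq hqZ h hh hhZ
      have hhZ' : ∀ j, |(h j : ℝ)| ≤ (m₀ : ℝ) ^ η := fun j => (hhZ j).trans hωη
      have hqZ' : (q : ℝ) ≤ (m₀ : ℝ) ^ η := hqZ.trans hωη
      have e0 : ∀ p ∈ Q, e (∑ j, (h j : ℝ) * ((∑ x ∈ F j, a j x * (p : ℝ) ^ x) / q)) =
          EE F a h q 0 p := by
        intro p _
        unfold EE
        congr 1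
        rw [gg_zero, zero_mul, add_zero, Finset.sum_div]
        apply Finset.sum_congr rfl
        intro j _
        ring
      rw [sum_congr rfl e0]
      set E : ℝ := 2 * Z ^ (1 - τ) with hE
      have hE0 : 0 ≤ E := by positivity
      set G : ℕ → ℂ := fun n => (((if n.Prime then Real.log n else 0 : ℝ)) : ℂ) *
        EE F a h q 0 n with hG
      have hcls : ∀ t : ℕ, m₀ ≤ t → t ≤ m₁ →
          ‖∑ n ∈ (Ioc m₀ t).filter (fun n => n ≡ b [MOD d]), G n‖ ≤ E := by
        intro t ht1 ht2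
        have htr : (t : ℝ) ≤ 2 * Z := by
          have : (t : ℝ) ≤ m₁ := by exact_mod_cast ht2
          linarith
        have ht0 : 1 ≤ t := by omega
        have htlog : 2 * √(t : ℝ) * Real.log t ≤ Z ^ (1 - τ) := by
          have h7 : √(t : ℝ) ≤ 2 * Z ^ (1 / 2 : ℝ) := by
            rw [← Real.sqrt_eq_rpow]
            calc √(t : ℝ) ≤ √(2 ^ 2 * Z) := Real.sqrt_le_sqrt (by linarith)
              _ = 2 * √Z := by rw [Real.sqrt_mul (by norm_num), Real.sqrt_sq (by norm_num)]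
          have h8 : Real.log (t : ℝ) ≤ Z ^ (1 / 4 : ℝ) := by
            refine le_trans ?_ hlog
            apply Real.log_le_log _ htr
            exact_mod_cast ht0
          have h9 : 0 ≤ Real.log (t : ℝ) := Real.log_nonneg (by exact_mod_cast ht0)
          calc 2 * √(t : ℝ) * Real.log t ≤ 2 * (2 * Z ^ (1 / 2 : ℝ)) * Z ^ (1 / 4 : ℝ) := by gcongr
            _ = 4 * (Z ^ (1 / 2 : ℝ) * Z ^ (1 / 4 : ℝ)) := by ring
            _ = 4 * Z ^ (3 / 4 : ℝ) := by rw [← Real.rpow_add hZ0]; norm_num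
            _ ≤ _ := hp1
        apply class_bound (Ioc m₀ t) G d hd b E
        intro j _
        have ht2m : t ≤ 2 * m₀ := by
          have h1 : (t : ℝ) ≤ (1 + ρ) * Z := by
            have : (t : ℝ) ≤ m₁ := by exact_mod_cast ht2
            linarith
          have h2 : (t : ℝ) ≤ 2 * m₀ := by nlinarith
          exact_mod_cast h2
        have hsplit : ‖∑ n ∈ Ioc m₀ t, ((ArithmeticFunction.vonMangoldt n : ℝ) : ℂ) *
            EE F a h q ((j : ℝ) / d) n‖ ≤ Z ^ (1 - τ) := by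
          refine (hvm m₀ (by linarith) h hh hhZ' q hq hqZ' ((j : ℝ) / d) t ht1 ht2m).trans ?_
          exact Real.rpow_le_rpow hm0pos.le hm0le (by linarith)
        have h2 := prime_bound m₀ t ht0 (fun n => EE F a h q ((j : ℝ) / d) n)
          (fun n => (norm_e _).le) _ hsplit
        have h3 : ∑ n ∈ Ioc m₀ t, G n * e ((j : ℝ) / d * n) =
            ∑ n ∈ Ioc m₀ t, (((if n.Prime then Real.log n else 0 : ℝ)) : ℂ) *
              EE F a h q ((j : ℝ) / d) n := by
          refine sum_congr rfl fun n _ => ?_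
          rw [hG]
          simp only
          rw [mul_assoc]
          unfold EE
          rw [← e_add]
          congr 2
          ring
        rw [h3]
        refine h2.trans ?_
        rw [hE]
        linarith
      set A : ℕ → ℂ := fun n => if n ≡ b [MOD d] then G n else 0 with hA
      set w : ℕ → ℝ := fun n => (Real.log n)⁻¹ with hw
      have hlogpos : ∀ n : ℕ, m₀ < n → 1 ≤ Real.log n := by
        intro n hn
        rw [Real.le_log_iff_exp_le (by
          have : 0 < n := by omega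
          exact_mod_cast this)]
        have h1 := Real.exp_one_lt_d9
        have h2 : (5 : ℝ) ≤ n := by exact_mod_cast (by omega : 5 ≤ n)
        linarith
      have hab := abel_bound w A m₀ E (fun n hn => by
          have := hlogpos n hn
          rw [hw]
          positivity) (fun n hn => by
          have h1 := hlogpos n hn
          rw [hw]
          simp only
          apply inv_anti₀ (by linarith)
          apply Real.log_le_log
          · have : 0 < n := by omega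
            exact_mod_cast this
          · push_cast
            linarith) m₁ hm01 (fun t ht1 ht2 => by
          have h1 := hcls t ht1.le ht2
          rw [sum_filter] at h1
          exact h1)
      have hsum : ∑ p ∈ Q, EE F a h q 0 p = ∑ i ∈ Ioc m₀ m₁, (w i : ℂ) * A i := by
        rw [hQ, sum_filter]
        refine sum_congr rfl fun n hn => ?_
        have hn0 := hlogpos n (Finset.mem_Ioc.mp hn).1
        rw [hA, hw, hG]
        simp only
        by_cases h1 : n ≡ b [MOD d]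
        · by_cases h2 : n.Prime
          · rw [if_pos ⟨h2, h1⟩, if_pos h1, if_pos h2, ← mul_assoc]
            rw [← Complex.ofReal_mul, inv_mul_cancel₀ (by linarith), Complex.ofReal_one, one_mul]
          · rw [if_neg (fun h3 => h2 h3.1), if_pos h1, if_neg h2]
            simp
        · rw [if_neg (fun h3 => h1 h3.2), if_neg h1, mul_zero]
      rw [hsum]
      refine hab.trans ?_
      have hw1 : w (m₀ + 1) ≤ 1 := by
        rw [hw]
        exact inv_le_one_of_one_le₀ (hlogpos (m₀ + 1) (by omega))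
      calc w (m₀ + 1) * E ≤ 1 * E := mul_le_mul_of_nonneg_right hw1 hE0
        _ = 2 * Z ^ (1 - τ) := by rw [one_mul]
        _ ≤ Z ^ (1 - ω - ω) := hp3
        _ = Z ^ (1 - ω) * Z ^ (-ω) := by
            rw [← Real.rpow_add hZ0]; congr 1
        _ ≤ _ := by gcongr)
  obtain ⟨h1, h2, h3, h4⟩ := hQmem p hp
  exact ⟨p, h1, h2, h3, h4, hp2'⟩

/-- **Several generalised polynomials at a prime number.** -/
theorem primes_gen (hr : 1 ≤ r) (H : Fam F a c) (d b : ℕ) (hd : 0 < d) (hb : b.Coprime d) (ρ : ℝ)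
    (hρ : 0 < ρ) :
    ∃ κ : ℝ, 0 < κ ∧ ∃ Z₀ : ℝ, ∀ Z : ℝ, Z₀ ≤ Z →
    ∃ p : ℕ, p.Prime ∧ p ≡ b [MOD d] ∧ Z < p ∧ (p : ℝ) ≤ (1 + ρ) * Z ∧
      ∀ j, ∀ q : ℕ, q.Prime → κ * ff Z < |(q : ℝ) - ∑ x ∈ F j, a j x * (p : ℝ) ^ x| := by
  obtain ⟨κ, hκ, Z₀, h⟩ := primes_gen_half hr H d b hd hb (min ρ (1 / 2))
    (lt_min hρ (by norm_num)) (min_le_right _ _)
  refine ⟨κ, hκ, max Z₀ 0, fun Z hZ => ?_⟩
  obtain ⟨p, h1, h2, h3, h4, h5⟩ := h Z ((le_max_left _ _).trans hZ)
  have hZ0 : 0 ≤ Z := (le_max_right _ _).trans hZ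
  refine ⟨p, h1, h2, h3, h4.trans ?_, h5⟩
  have := min_le_left ρ (1 / 2)
  gcongr

end Pool.Agent.Y961.JR
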