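import Pool.Agent.Y961.JR.PGPhase

set_option autoImplicit false

/-! # Bounds for the sums of type I and of type II -/

namespace Pool.Agent.Y961.JR

open Finset Filter
open Pool.Agent.H469R2.NK (e norm_e e_add norm_sum_neg)
open Pool.Agent.W147.PS (ff ff_compare ev_pow)
open Pool.Agent.TH915.PW (pw pw_der lower_small Hy)

variable {r : ℕ} {F : Fin r → Finset ℝ} {a : Fin r → ℝ → ℝ} {c : Fin r → ℝ}

lemma norm_eps (ε : ℝ) (hε : ε = 1 ∨ ε = -1) (x : ℕ → ℝ) (L : ℕ) :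
    ‖∑ n ∈ range L, e (ε * x n)‖ = ‖∑ n ∈ range L, e (x n)‖ := by
  rcases hε with h | h
  · simp_rw [h, one_mul]
  · simp_rw [h, neg_one_mul]
    exact norm_sum_neg x L

lemma sum_Ioc_range (A B : ℕ) (f : ℕ → ℂ) :
    ∑ n ∈ Ioc A B, f n = ∑ n ∈ range (B - A), f (A + 1 + n) := by
  have e2 : Ioc A B = Ico (A + 1) (B + 1) := by
    ext x; simp only [mem_Ioc, mem_Ico]; omega
  rw [e2, Finset.sum_Ico_eq_sum_range]
  rw [show B + 1 - (A + 1) = B - A by omega]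

/-- sums of type I -/
lemma sum_I (H : Fam F a c) (j₀ : Fin r) (K : ℕ) (hK1 : 1 ≤ K) (hK : 4 * (c j₀ + 1) ≤ K) (σ : ℝ)
    (hσ : 0 < σ) (hσ1 : σ ≤ 1) (hσc : σ ≤ c j₀ / 4) :
    ∃ η₀ : ℝ, 0 < η₀ ∧ ∀ η : ℝ, 0 < η → η ≤ η₀ → ∃ x₀ : ℝ, ∀ N : ℕ, x₀ ≤ N →
    ∀ h : Fin r → ℤ, 0 < h j₀ → (∀ j, c j₀ < c j → h j = 0) → (∀ j, |(h j : ℝ)| ≤ (N : ℝ) ^ η) →
    ∀ q : ℕ, 1 ≤ q → (q : ℝ) ≤ (N : ℝ) ^ η → ∀ β : ℝ, ∀ μ : ℕ, 1 ≤ μ → μ * μ ≤ N →
    ∀ b : ℕ, b ≤ 2 * N / μ →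
    ‖∑ l ∈ Ioc (N / μ) b, e (gg F a h 0 (μ * l) / q + β * l)‖ ≤
      2 * (N / μ) * (N : ℝ) ^ (-(σ / (8 * K * 2 ^ K))) := by
  have hc := H.cpos j₀
  have hK0 : (0 : ℝ) < K := by exact_mod_cast hK1
  obtain ⟨η₁, hη₁, c₁, c₂, ε, hc₁, hc₂, hε, hgg⟩ := gg_high H j₀ K (by linarith)
  obtain ⟨X₀, hX₀⟩ := core K hK1 σ c₁ c₂ hσ hσ1 hc₁ hc₂
  refine ⟨min η₁ (min (c j₀ / 4) (1 / 2)), lt_min hη₁ (lt_min (by positivity) (by norm_num)), ?_⟩
  intro η hη hηle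
  have hη1 : η ≤ η₁ := hηle.trans (min_le_left _ _)
  have hη2 : η ≤ c j₀ / 4 := hηle.trans ((min_le_right _ _).trans (min_le_left _ _))
  have hη3 : η ≤ 1 / 2 := hηle.trans ((min_le_right _ _).trans (min_le_right _ _))
  have hev := hgg.and ((eventually_ge_atTop (max 1 (X₀ ^ 2))).and
    ((ev_pow σ (c j₀ - η) 2 (by linarith)).and
      (ev_pow (η + c j₀) (K / 2) (2 ^ (K + 1)) (by linarith))))
  obtain ⟨x₀, hx₀⟩ := eventually_atTop.mp hev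
  refine ⟨x₀, ?_⟩
  intro N hN h hpos hz hh q hq hqN β μ hμ hμN b hb
  obtain ⟨g1, g2, g3, g4⟩ := hx₀ N hN
  have hN1 : (1 : ℝ) ≤ N := (le_max_left _ _).trans g2
  have hNX : X₀ ^ 2 ≤ (N : ℝ) := (le_max_right _ _).trans g2
  have hN0 : (0 : ℝ) < N := by linarith
  have hμ0 : (0 : ℝ) < μ := by exact_mod_cast hμ
  have hμ1 : (1 : ℝ) ≤ μ := by exact_mod_cast hμ
  have hq0 : (0 : ℝ) < q := by exact_mod_cast hq
  have hq1 : (1 : ℝ) ≤ q := by exact_mod_cast hq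
  have hh1 : (1 : ℝ) ≤ h j₀ := by exact_mod_cast hpos
  have hhN : (h j₀ : ℝ) ≤ (N : ℝ) ^ η := (le_abs_self _).trans (hh j₀)
  have hNη := Real.rpow_pos_of_pos hN0 η
  set X : ℕ := N / μ + 1 with hX
  have hμle : μ ≤ N := le_trans (Nat.le_mul_of_pos_left _ (by omega)) hμN
  have hX1 : (N : ℝ) / μ < X := by
    rw [div_lt_iff₀ hμ0, hX]
    exact_mod_cast (by rw [mul_comm]; exact Nat.lt_mul_div_succ N (by omega))
  have hX2 : (X : ℝ) ≤ 2 * (N / μ) := by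
    have h1 : ((N / μ : ℕ) : ℝ) ≤ (N : ℝ) / μ := Nat.cast_div_le
    have h2 : (1 : ℝ) ≤ (N : ℝ) / μ := by
      rw [le_div_iff₀ hμ0, one_mul]
      exact_mod_cast hμle
    rw [hX]
    push_cast
    linarith
  have hX0 : (0 : ℝ) < X := lt_trans (by positivity) hX1
  have hsq : √(N : ℝ) ≤ N / μ := by
    rw [le_div_iff₀ hμ0]
    have h1 : (μ : ℝ) ≤ √(N : ℝ) := by
      apply Real.le_sqrt_of_sq_le
      have : ((μ * μ : ℕ) : ℝ) ≤ N := by exact_mod_cast hμN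
      push_cast at this
      nlinarith
    calc √(N : ℝ) * μ ≤ √(N : ℝ) * √(N : ℝ) := by gcongr
      _ = N := Real.mul_self_sqrt hN0.le
  have hXs : √(N : ℝ) ≤ X := hsq.trans hX1.le
  have hXX₀ : X₀ ≤ X := by
    refine le_trans ?_ hXs
    exact Real.le_sqrt_of_sq_le hNX
  have hX2N : (X : ℝ) ≤ 2 * N := by
    refine hX2.trans ?_
    have : (N : ℝ) / μ ≤ N := div_le_self hN0.le hμ1
    linarith
  set lam : ℝ := h j₀ * (N : ℝ) ^ (c j₀ - (K + 1)) * (μ : ℝ) ^ (K + 1) / q with hlam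
  have hlam2 : lam = h j₀ / q * (N : ℝ) ^ (c j₀) * ((μ : ℝ) / N) ^ (K + 1) := by
    have h1 : (N : ℝ) ^ ((K : ℝ) + 1) = (N : ℝ) ^ (K + 1 : ℕ) := by
      rw [← Real.rpow_natCast]
      push_cast
      rfl
    rw [hlam, Real.rpow_sub hN0, h1, div_pow]
    field_simp
  have hy1 : 1 / (X : ℝ) ≤ μ / N := by
    rw [div_le_div_iff₀ hX0 hN0, one_mul]
    rw [div_lt_iff₀ hμ0] at hX1
    linarith
  have hy2 : (μ : ℝ) / N ≤ 2 / X := by
    rw [div_le_div_iff₀ hN0 hX0]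
    have : (X : ℝ) * μ ≤ 2 * (N / μ) * μ := mul_le_mul_of_nonneg_right hX2 hμ0.le
    have h2 : 2 * ((N : ℝ) / μ) * μ = 2 * N := by field_simp
    linarith
  have hlow : (X : ℝ) ^ (σ - K - 1) ≤ lam := by
    have h1 : (X : ℝ) ^ (σ - K - 1) = (X : ℝ) ^ σ * (1 / (X : ℝ)) ^ (K + 1) := by
      have h2 : σ - K - 1 = σ - ((K + 1 : ℕ) : ℝ) := by push_cast; ring
      rw [h2, Real.rpow_sub hX0, Real.rpow_natCast, div_pow, one_pow]
      ring
    have h3 : (X : ℝ) ^ σ ≤ (N : ℝ) ^ (c j₀ - η) := by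
      calc (X : ℝ) ^ σ ≤ (2 * N) ^ σ := Real.rpow_le_rpow hX0.le hX2N hσ.le
        _ = 2 ^ σ * (N : ℝ) ^ σ := Real.mul_rpow (by norm_num) hN0.le
        _ ≤ 2 * (N : ℝ) ^ σ := by
            apply mul_le_mul_of_nonneg_right _ (by positivity)
            calc (2 : ℝ) ^ σ ≤ 2 ^ (1 : ℝ) := Real.rpow_le_rpow_of_exponent_le (by norm_num) hσ1
              _ = 2 := Real.rpow_one 2
        _ ≤ _ := g3
    have h4 : (N : ℝ) ^ (c j₀ - η) ≤ h j₀ / q * (N : ℝ) ^ (c j₀) := by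
      rw [Real.rpow_sub hN0, div_eq_mul_inv, mul_comm]
      apply mul_le_mul_of_nonneg_right _ (by positivity)
      rw [inv_eq_one_div]
      exact div_le_div₀ (by linarith) hh1 hq0 hqN
    rw [h1, hlam2]
    calc (X : ℝ) ^ σ * (1 / (X : ℝ)) ^ (K + 1) ≤
          (h j₀ / q * (N : ℝ) ^ (c j₀)) * ((μ : ℝ) / N) ^ (K + 1) := by
          apply mul_le_mul (h3.trans h4) _ (by positivity) (by positivity)
          exact pow_le_pow_left₀ (by positivity) hy1 _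
      _ = _ := rfl
  have hupp : lam ≤ (X : ℝ) ^ (-1 : ℝ) := by
    have h1 : h j₀ / q ≤ (N : ℝ) ^ η := by
      rw [div_le_iff₀ hq0]
      nlinarith
    have h2 : (N : ℝ) ^ (η + c j₀) * 2 ^ (K + 1) ≤ (X : ℝ) ^ K := by
      calc (N : ℝ) ^ (η + c j₀) * 2 ^ (K + 1) ≤ (N : ℝ) ^ ((K : ℝ) / 2) := by
            rw [mul_comm]; exact g4
        _ = (√(N : ℝ)) ^ K := by
            rw [Real.sqrt_eq_rpow, ← Real.rpow_natCast, ← Real.rpow_mul hN0.le]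
            congr 1
            ring
        _ ≤ _ := pow_le_pow_left₀ (Real.sqrt_nonneg _) hXs K
    rw [hlam2, Real.rpow_neg_one]
    calc h j₀ / q * (N : ℝ) ^ (c j₀) * ((μ : ℝ) / N) ^ (K + 1) ≤
          (N : ℝ) ^ η * (N : ℝ) ^ (c j₀) * (2 / X) ^ (K + 1) := by gcongr
      _ = (N : ℝ) ^ (η + c j₀) * 2 ^ (K + 1) / (X : ℝ) ^ (K + 1) := by
          rw [Real.rpow_add hN0, div_pow]
          ring
      _ ≤ (X : ℝ) ^ K / (X : ℝ) ^ (K + 1) := by gcongr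
      _ = (X : ℝ)⁻¹ := by
          rw [pow_succ]
          field_simp
  rcases le_or_gt b (N / μ) with hbN | hbN
  · rw [Ioc_eq_empty (by omega), sum_empty, norm_zero]
    positivity
  have hb1 : μ * b ≤ 2 * N := by
    calc μ * b ≤ μ * (2 * N / μ) := Nat.mul_le_mul_left _ hb
      _ ≤ 2 * N := Nat.mul_div_le _ _
  have hL : b - N / μ ≤ X := by
    have h2 : 2 * N / μ < 2 * (N / μ) + 2 := by
      rw [Nat.div_lt_iff_lt_mul (by omega)]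
      have := Nat.div_add_mod N μ
      have := Nat.mod_lt N (show 0 < μ by omega)
      nlinarith
    omega
  set L : ℕ := b - N / μ with hLdef
  set u : ℝ := ((N / μ + 1 : ℕ) : ℝ) with hu
  have huL : u + L = b + 1 := by
    rw [hu, hLdef, Nat.cast_sub hbN.le]
    push_cast
    ring
  have hHy := hy_I H j₀ K hK1 c₁ c₂ ε h (N : ℝ) u (u + L) q μ hq hμ β hN0
    (fun t ht1 ht2 => by
      obtain ⟨k1, k2, k3, _⟩ := g1 t ht1 ht2 η hη hη1 h hpos hz hh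
      exact ⟨k1, k2, k3⟩)
    (by
      have h1 : N < μ * (N / μ + 1) := by
        have := Nat.lt_mul_div_succ N (show 0 < μ by omega)
        exact this
      have h2 : (N : ℝ) ≤ ((μ * (N / μ + 1) : ℕ) : ℝ) := by exact_mod_cast h1.le
      rw [Nat.cast_mul] at h2
      exact h2)
    (by
      rw [huL]
      have h1 : μ * (b + 1) ≤ 3 * N := by
        rw [Nat.mul_add, mul_one]
        omega
      have h2 : ((μ * (b + 1) : ℕ) : ℝ) ≤ ((3 * N : ℕ) : ℝ) := by exact_mod_cast h1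
      push_cast at h2
      exact h2)
  have hcore := hX₀ X hXX₀ lam hlow hupp u (u + L) _ hHy u L hL le_rfl le_rfl
  have hsum : ‖∑ l ∈ Ioc (N / μ) b, e (gg F a h 0 (μ * l) / q + β * l)‖ =
      ‖∑ n ∈ range L, e (ph F a h ε q β μ μ 0 0 (u + n))‖ := by
    have h1 : ∀ n : ℕ, ph F a h ε q β μ μ 0 0 (u + n) =
        ε * (gg F a h 0 (μ * ((N / μ + 1 + n : ℕ) : ℝ)) / q + β * ((N / μ + 1 + n : ℕ) : ℝ)) := by
      intro n
      unfold ph
      rw [hu]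
      push_cast
      simp only [pow_zero, one_mul, zero_mul, sub_zero, if_true]
    simp_rw [h1]
    rw [norm_eps ε hε (fun n => gg F a h 0 (μ * ((N / μ + 1 + n : ℕ) : ℝ)) / q +
      β * ((N / μ + 1 + n : ℕ) : ℝ)) L, sum_Ioc_range]
  rw [hsum]
  refine hcore.trans ?_
  have hτ : 0 < σ / (4 * K * 2 ^ K) := by positivity
  rw [sub_eq_add_neg, Real.rpow_add hX0, Real.rpow_one]
  have h5 : (X : ℝ) ^ (-(σ / (4 * K * 2 ^ K))) ≤ (N : ℝ) ^ (-(σ / (8 * K * 2 ^ K))) := by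
    calc (X : ℝ) ^ (-(σ / (4 * K * 2 ^ K))) ≤ (√(N : ℝ)) ^ (-(σ / (4 * K * 2 ^ K))) :=
          Real.rpow_le_rpow_of_nonpos (Real.sqrt_pos.mpr hN0) hXs (by linarith)
      _ = (N : ℝ) ^ (-(σ / (8 * K * 2 ^ K))) := by
          rw [Real.sqrt_eq_rpow, ← Real.rpow_mul hN0.le]
          congr 1
          field_simp
          ring
  gcongr

/-- differenced sums of type II -/
lemma sum_II (H : Fam F a c) (j₀ : Fin r) (K : ℕ) (hK1 : 1 ≤ K) (hK : 4 * (c j₀ + 1) ≤ K) (σ : ℝ)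
    (hσ : 0 < σ) (hσ1 : σ ≤ 1) (hσc : σ ≤ c j₀ / 4) :
    ∃ η₀ : ℝ, 0 < η₀ ∧ ∀ η : ℝ, 0 < η → η ≤ η₀ → ∃ x₀ : ℝ, ∀ N : ℕ, x₀ ≤ N →
    ∀ h : Fin r → ℤ, 0 < h j₀ → (∀ j, c j₀ < c j → h j = 0) → (∀ j, |(h j : ℝ)| ≤ (N : ℝ) ^ η) →
    ∀ q : ℕ, 1 ≤ q → (q : ℝ) ≤ (N : ℝ) ^ η → ∀ β : ℝ, ∀ M L l l' A B : ℕ, N < (2 * M) ^ 4 →
    1 ≤ L → M * L ≤ 2 * N → L < l' → l' < l → l ≤ 2 * L → M ≤ A → B ≤ 2 * M → N < (A + 1) * l' →
    B * l ≤ 2 * N → (L : ℝ) * (N : ℝ) ^ (-η) ≤ (l : ℝ) - l' →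
    ‖∑ m ∈ Ioc A B, e ((gg F a h 0 (l * m) - gg F a h 0 (l' * m)) / q + β * m)‖ ≤
      (M : ℝ) ^ (1 - σ / (4 * K * 2 ^ K)) := by
  have hc := H.cpos j₀
  have hK0 : (0 : ℝ) < K := by exact_mod_cast hK1
  obtain ⟨η₁, hη₁, c₁, c₂, ε, hc₁, hc₂, hε, hgg⟩ := gg_high H j₀ K (by linarith)
  obtain ⟨X₀, hX₀⟩ := core K hK1 σ (c₁ * 3⁻¹ ^ K) c₂ hσ hσ1 (by positivity) hc₂
  refine ⟨min η₁ (min (c j₀ / 8) (1 / 2)), lt_min hη₁ (lt_min (by positivity) (by norm_num)), ?_⟩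
  intro η hη hηle
  have hη1 : η ≤ η₁ := hηle.trans (min_le_left _ _)
  have hη2 : η ≤ c j₀ / 8 := hηle.trans ((min_le_right _ _).trans (min_le_left _ _))
  have hη3 : η ≤ 1 / 2 := hηle.trans ((min_le_right _ _).trans (min_le_right _ _))
  have hev := hgg.and ((eventually_ge_atTop (max 1296 ((2 * X₀) ^ 4))).and
    ((ev_pow σ (c j₀ - 2 * η) 8 (by linarith)).and
      (ev_pow (η + c j₀) (K / 4) (2 ^ (K + 1)) (by linarith))))
  obtain ⟨x₀, hx₀⟩ := eventually_atTop.mp hev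
  refine ⟨x₀, ?_⟩
  intro N hN h hpos hz hh q hq hqN β M L l l' A B hNM hL1 hML hLl' hll hl2 hA hB hNA hBl hdist
  obtain ⟨g1, g2, g3, g4⟩ := hx₀ N hN
  have hN1296 : (1296 : ℝ) ≤ N := (le_max_left _ _).trans g2
  have hN1296n : 1296 ≤ N := by exact_mod_cast hN1296
  have hNX : (2 * X₀) ^ 4 ≤ (N : ℝ) := (le_max_right _ _).trans g2
  have hN0 : (0 : ℝ) < N := by linarith
  have hN1 : (1 : ℝ) ≤ N := by linarith
  have hM4 : 4 ≤ M := by
    by_contra hcon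
    have h1 : (2 * M) ^ 4 ≤ 6 ^ 4 := Nat.pow_le_pow_left (by omega) 4
    norm_num at h1
    omega
  have hM0 : (0 : ℝ) < M := by
    have : 0 < M := by omega
    exact_mod_cast this
  have hM1 : (1 : ℝ) ≤ M := by exact_mod_cast (by omega : 1 ≤ M)
  have hM4r : (4 : ℝ) ≤ M := by exact_mod_cast hM4
  have hL0 : (0 : ℝ) < L := by exact_mod_cast hL1
  have hL1r : (1 : ℝ) ≤ L := by exact_mod_cast hL1
  rcases Nat.lt_or_ge A B with hAB | hAB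
  swap
  · rw [Ioc_eq_empty (by omega), sum_empty, norm_zero]
    positivity
  have hq0 : (0 : ℝ) < q := by exact_mod_cast hq
  have hq1 : (1 : ℝ) ≤ q := by exact_mod_cast hq
  have hh1 : (1 : ℝ) ≤ h j₀ := by exact_mod_cast hpos
  have hhN : (h j₀ : ℝ) ≤ (N : ℝ) ^ η := (le_abs_self _).trans (hh j₀)
  have hNη := Real.rpow_pos_of_pos hN0 η
  have hMLr : (M : ℝ) * L ≤ 2 * N := by exact_mod_cast hML
  have hM2N : (M : ℝ) ≤ 2 * N := le_trans (by nlinarith) hMLr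
  have h4ML : (N : ℝ) ≤ 4 * (M * L) := by
    have h1 : (A + 1) * l' ≤ 2 * M * (2 * L) := Nat.mul_le_mul (by omega) (by omega)
    have h2 : N ≤ 2 * M * (2 * L) := hNA.le.trans h1
    have h3 : (N : ℝ) ≤ ((2 * M * (2 * L) : ℕ) : ℝ) := by exact_mod_cast h2
    push_cast at h3
    linarith
  have hNM4 : (N : ℝ) ≤ (2 * (M : ℝ)) ^ 4 := by exact_mod_cast hNM.le
  have hMX₀ : X₀ ≤ M := by
    by_contra hcon
    push Not at hcon
    have h1 : (2 * (M : ℝ)) ^ 4 < (2 * X₀) ^ 4 := pow_lt_pow_left₀ (by linarith) (by positivity)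
      (by norm_num)
    linarith
  have hroot : (N : ℝ) ^ (1 / 4 : ℝ) ≤ 2 * M := by
    have h3 : (N : ℝ) ^ ((1 : ℝ) / 4) ≤ ((2 * (M : ℝ)) ^ 4) ^ ((1 : ℝ) / 4) :=
      Real.rpow_le_rpow hN0.le hNM4 (by norm_num)
    refine h3.trans (le_of_eq ?_)
    rw [← Real.rpow_natCast, ← Real.rpow_mul (by positivity)]
    norm_num
  have hdpos : (0 : ℝ) < (l : ℝ) - l' := by
    have : (l' : ℝ) < l := by exact_mod_cast hll
    linarith
  have hdle : (l : ℝ) - l' ≤ L := by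
    have h1 : (l : ℝ) ≤ 2 * L := by exact_mod_cast hl2
    have h2 : (L : ℝ) ≤ l' := by exact_mod_cast hLl'.le
    linarith
  set lam : ℝ := h j₀ * (N : ℝ) ^ (c j₀ - 1) * ((l : ℝ) - l') / q / (M : ℝ) ^ K with hlam
  have hlow : (M : ℝ) ^ (σ - K - 1) ≤ lam := by
    have h1 : (M : ℝ) ^ (σ - K - 1) = (M : ℝ) ^ σ / M / (M : ℝ) ^ K := by
      rw [show σ - K - 1 = σ - 1 - K by ring, Real.rpow_sub hM0, Real.rpow_sub hM0,
        Real.rpow_natCast, Real.rpow_one]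
    rw [h1, hlam]
    apply div_le_div_of_nonneg_right _ (by positivity)
    have h2 : 4 * (M : ℝ) ^ σ ≤ (N : ℝ) ^ (c j₀ - 2 * η) := by
      calc 4 * (M : ℝ) ^ σ ≤ 4 * (2 * N) ^ σ := by
            have := Real.rpow_le_rpow hM0.le hM2N hσ.le
            linarith
        _ = 4 * (2 ^ σ * (N : ℝ) ^ σ) := by rw [Real.mul_rpow (by norm_num) hN0.le]
        _ ≤ 4 * (2 * (N : ℝ) ^ σ) := by
            have h3 : (2 : ℝ) ^ σ ≤ 2 := by
              calc (2 : ℝ) ^ σ ≤ 2 ^ (1 : ℝ) :=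
                    Real.rpow_le_rpow_of_exponent_le (by norm_num) hσ1
                _ = 2 := Real.rpow_one 2
            gcongr
        _ = 8 * (N : ℝ) ^ σ := by ring
        _ ≤ _ := g3
    have h3 : (N : ℝ) ^ (-η) ≤ h j₀ / q := by
      rw [Real.rpow_neg hN0.le, inv_eq_one_div]
      exact div_le_div₀ (by linarith) hh1 hq0 hqN
    have h4 : (N : ℝ) / (4 * M) * (N : ℝ) ^ (-η) ≤ (l : ℝ) - l' := by
      refine le_trans ?_ hdist
      apply mul_le_mul_of_nonneg_right _ (by positivity)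
      rw [div_le_iff₀ (by positivity)]
      linarith
    calc (M : ℝ) ^ σ / M = 4 * (M : ℝ) ^ σ / (4 * M) := by field_simp
      _ ≤ (N : ℝ) ^ (c j₀ - 2 * η) / (4 * M) := by gcongr
      _ = (N : ℝ) ^ (-η) * (N : ℝ) ^ (c j₀ - 1) * (N / (4 * M) * (N : ℝ) ^ (-η)) := by
          have h5 : (N : ℝ) ^ (c j₀ - 2 * η) =
              (N : ℝ) ^ (-η) * (N : ℝ) ^ (c j₀ - 1) * ((N : ℝ) ^ (1 : ℝ) * (N : ℝ) ^ (-η)) := by
            rw [← Real.rpow_add hN0, ← Real.rpow_add hN0, ← Real.rpow_add hN0]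
            congr 1
            ring
          rw [h5, Real.rpow_one]
          ring
      _ ≤ (h j₀ / q) * (N : ℝ) ^ (c j₀ - 1) * ((l : ℝ) - l') := by gcongr
      _ = _ := by ring
  have hupp : lam ≤ (M : ℝ) ^ (-1 : ℝ) := by
    have h1 : h j₀ / q ≤ (N : ℝ) ^ η := by
      rw [div_le_iff₀ hq0]
      nlinarith
    have h2 : 2 * (N : ℝ) ^ (η + c j₀) ≤ (M : ℝ) ^ K := by
      have h3 : (N : ℝ) ^ ((K : ℝ) / 4) ≤ (2 * M) ^ K := by
        calc (N : ℝ) ^ ((K : ℝ) / 4) = ((N : ℝ) ^ (1 / 4 : ℝ)) ^ K := by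
              rw [← Real.rpow_natCast, ← Real.rpow_mul hN0.le]
              congr 1
              ring
          _ ≤ _ := pow_le_pow_left₀ (by positivity) hroot K
      have h4 : 2 ^ (K + 1) * (N : ℝ) ^ (η + c j₀) ≤ 2 ^ K * (M : ℝ) ^ K := by
        rw [← mul_pow]
        exact g4.trans h3
      have h5 : (0 : ℝ) < 2 ^ K := by positivity
      have h6 : (2 : ℝ) ^ K * (2 * (N : ℝ) ^ (η + c j₀)) ≤ 2 ^ K * (M : ℝ) ^ K := by
        calc (2 : ℝ) ^ K * (2 * (N : ℝ) ^ (η + c j₀)) = 2 ^ (K + 1) * (N : ℝ) ^ (η + c j₀) := by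
              rw [pow_succ]; ring
          _ ≤ _ := h4
      exact le_of_mul_le_mul_left h6 h5
    have h3 : (L : ℝ) ≤ 2 * N / M := by
      rw [le_div_iff₀ hM0]
      linarith
    rw [hlam, div_le_iff₀ (by positivity), Real.rpow_neg_one]
    calc h j₀ * (N : ℝ) ^ (c j₀ - 1) * ((l : ℝ) - l') / q =
          h j₀ / q * (N : ℝ) ^ (c j₀ - 1) * ((l : ℝ) - l') := by ring
      _ ≤ (N : ℝ) ^ η * (N : ℝ) ^ (c j₀ - 1) * (2 * N / M) := by
          have := hdle.trans h3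
          gcongr
      _ = (2 * ((N : ℝ) ^ η * (N : ℝ) ^ (c j₀ - 1) * (N : ℝ) ^ (1 : ℝ))) / M := by
          rw [Real.rpow_one]; ring
      _ = (2 * (N : ℝ) ^ (η + c j₀)) / M := by
          rw [← Real.rpow_add hN0, ← Real.rpow_add hN0]
          congr 3
          ring
      _ ≤ (M : ℝ) ^ K / M := by gcongr
      _ = _ := by ring
  have hlL : (l : ℝ) * (B + 1) ≤ 3 * N := by
    have h1 : (B : ℝ) * l ≤ 2 * N := by exact_mod_cast hBl
    have h2 : (l : ℝ) ≤ 2 * L := by exact_mod_cast hl2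
    have h3 : 4 * (L : ℝ) ≤ 2 * N := le_trans (by gcongr) hMLr
    linarith
  have hl'A : (N : ℝ) ≤ l' * (A + 1) := by
    have : (N : ℝ) ≤ (((A + 1) * l' : ℕ) : ℝ) := by exact_mod_cast hNA.le
    push_cast at this
    linarith
  set Ls : ℕ := B - A with hLs
  set u : ℝ := ((A + 1 : ℕ) : ℝ) with hu
  have huL : u + Ls = B + 1 := by
    rw [hu, hLs, Nat.cast_sub hAB.le]
    push_cast
    ring
  have hHy := hy_II H j₀ K hK1 c₁ c₂ ε h (N : ℝ) u (u + Ls) (M : ℝ) q l l' hq (by omega) hll β hN0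
    hc₁ hc₂ hpos
    (fun t ht1 ht2 => by
      obtain ⟨_, _, _, k1, k2, k3⟩ := g1 t ht1 ht2 η hη hη1 h hpos hz hh
      exact ⟨k1, k2, k3⟩)
    hM0 (by rw [hu]; exact_mod_cast (by omega : M ≤ A + 1))
    (by
      rw [huL]
      have : (B : ℝ) ≤ 2 * M := by exact_mod_cast hB
      linarith)
    (by rw [hu]; push_cast; exact hl'A)
    (by rw [huL]; exact hlL)
  have hcore := hX₀ M hMX₀ lam hlow hupp u (u + Ls) _ hHy u Ls (by omega) le_rfl le_rfl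
  have hsum : ‖∑ m ∈ Ioc A B, e ((gg F a h 0 (l * m) - gg F a h 0 (l' * m)) / q + β * m)‖ =
      ‖∑ n ∈ range Ls, e (ph F a h ε q β l l' 1 0 (u + n))‖ := by
    have h1 : ∀ n : ℕ, ph F a h ε q β l l' 1 0 (u + n) =
        ε * ((gg F a h 0 (l * ((A + 1 + n : ℕ) : ℝ)) - gg F a h 0 (l' * ((A + 1 + n : ℕ) : ℝ))) / q +
          β * ((A + 1 + n : ℕ) : ℝ)) := by
      intro n
      unfold ph
      rw [hu]
      push_cast
      simp only [pow_zero, one_mul, if_true]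
    simp_rw [h1]
    rw [norm_eps ε hε (fun n => (gg F a h 0 (l * ((A + 1 + n : ℕ) : ℝ)) -
      gg F a h 0 (l' * ((A + 1 + n : ℕ) : ℝ))) / q + β * ((A + 1 + n : ℕ) : ℝ)) Ls, sum_Ioc_range]
  rw [hsum]
  exact hcore

end Pool.Agent.Y961.JR
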