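import Pool.Agent.TH915.PW.PolyMain

set_option autoImplicit false

/-! # Weyl sums with coefficients satisfying a finite Diophantine condition -/

namespace Pool.Agent.Y961.JR

open Finset Filter
open Pool.Agent.H469R2.NK (e norm_e e_add Cq Cq_pos)
open Pool.Agent.W147.PS (ff ff_compare ev_pow)
open Pool.Agent.TH915.PW (e_int Hy exp_boundC poly_phase iter_top poly_grow norm_split)

/-- splitting off the part of high degree with coefficients in `(1/b) ℤ` -/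
lemma split_poly' (f : Polynomial ℝ) (j b : ℕ) (hb : 0 < b)
    (hrat : ∀ i, j < i → ∃ z : ℤ, (b : ℝ) * f.coeff i = z) :
    ∃ (g : Polynomial ℝ) (F : Polynomial ℤ), g.natDegree ≤ j ∧ g.coeff j = f.coeff j ∧
      ∀ n : ℤ, f.eval (n : ℝ) = g.eval (n : ℝ) + (F.eval n : ℤ) / b := by
  classical
  have hr : ∀ i : ℕ, ∃ z : ℤ, j < i → (b : ℝ) * f.coeff i = z := by
    intro i
    by_cases h : j < i
    · obtain ⟨r, hr⟩ := hrat i h
      exact ⟨r, fun _ => hr⟩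
    · exact ⟨0, fun h' => absurd h' h⟩
  choose κ hκ using hr
  have hb0 : (b : ℝ) ≠ 0 := by exact_mod_cast hb.ne'
  refine ⟨∑ i ∈ range (j + 1), Polynomial.monomial i (f.coeff i),
    ∑ i ∈ (range (f.natDegree + 1)).filter (fun i => j < i), Polynomial.monomial i (κ i),
    ?_, ?_, ?_⟩
  · apply Polynomial.natDegree_sum_le_of_forall_le
    intro i hi
    exact (Polynomial.natDegree_monomial_le _).trans (Nat.lt_succ_iff.mp (mem_range.mp hi))
  · rw [Polynomial.finsetSum_coeff]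
    simp only [Polynomial.coeff_monomial]
    rw [Finset.sum_ite_eq' (range (j + 1)) j (fun i => f.coeff i), if_pos (by simp)]
  · intro n
    rw [Polynomial.eval_eq_sum_range, Polynomial.eval_finsetSum, Polynomial.eval_finsetSum]
    simp only [Polynomial.eval_monomial]
    push_cast
    rw [Finset.sum_div]
    have h1 : ∑ i ∈ (range (f.natDegree + 1)).filter (fun i => j < i), (κ i : ℝ) * (n : ℝ) ^ i / b =
        ∑ i ∈ (range (f.natDegree + 1)).filter (fun i => j < i), f.coeff i * (n : ℝ) ^ i := by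
      apply Finset.sum_congr rfl
      intro i hi
      rw [Finset.mem_filter] at hi
      rw [← hκ i hi.2]
      field_simp
    rw [h1]
    have h2 : ∑ i ∈ range (j + 1), f.coeff i * (n : ℝ) ^ i =
        ∑ i ∈ (range (f.natDegree + 1)).filter (fun i => ¬ j < i), f.coeff i * (n : ℝ) ^ i := by
      symm
      apply Finset.sum_subset
      · intro i hi
        rw [Finset.mem_filter] at hi
        rw [mem_range]
        omega
      · intro i hi hi'
        rw [Finset.mem_filter, mem_range] at hi'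
        rw [mem_range] at hi
        have : f.natDegree < i := by omega
        rw [Polynomial.coeff_eq_zero_of_natDegree_lt this, zero_mul]
    rw [h2, ← Finset.sum_filter_add_sum_filter_not (range (f.natDegree + 1)) (fun i => j < i)
      (fun i => f.coeff i * (n : ℝ) ^ i)]
    ring

lemma fract_of_dist (x δ : ℝ) (h : ∀ m : ℤ, δ ≤ |x - m|) :
    δ ≤ Int.fract x ∧ Int.fract x ≤ 1 - δ := by
  have h2 : δ ≤ Int.fract x := by
    have := h ⌊x⌋
    rwa [Int.self_sub_floor, abs_of_nonneg (Int.fract_nonneg x)] at this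
  refine ⟨h2, ?_⟩
  have := h (⌊x⌋ + 1)
  have h4 : x - ((⌊x⌋ + 1 : ℤ) : ℝ) = Int.fract x - 1 := by
    push_cast
    rw [← Int.self_sub_floor]
    ring
  rw [h4, abs_of_nonpos (by linarith [Int.fract_lt_one x])] at this
  linarith

/-- Weyl sums over progressions -/
lemma poly_core (k b : ℕ) (hb : 0 < b) (σ η : ℝ) (hη : 0 < η) (hσk : σ * (k + 2) ≤ 3 / 4)
    (hησ : η * 2 ^ (k + 2) ≤ σ) :
    ∀ᶠ Z : ℝ in atTop, ∀ f : Polynomial ℝ, (∀ i, k + 1 < i → ∃ z : ℤ, (b : ℝ) * f.coeff i = z) →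
      ∀ q : ℕ, 1 ≤ q → (q : ℝ) ≤ Z ^ η →
      (∀ T : ℕ, 1 ≤ T → (T : ℝ) ≤ Z ^ (2 * σ * (k + 1)) → ∀ m : ℤ,
        Z ^ (-(1 / 4) : ℝ) ≤ |T * f.coeff (k + 1) - m|) →
      ∀ n₀ L N : ℕ, L ≤ N → Z ^ (1 - σ) ≤ N →
      ‖∑ m ∈ range L, e (f.eval ((n₀ : ℝ) + (b * q : ℕ) * m) / q)‖ ≤ N * Z ^ (-(2 * η)) := by
  have hk0 : (0 : ℝ) ≤ k := Nat.cast_nonneg k
  have h2k : (1 : ℝ) ≤ 2 ^ (k + 2) := one_le_pow₀ (by norm_num)
  have hσ0 : 0 < σ := by nlinarith
  have hησ' : η ≤ σ := by nlinarith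
  have hσ1 : σ ≤ 3 / 8 := by nlinarith
  have hCq := Cq_pos k
  have hb0 : (0 : ℝ) < b := by exact_mod_cast hb
  set CT : ℝ := (b : ℝ) ^ (k + 1) * (k + 1).factorial with hCT
  have hCT0 : 0 < CT := by positivity
  filter_upwards [eventually_ge_atTop (1 : ℝ), ev_pow 0 (2 * σ) CT (by linarith),
    (tendsto_rpow_atTop hσ0).eventually_ge_atTop 2,
    ev_pow (-σ) (-(σ / 2)) (Cq k * 4) (by linarith), ev_pow σ (1 - σ) 1 (by linarith)]
    with Z hZ1 hp1 hp4 hp5 hp6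
  intro f hrat q hq hqZ hT n₀ L N hLN hN
  rw [Real.rpow_zero, mul_one] at hp1
  rw [one_mul] at hp6
  have hZ0 : 0 < Z := by linarith
  have hq0 : (0 : ℝ) < q := by exact_mod_cast hq
  have hN0 : (0 : ℝ) < N := lt_of_lt_of_le (Real.rpow_pos_of_pos hZ0 _) hN
  have hN1 : 1 ≤ N := by
    have : 0 < N := by exact_mod_cast hN0
    omega
  obtain ⟨g, F, hgd, hgj, hfg⟩ := split_poly' f (k + 1) b hb hrat
  set H : ℕ := ⌊Z ^ σ⌋₊ with hH
  have hHZ : (H : ℝ) ≤ Z ^ σ := Nat.floor_le (by positivity)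
  have hZH : Z ^ σ / 2 ≤ H := by
    have := Nat.lt_floor_add_one (Z ^ σ)
    linarith
  have hH1 : 1 ≤ H := by
    have : (0 : ℝ) < H := by linarith
    exact_mod_cast this
  have hHk : (H : ℝ) ^ k ≤ Z ^ (σ * k) := by
    calc (H : ℝ) ^ k ≤ (Z ^ σ) ^ k := pow_le_pow_left₀ (Nat.cast_nonneg _) hHZ k
      _ = Z ^ (σ * k) := by rw [← Real.rpow_natCast, ← Real.rpow_mul hZ0.le]
  have hHN : H ≤ N := by
    have : (H : ℝ) ≤ N := hHZ.trans (hp6.trans hN)
    exact_mod_cast this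
  set B : ℕ := b * q with hB
  have hBr : (B : ℝ) = b * q := by rw [hB]; push_cast; rfl
  set w : ℤ := (n₀ : ℤ) with hw
  have hterm : ∀ m ∈ range L, e (f.eval ((n₀ : ℝ) + (B : ℕ) * m) / q) =
      e (1 / q * g.eval ((w : ℝ) + B * (m : ℝ))) * e (1 / (q * b) * (F.eval w : ℤ)) := by
    intro m _
    have h1 := hfg (w + B * m)
    have h2 : (((w + B * m : ℤ)) : ℝ) = (n₀ : ℝ) + (B : ℕ) * m := by
      rw [hw]; push_cast; ring
    rw [h2] at h1
    rw [h1]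
    obtain ⟨K, hK⟩ := Polynomial.sub_dvd_eval_sub (w + B * m) w F
    have h4 : (F.eval (w + (B : ℤ) * m) : ℤ) = F.eval w + (B : ℤ) * m * K := by
      have : w + (B : ℤ) * m - w = (B : ℤ) * m := by ring
      rw [this] at hK
      linarith
    rw [h4]
    have h3 : (n₀ : ℝ) + (B : ℕ) * (m : ℝ) = (w : ℝ) + B * (m : ℝ) := by
      rw [hw]; push_cast; ring
    rw [h3]
    have h5 : (g.eval ((w : ℝ) + B * (m : ℝ)) + (((F.eval w + (B : ℤ) * m * K : ℤ)) : ℝ) / b) / q =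
        1 / q * g.eval ((w : ℝ) + B * (m : ℝ)) + 1 / (q * b) * (F.eval w : ℤ) +
          ((m * K : ℤ) : ℝ) := by
      push_cast
      rw [hBr]
      field_simp
      ring
    rw [h5, e_add, e_add, e_int, mul_one]
  rw [sum_congr rfl hterm, ← sum_mul, norm_mul, norm_e, mul_one]
  set φ : ℕ → ℝ → ℝ := fun i t => 1 / q * (B : ℝ) ^ i *
    (Polynomial.derivative^[i] g).eval ((w : ℝ) + B * t) with hφ
  have hHy := poly_phase g k hgd (1 / q) (w : ℝ) (B : ℝ) 0 L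
  rw [← hφ] at hHy
  set c : ℝ := 1 / q * (B : ℝ) ^ (k + 1) * ((k + 1).factorial * g.coeff (k + 1)) with hc
  have hcT : c = ((b ^ (k + 1) * q ^ k * (k + 1).factorial : ℕ) : ℝ) * f.coeff (k + 1) := by
    rw [hc, hgj, hBr]
    push_cast
    rw [mul_pow, pow_succ (q : ℝ) k]
    field_simp
  have hexp := exp_boundC hHy 0 N L H hN1 hLN le_rfl (by simp) hH1 hHN (Z ^ (-(1 / 4) : ℝ))
    (by positivity) (by
      intro P hP1 hP2
      rw [hcT, ← mul_assoc, ← Nat.cast_mul]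
      apply fract_of_dist
      apply hT
      · have h2 : 0 < q := by omega
        have h3 : 0 < P := by omega
        exact Nat.one_le_iff_ne_zero.mpr (by positivity)
      · push_cast
        have h2 : (P : ℝ) ≤ Z ^ (σ * k) := by
          have : (P : ℝ) ≤ (H : ℝ) ^ k := by exact_mod_cast hP2
          exact this.trans hHk
        have h3 : (q : ℝ) ^ k ≤ Z ^ (η * k) := by
          calc (q : ℝ) ^ k ≤ (Z ^ η) ^ k := pow_le_pow_left₀ hq0.le hqZ k
            _ = Z ^ (η * k) := by rw [← Real.rpow_natCast, ← Real.rpow_mul hZ0.le]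
        calc (P : ℝ) * ((b : ℝ) ^ (k + 1) * (q : ℝ) ^ k * (k + 1).factorial) =
            CT * (P * (q : ℝ) ^ k) := by rw [hCT]; ring
          _ ≤ Z ^ (2 * σ) * (Z ^ (σ * k) * Z ^ (η * k)) := by gcongr
          _ = Z ^ (2 * σ + (σ * k + η * k)) := by
              rw [Real.rpow_add hZ0, Real.rpow_add hZ0]
          _ ≤ Z ^ (2 * σ * (k + 1)) := by
              apply Real.rpow_le_rpow_of_exponent_le hZ1
              nlinarith)
  have hb2 : Cq k * (1 / H + 2 * (H : ℝ) ^ k / (Z ^ (-(1 / 4) : ℝ) * N)) ≤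
      (Cq k * 4) * Z ^ (-σ) := by
    have e1 : 1 / (H : ℝ) ≤ 2 * Z ^ (-σ) := by
      rw [Real.rpow_neg hZ0.le, div_le_iff₀ (by linarith : (0 : ℝ) < H)]
      have h5 : (0 : ℝ) < Z ^ σ := by positivity
      calc (1 : ℝ) = 2 * (Z ^ σ)⁻¹ * (Z ^ σ / 2) := by field_simp
        _ ≤ _ := by gcongr
    have e2 : 2 * (H : ℝ) ^ k / (Z ^ (-(1 / 4) : ℝ) * N) ≤ 2 * Z ^ (-σ) := by
      calc 2 * (H : ℝ) ^ k / (Z ^ (-(1 / 4) : ℝ) * N) ≤
          2 * Z ^ (σ * k) / (Z ^ (-(1 / 4) : ℝ) * Z ^ (1 - σ)) := by gcongr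
        _ = 2 * (Z ^ (σ * k) * (Z ^ (-(1 / 4) : ℝ) * Z ^ (1 - σ))⁻¹) := by ring
        _ = 2 * Z ^ (σ * k + -(-(1 / 4) + (1 - σ))) := by
            rw [← Real.rpow_add hZ0, ← Real.rpow_neg hZ0.le, ← Real.rpow_add hZ0]
        _ ≤ 2 * Z ^ (-σ) := by
            apply mul_le_mul_of_nonneg_left _ (by norm_num)
            apply Real.rpow_le_rpow_of_exponent_le hZ1
            nlinarith
    calc _ ≤ Cq k * (2 * Z ^ (-σ) + 2 * Z ^ (-σ)) := by gcongr
      _ = _ := by ring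
  have b3 : (‖∑ m ∈ range L, e (φ 0 (0 + (m : ℝ)))‖ / N) ^ (2 ^ k) ≤
      (Z ^ (-(2 * η))) ^ (2 ^ k) := by
    calc _ ≤ _ := hexp
      _ ≤ _ := hb2
      _ ≤ Z ^ (-(σ / 2)) := hp5
      _ ≤ Z ^ (-(2 * η) * ((2 ^ k : ℕ) : ℝ)) := by
          apply Real.rpow_le_rpow_of_exponent_le hZ1
          push_cast
          have : η * 2 ^ (k + 2) = η * 2 ^ k * 4 := by rw [pow_add]; ring
          linarith
      _ = _ := by rw [Real.rpow_mul hZ0.le, Real.rpow_natCast]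
  have b4 : ‖∑ m ∈ range L, e (φ 0 (0 + (m : ℝ)))‖ / N ≤ Z ^ (-(2 * η)) :=
    (pow_le_pow_iff_left₀ (by positivity) (by positivity) (by positivity)).mp b3
  have hsum : ∑ m ∈ range L, e (φ 0 (0 + (m : ℝ))) =
      ∑ m ∈ range L, e (1 / q * g.eval ((w : ℝ) + B * (m : ℝ))) := by
    refine sum_congr rfl fun m _ => ?_
    rw [hφ]
    simp
  rw [hsum, div_le_iff₀ hN0] at b4
  linarith

/-- bounded denominators -/
lemma bden (r : ℕ) (α : Fin r → ℝ) : ∃ b : ℕ, 0 < b ∧ ∀ h : Fin r → ℤ,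
    ¬ Irrational (∑ j, (h j : ℝ) * α j) → ∃ z : ℤ, (b : ℝ) * ∑ j, (h j : ℝ) * α j = z := by
  classical
  set x : (Fin r → ℤ) → ℝ := fun h => ∑ j, (h j : ℝ) * α j with hx
  have hadd : ∀ h h', x (h + h') = x h + x h' := by
    intro h h'
    simp only [hx]
    rw [← Finset.sum_add_distrib]
    apply Finset.sum_congr rfl
    intro j _
    push_cast [Pi.add_apply]
    ring
  have hsmul : ∀ (c : ℤ) h, x (c • h) = c * x h := by
    intro c h
    simp only [hx]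
    rw [Finset.mul_sum]
    apply Finset.sum_congr rfl
    intro j _
    push_cast [Pi.smul_apply, smul_eq_mul]
    ring
  let Λ : Submodule ℤ (Fin r → ℤ) :=
    { carrier := {h | ∃ ρ : ℚ, x h = ρ}
      add_mem' := by
        rintro h h' ⟨ρ, hρ⟩ ⟨ρ', hρ'⟩
        exact ⟨ρ + ρ', by rw [hadd, hρ, hρ']; push_cast; rfl⟩
      zero_mem' := ⟨0, by simp [hx]⟩
      smul_mem' := by
        rintro c h ⟨ρ, hρ⟩
        exact ⟨c * ρ, by rw [hsmul, hρ]; push_cast; rfl⟩ }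
  obtain ⟨S, hS⟩ := (IsNoetherian.noetherian Λ : Λ.FG)
  have hmem : ∀ s ∈ S, ∃ ρ : ℚ, x s = ρ := by
    intro s hs
    have : s ∈ Λ := by
      rw [← hS]
      exact Submodule.subset_span hs
    exact this
  have hden : ∀ s : Fin r → ℤ, ∃ d : ℕ, 0 < d ∧ (s ∈ S → ∃ z : ℤ, (d : ℝ) * x s = z) := by
    intro s
    by_cases hs : s ∈ S
    · obtain ⟨ρ, hρ⟩ := hmem s hs
      refine ⟨ρ.den, ρ.pos, fun _ => ⟨ρ.num, ?_⟩⟩
      rw [hρ]
      exact_mod_cast Rat.den_mul_eq_num ρ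
    · exact ⟨1, one_pos, fun h => absurd h hs⟩
  choose d hd hdz using hden
  refine ⟨∏ s ∈ S, d s, Finset.prod_pos fun s _ => hd s, ?_⟩
  intro h hirr
  have hΛ : h ∈ Λ := by
    rw [Irrational, not_not] at hirr
    obtain ⟨ρ, hρ⟩ := hirr
    exact ⟨ρ, hρ.symm⟩
  rw [← hS] at hΛ
  change ∃ z : ℤ, ((∏ s ∈ S, d s : ℕ) : ℝ) * x h = z
  refine Submodule.span_induction (p := fun h _ => ∃ z : ℤ, ((∏ s ∈ S, d s : ℕ) : ℝ) * x h = z)
    ?_ ?_ ?_ ?_ hΛ
  · intro s hs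
    obtain ⟨z, hz⟩ := hdz s hs
    refine ⟨((∏ t ∈ S.erase s, d t : ℕ) : ℤ) * z, ?_⟩
    rw [← Finset.mul_prod_erase S d hs]
    push_cast
    rw [← hz]
    ring
  · exact ⟨0, by simp [hx]⟩
  · rintro h h' _ _ ⟨z, hz⟩ ⟨z', hz'⟩
    exact ⟨z + z', by rw [hadd, mul_add, hz, hz']; push_cast; rfl⟩
  · rintro c h _ ⟨z, hz⟩
    refine ⟨c * z, ?_⟩
    rw [hsmul]
    push_cast
    rw [← hz]
    push_cast
    ring

end Pool.Agent.Y961.JR
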