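import Pool.Agent.Y961.JR.PolyJ
import Pool.Agent.Y961.JR.ScaledJ
import Pool.Agent.Y961.JR.Class

set_option autoImplicit false

/-! # Record prime gaps around a number and the values of several real polynomials -/

namespace Pool.Agent.Y961.JR

open Finset Filter
open Pool.Agent.H469R2.NK (e norm_e e_add Cq Cq_pos)
open Pool.Agent.W147.PS (ff ff_compare ev_pow)
open Pool.Agent.TH915.PW (e_int Hy exp_boundC poly_phase iter_top poly_grow norm_split)

lemma div_len (L b r' : ℕ) (hr : r' < b) : (L + (b - 1 - r')) / b ≤ L := by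
  rcases Nat.eq_zero_or_pos L with hL0 | hL0
  · rw [hL0, Nat.div_eq_of_lt (by omega)]
  · apply Nat.div_le_of_le_mul
    obtain ⟨b', rfl⟩ : ∃ b', b = b' + 1 := ⟨b - 1, by omega⟩
    obtain ⟨L', rfl⟩ : ∃ L', L = L' + 1 := ⟨L - 1, by omega⟩
    have : (b' + 1) * (L' + 1) = b' * L' + b' + L' + 1 := by ring
    have h7 : 0 ≤ b' * L' := Nat.zero_le _
    omega

set_option maxHeartbeats 4000000 in
/-- several real polynomials at once -/
theorem polys_main (r : ℕ) (hr : 1 ≤ r) (P : Fin r → Polynomial ℝ)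
    (hlc : ∀ j, 0 < (P j).leadingCoeff) (c τ : ℝ) (hc : 0 < c) (hτ : 0 ≤ τ)
    (hdio : ∀ i, 1 ≤ i → ∀ (H : ℕ) (h : Fin r → ℤ), (∀ j, |h j| ≤ H) →
      Irrational (∑ j, (h j : ℝ) * (P j).coeff i) → ∀ m : ℤ,
        c * (H : ℝ) ^ (-τ) ≤ |∑ j, (h j : ℝ) * (P j).coeff i - m|)
    (hind : ∀ h : Fin r → ℤ, h ≠ 0 → ∃ i, 1 ≤ i ∧ Irrational (∑ j, (h j : ℝ) * (P j).coeff i)) :
    ∃ κ : ℝ, 0 < κ ∧ ∃ Z₀ : ℝ, ∀ Z : ℝ, Z₀ ≤ Z → ∀ M : ℝ, Z ≤ M →
    ∃ n : ℕ, M < n ∧ (n : ℝ) ≤ M + Z ∧ (∀ q : ℕ, q.Prime → κ * ff Z < |(q : ℝ) - n|) ∧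
      ∀ j, ∀ q : ℕ, q.Prime → κ * ff Z < |(q : ℝ) - (P j).eval (n : ℝ)| := by
  classical
  -- degrees
  have hdeg : ∀ j, 1 ≤ (P j).natDegree := by
    intro j
    obtain ⟨i, hi, hirr⟩ := hind (Pi.single j 1) (by
      intro h0
      have := congrFun h0 j
      simp at this)
    have h1 : ∑ l, ((Pi.single j 1 : Fin r → ℤ) l : ℝ) * (P l).coeff i = (P j).coeff i := by
      rw [Finset.sum_eq_single j]
      · simp
      · intro l _ hl
        simp [hl]
      · simp
    rw [h1] at hirr
    by_contra hcon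
    rw [Polynomial.coeff_eq_zero_of_natDegree_lt (by omega)] at hirr
    exact hirr ⟨0, by simp⟩
  set D : ℕ := Finset.univ.sup (fun j => (P j).natDegree) with hD
  have hDj : ∀ j, (P j).natDegree ≤ D := fun j =>
    Finset.le_sup (f := fun j => (P j).natDegree) (Finset.mem_univ j)
  have hcoef0 : ∀ i, D < i → ∀ j, (P j).coeff i = 0 := fun i hi j =>
    Polynomial.coeff_eq_zero_of_natDegree_lt (lt_of_le_of_lt (hDj j) hi)
  -- denominators
  choose bi hbi hbiz using fun i : ℕ => bden r (fun j => (P j).coeff i)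
  set b : ℕ := ∏ i ∈ range (D + 1), bi i with hb
  have hbpos : 0 < b := Finset.prod_pos fun i _ => hbi i
  have hbz : ∀ i, ∀ h : Fin r → ℤ, ¬ Irrational (∑ j, (h j : ℝ) * (P j).coeff i) →
      ∃ z : ℤ, (b : ℝ) * ∑ j, (h j : ℝ) * (P j).coeff i = z := by
    intro i h hirr
    by_cases hi : i ≤ D
    · obtain ⟨z, hz⟩ := hbiz i h hirr
      have hmem : i ∈ range (D + 1) := Finset.mem_range.mpr (by omega)
      refine ⟨((∏ t ∈ (range (D + 1)).erase i, bi t : ℕ) : ℤ) * z, ?_⟩
      rw [hb, ← Finset.mul_prod_erase (range (D + 1)) bi hmem]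
      push_cast
      rw [← hz]
      ring
    · refine ⟨0, ?_⟩
      have : ∀ j, (P j).coeff i = 0 := hcoef0 i (by omega)
      simp [this]
  -- parameters
  have hD0 : (0 : ℝ) ≤ D := Nat.cast_nonneg D
  set σ : ℝ := 1 / (8 * (D + 2) * (τ + 1)) with hσ
  have hσ0 : 0 < σ := by positivity
  have hσD : σ * (8 * (D + 2) * (τ + 1)) = 1 := by rw [hσ]; field_simp
  have hσD1 : σ * (D + 2) ≤ 1 / 8 := by nlinarith [mul_nonneg hσ0.le (mul_nonneg (by linarith : (0:ℝ) ≤ D + 2) hτ)]
  set η : ℝ := σ / 2 ^ (D + 3) with hη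
  have h2D : (1 : ℝ) ≤ 2 ^ (D + 3) := one_le_pow₀ (by norm_num)
  have hη0 : 0 < η := by positivity
  have hησ : η ≤ σ := div_le_self hσ0.le h2D
  have hσ8 : σ ≤ 1 / 8 := by nlinarith
  obtain ⟨κ, hκ, hcr⟩ := crit_scaled1J r hr η hη0 (by linarith)
  refine ⟨κ, hκ, ?_⟩
  have hcore : ∀ k ∈ range (D + 1), ∀ᶠ Z : ℝ in atTop, ∀ f : Polynomial ℝ,
      (∀ i, k + 1 < i → ∃ z : ℤ, (b : ℝ) * f.coeff i = z) →
      ∀ q : ℕ, 1 ≤ q → (q : ℝ) ≤ Z ^ η →
      (∀ T : ℕ, 1 ≤ T → (T : ℝ) ≤ Z ^ (2 * σ * (k + 1)) → ∀ m : ℤ,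
        Z ^ (-(1 / 4) : ℝ) ≤ |T * f.coeff (k + 1) - m|) →
      ∀ n₀ L N : ℕ, L ≤ N → Z ^ (1 - σ) ≤ N →
      ‖∑ m ∈ range L, e (f.eval ((n₀ : ℝ) + (b * q : ℕ) * m) / q)‖ ≤ N * Z ^ (-(2 * η)) := by
    intro k hk
    have hk' : k ≤ D := Nat.lt_succ_iff.mp (mem_range.mp hk)
    have hk'' : (k : ℝ) ≤ D := by exact_mod_cast hk'
    apply poly_core k b hbpos σ η hη0
    · nlinarith
    · have h1 : (2 : ℝ) ^ (k + 2) ≤ 2 ^ (D + 3) := pow_le_pow_right₀ (by norm_num) (by omega)
      calc η * 2 ^ (k + 2) ≤ η * 2 ^ (D + 3) := mul_le_mul_of_nonneg_left h1 hη0.le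
        _ = σ := by rw [hη]; field_simp
  obtain ⟨t₁, ht₁⟩ := eventually_atTop.mp (eventually_all.mpr fun j => poly_grow (P j) (hlc j) (hdeg j))
  have hρ : 2 * σ * (D + 2) * τ < 1 / 4 := by
    have : 2 * σ * (D + 2) * (τ + 1) = 1 / 4 := by
      calc 2 * σ * (D + 2) * (τ + 1) = σ * (8 * (D + 2) * (τ + 1)) / 4 := by ring
        _ = 1 / 4 := by rw [hσD]
    have h2 : 0 < 2 * σ * (D + 2) := by positivity
    nlinarith
  apply eventually_atTop.mp
  filter_upwards [hcr, (Filter.eventually_all_finset (range (D + 1))).mpr hcore,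
    eventually_ge_atTop (4 : ℝ), eventually_ge_atTop t₁,
    ev_pow (-(1 / 4)) (-(2 * σ * (D + 2) * τ)) (1 / c) (by linarith),
    (tendsto_rpow_atTop hη0).eventually_ge_atTop (b : ℝ), ev_pow η 1 2 (by linarith),
    ev_pow (1 - σ) 1 2 (by linarith)]
    with Z a1 a2 a3 a4 a5 a6 a7 a8
  intro M hM
  rw [Real.rpow_one] at a7 a8
  have hZ0 : 0 < Z := by linarith
  have hZ1 : 1 ≤ Z := by linarith
  have hM0 : 0 < M := by linarith
  set A : ℕ := ⌊M⌋₊ with hA
  set B : ℕ := ⌊M + Z⌋₊ with hB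
  have hAM : (A : ℝ) ≤ M := Nat.floor_le hM0.le
  have hAM2 : M < A + 1 := Nat.lt_floor_add_one M
  have hBM : (B : ℝ) ≤ M + Z := Nat.floor_le (by linarith)
  have hBM2 : M + Z < B + 1 := Nat.lt_floor_add_one (M + Z)
  have hAB' : (A : ℝ) < B := by linarith
  have hAB : A < B := by exact_mod_cast hAB'
  have hmem : ∀ n ∈ Ioc A B, M < (n : ℝ) ∧ (n : ℝ) ≤ M + Z := by
    intro n hn
    rw [Finset.mem_Ioc] at hn
    have h1 : ((A + 1 : ℕ) : ℝ) ≤ n := by exact_mod_cast hn.1
    have h2 : (n : ℝ) ≤ B := by exact_mod_cast hn.2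
    push_cast at h1
    constructor <;> linarith
  have hcard : ((Ioc A B).card : ℝ) = (B : ℝ) - A := by
    rw [Nat.card_Ioc, Nat.cast_sub hAB.le]
  have hZhalf : Z / 2 ≤ (Ioc A B).card := by
    rw [hcard]; linarith
  have hmain : 1 ≤ ((Ioc A B).card : ℝ) * Z ^ (-η) := by
    rw [Real.rpow_neg hZ0.le]
    have h1 : 0 < Z ^ η := Real.rpow_pos_of_pos hZ0 _
    rw [← div_eq_mul_inv, le_div_iff₀ h1]
    linarith
  have hZη : Z ^ η ≤ Z ^ (1 / 2 : ℝ) := Real.rpow_le_rpow_of_exponent_le hZ1 (by linarith)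
  have hZ12 : Z ^ (1 / 2 : ℝ) ≤ Z := by
    calc Z ^ (1 / 2 : ℝ) ≤ Z ^ (1 : ℝ) := Real.rpow_le_rpow_of_exponent_le hZ1 (by norm_num)
      _ = Z := Real.rpow_one Z
  obtain ⟨n, hn, hn1, hn2⟩ := a1 ℕ (Ioc A B) (fun n => (n : ℤ))
    (fun n j => (P j).eval (n : ℝ)) ⟨B, Finset.mem_Ioc.mpr ⟨hAB, le_rfl⟩⟩
    (fun n hn => by
      have := (hmem n hn).1
      push_cast
      linarith)
    (fun n hn j => by
      have h1 := (hmem n hn).1
      have h2 := ht₁ (n : ℝ) (by linarith) j
      refine hZη.trans (le_trans ?_ h2)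
      exact Real.rpow_le_rpow hZ0.le (by linarith) (by norm_num))
    (by
      intro q hq hqZ b₀
      obtain ⟨n₀, L, g1, g2, g3, g4, g5, g6⟩ := class_param A B q hq hAB.le b₀
      have hq0 : (0 : ℝ) < q := by exact_mod_cast hq
      constructor
      · rw [g5, hcard]
        exact g3.trans (by rw [← hcard]; exact hmain)
      · intro h hh hhZ
        rw [g6]
        set f : Polynomial ℝ := ∑ j, (h j : ℝ) • P j with hf
        have hfc : ∀ i, f.coeff i = ∑ j, (h j : ℝ) * (P j).coeff i := by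
          intro i
          rw [hf, Polynomial.finsetSum_coeff]
          apply Finset.sum_congr rfl
          intro j _
          rw [Polynomial.coeff_smul, smul_eq_mul]
        have hfe : ∀ x : ℝ, f.eval x = ∑ j, (h j : ℝ) * (P j).eval x := by
          intro x
          rw [hf, Polynomial.eval_finsetSum]
          apply Finset.sum_congr rfl
          intro j _
          rw [Polynomial.eval_smul, smul_eq_mul]
        -- the top irrational coefficient
        obtain ⟨i₀, hi₀, hirr₀⟩ := hind h hh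
        have hle : ∀ i, Irrational (∑ j, (h j : ℝ) * (P j).coeff i) → i ≤ D := by
          intro i hi
          by_contra hcon
          have : ∀ j, (P j).coeff i = 0 := hcoef0 i (by omega)
          simp only [this, mul_zero, Finset.sum_const_zero] at hi
          exact hi ⟨0, by simp⟩
        obtain ⟨i₁, hi₁, hmax⟩ := Finset.exists_max_image
          ((range (D + 1)).filter (fun i => 1 ≤ i ∧ Irrational (∑ j, (h j : ℝ) * (P j).coeff i)))
          (fun i => i) ⟨i₀, Finset.mem_filter.mpr ⟨Finset.mem_range.mpr (by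
            have := hle i₀ hirr₀
            omega), hi₀, hirr₀⟩⟩
        rw [Finset.mem_filter] at hi₁
        obtain ⟨k, rfl⟩ : ∃ k, i₁ = k + 1 := ⟨i₁ - 1, by omega⟩
        have hkD : k + 1 ≤ D := hle _ hi₁.2.2
        have hrat : ∀ i, k + 1 < i → ∃ z : ℤ, (b : ℝ) * f.coeff i = z := by
          intro i hi
          rw [hfc]
          apply hbz
          intro hirr
          have := hmax i (Finset.mem_filter.mpr ⟨Finset.mem_range.mpr (by
            have := hle i hirr
            omega), by omega, hirr⟩)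
          omega
        have hlow : ∀ T : ℕ, 1 ≤ T → (T : ℝ) ≤ Z ^ (2 * σ * (k + 1)) → ∀ m : ℤ,
            Z ^ (-(1 / 4) : ℝ) ≤ |T * f.coeff (k + 1) - m| := by
          intro T hT hTZ m
          set h' : Fin r → ℤ := fun j => T * h j with hh'
          have e1 : ∑ j, (h' j : ℝ) * (P j).coeff (k + 1) = T * f.coeff (k + 1) := by
            rw [hfc, Finset.mul_sum]
            apply Finset.sum_congr rfl
            intro j _
            rw [hh']
            push_cast
            ring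
          have hirr' : Irrational (∑ j, (h' j : ℝ) * (P j).coeff (k + 1)) := by
            rw [e1, hfc]
            exact hi₁.2.2.natCast_mul (by omega)
          set H : ℕ := ⌊Z ^ (2 * σ * (D + 2))⌋₊ with hH
          have hHZ : (H : ℝ) ≤ Z ^ (2 * σ * (D + 2)) := Nat.floor_le (by positivity)
          have hH1 : 1 ≤ H := Nat.le_floor (by
            rw [Nat.cast_one]
            exact Real.one_le_rpow hZ1 (by positivity))
          have hH0 : (0 : ℝ) < H := by exact_mod_cast hH1
          have hbd : ∀ j, |h' j| ≤ (H : ℤ) := by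
            intro j
            have h3 : ((h' j).natAbs : ℝ) ≤ Z ^ (2 * σ * (D + 2)) := by
              rw [Nat.cast_natAbs]
              push_cast
              rw [hh']
              push_cast
              rw [abs_mul, abs_of_nonneg (Nat.cast_nonneg T)]
              calc (T : ℝ) * |(h j : ℝ)| ≤ Z ^ (2 * σ * (k + 1)) * Z ^ η := by
                    apply mul_le_mul hTZ (hhZ j) (abs_nonneg _) (by positivity)
                _ = Z ^ (2 * σ * (k + 1) + η) := by rw [← Real.rpow_add hZ0]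
                _ ≤ Z ^ (2 * σ * (D + 2)) := by
                    apply Real.rpow_le_rpow_of_exponent_le hZ1
                    have hk3 : (k : ℝ) + 1 ≤ D := by exact_mod_cast hkD
                    nlinarith
            have h4 : (h' j).natAbs ≤ H := Nat.le_floor h3
            rw [Int.abs_eq_natAbs]
            exact_mod_cast h4
          have h5 := hdio (k + 1) (by omega) H h' hbd hirr' m
          rw [e1] at h5
          refine le_trans ?_ h5
          have e2 : (Z ^ (2 * σ * (D + 2))) ^ (-τ) ≤ (H : ℝ) ^ (-τ) :=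
            Real.rpow_le_rpow_of_nonpos hH0 hHZ (by linarith)
          have e3 : (Z ^ (2 * σ * (D + 2))) ^ (-τ) = Z ^ (-(2 * σ * (D + 2) * τ)) := by
            rw [← Real.rpow_mul hZ0.le]
            congr 1
            ring
          rw [e3] at e2
          have e4 : Z ^ (-(1 / 4) : ℝ) ≤ c * Z ^ (-(2 * σ * (D + 2) * τ)) := by
            rw [one_div, inv_mul_le_iff₀ hc] at a5
            exact a5
          exact e4.trans (mul_le_mul_of_nonneg_left e2 hc.le)
        have hLN : L ≤ (Ioc A B).card := by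
          rw [← g5]
          exact Finset.card_filter_le _ _
        have hsplit := norm_split (fun m => e (f.eval ((n₀ : ℝ) + q * m) / q)) L b hbpos
          (((Ioc A B).card : ℝ) * Z ^ (-(2 * η))) (by
          intro r' hr'
          have h6 := a2 k (Finset.mem_range.mpr (by omega)) f hrat q hq hqZ hlow (n₀ + q * r')
            ((L + (b - 1 - r')) / b) (Ioc A B).card (by
              exact (div_len L b r' hr').trans hLN) (by linarith)
          have e5 : ∀ m : ℕ, (((n₀ + q * r' : ℕ) : ℝ) + (b * q : ℕ) * m) =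
              (n₀ : ℝ) + q * ((r' + b * m : ℕ) : ℝ) := by
            intro m
            push_cast
            ring
          simp_rw [e5] at h6
          exact h6)
        have e6 : ∀ m : ℕ, (∑ j, (h j : ℝ) * ((P j).eval ((n₀ + q * m : ℕ) : ℝ) / q)) =
            f.eval ((n₀ : ℝ) + q * m) / q := by
          intro m
          rw [hfe, Finset.sum_div]
          apply Finset.sum_congr rfl
          intro j _
          push_cast
          ring
        simp_rw [e6]
        refine hsplit.trans ?_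
        calc (b : ℝ) * (((Ioc A B).card : ℝ) * Z ^ (-(2 * η))) ≤
              Z ^ η * (((Ioc A B).card : ℝ) * Z ^ (-(2 * η))) := by
              apply mul_le_mul_of_nonneg_right a6 (by positivity)
          _ = ((Ioc A B).card : ℝ) * (Z ^ η * Z ^ (-(2 * η))) := by ring
          _ = _ := by
              rw [← Real.rpow_add hZ0]
              congr 2
              ring)
  refine ⟨n, (hmem n hn).1, (hmem n hn).2, fun q hq => ?_, fun j q hq => hn2 j q hq⟩
  have := hn1 q hq
  push_cast at this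
  exact this

end Pool.Agent.Y961.JR
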