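import Pool.Agent.Y961.JR.ScaledJ
import Pool.Agent.TH915.PW.PrimeMain

set_option autoImplicit false

/-! # Record prime gaps around several real multiples of a prime number -/

namespace Pool.Agent.Y961.JR

open Finset Filter
open Pool.Agent.H469R2.NK (e norm_e e_add)
open Pool.Agent.W147.PS (ff ff_compare ev_pow)
open Pool.Agent.TH915.PW (approx_of_dirichlet ee_eq_e class_bound prime_bound abel_bound card_primes)

/-- the small integer combinations of the coefficients are not very close to integers -/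
def Dio {r : ℕ} (ε Z : ℝ) (α : Fin r → ℝ) : Prop :=
  ∀ h : Fin r → ℤ, h ≠ 0 → (∀ j, |(h j : ℝ)| ≤ Z ^ ε) → ∀ m : ℤ,
    Z ^ (-(1 - ε)) ≤ |∑ j, (h j : ℝ) * α j - m|

/-- the frequencies are on the minor arcs -/
lemma freqJ (r : ℕ) (ε : ℝ) (hε : 0 < ε) (hε1 : ε ≤ 1 / 2) (d : ℕ) (hd : 1 ≤ d) :
    ∀ᶠ Z : ℝ in atTop, ∀ α : Fin r → ℝ, Dio ε Z α → ∀ h : Fin r → ℤ, h ≠ 0 →
      (∀ j, |(h j : ℝ)| ≤ Z ^ (ε / 8)) → ∀ q : ℕ, 1 ≤ q → (q : ℝ) ≤ Z ^ (ε / 8) → ∀ j : ℤ,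
      ∃ (c : ℤ) (D : ℕ), IsCoprime c (D : ℤ) ∧ Z ^ (ε / 4) ≤ D ∧ (D : ℝ) ≤ Z ^ (1 - ε / 4) ∧
        |(∑ i, (h i : ℝ) * α i) / q + j / d - c / D| ≤ 1 / (D : ℝ) ^ 2 := by
  have hd0 : (0 : ℝ) < d := by exact_mod_cast hd
  filter_upwards [eventually_ge_atTop (1 : ℝ), ev_pow (ε / 8 + ε / 4) ε d (by linarith),
    ev_pow (-(1 - ε / 8 - ε / 4)) (-(1 - ε)) (2 * d) (by linarith),
    (tendsto_rpow_atTop (show (0 : ℝ) < 1 - ε / 4 by linarith)).eventually_ge_atTop 1]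
    with Z hZ1 hp1 hp2 hp3
  intro α hα h hh hhZ q hq hqZ j
  have hZ0 : 0 < Z := by linarith
  have hq0 : (0 : ℝ) < q := by exact_mod_cast hq
  set θ : ℝ := (∑ i, (h i : ℝ) * α i) / q + j / d with hθ
  set n : ℕ := ⌊Z ^ (1 - ε / 4)⌋₊ with hn
  have hn1 : 0 < n := Nat.floor_pos.mpr hp3
  have hn2 : (n : ℝ) ≤ Z ^ (1 - ε / 4) := Nat.floor_le (by positivity)
  have hn3 : Z ^ (1 - ε / 4) < n + 1 := Nat.lt_floor_add_one _
  obtain ⟨c, D, hD, hDn, hcop2, hap2, hap3⟩ := approx_of_dirichlet θ n hn1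
  have hD0 : (0 : ℝ) < D := by exact_mod_cast hD
  have hDn' : (D : ℝ) ≤ n := by exact_mod_cast hDn
  refine ⟨c, D, hcop2, ?_, by linarith, hap2⟩
  by_contra hcon
  push Not at hcon
  have h1 := hα (fun i => h i * (d * D : ℕ)) (by
    intro h0
    apply hh
    funext i
    have h2 := congrFun h0 i
    simp only [Pi.zero_apply] at h2 ⊢
    have h3 : ((d * D : ℕ) : ℤ) ≠ 0 := by
      have : 0 < d * D := by positivity
      exact_mod_cast this.ne'
    exact (mul_eq_zero.mp h2).resolve_right h3) (by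
    intro i
    push_cast
    rw [abs_mul, abs_of_nonneg (show (0 : ℝ) ≤ d * D by positivity)]
    calc |(h i : ℝ)| * ((d : ℝ) * D) ≤ Z ^ (ε / 8) * (d * Z ^ (ε / 4)) := by
          apply mul_le_mul (hhZ i) _ (by positivity) (by positivity)
          exact mul_le_mul_of_nonneg_left hcon.le hd0.le
      _ = d * Z ^ (ε / 8 + ε / 4) := by rw [Real.rpow_add hZ0]; ring
      _ ≤ _ := hp1) (d * q * c - D * q * j)
  have e1 : ∑ i, (((h i * ((d * D : ℕ) : ℤ) : ℤ)) : ℝ) * α i - ((d * q * c - D * q * j : ℤ) : ℝ) =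
      d * q * (D * (θ - c / D)) := by
    have e2 : ∑ i, (((h i * ((d * D : ℕ) : ℤ) : ℤ)) : ℝ) * α i = d * D * ∑ i, (h i : ℝ) * α i := by
      rw [Finset.mul_sum]
      apply Finset.sum_congr rfl
      intro i _
      push_cast
      ring
    have e3 : ∑ i, (h i : ℝ) * α i = q * (θ - j / d) := by
      rw [hθ]
      field_simp
      ring
    rw [e2, e3]
    push_cast
    field_simp
    ring
  rw [e1, abs_mul, abs_of_nonneg (show (0 : ℝ) ≤ d * q by positivity), abs_mul,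
    abs_of_pos hD0] at h1
  have h2 : (D : ℝ) * |θ - c / D| ≤ 1 / (n + 1) := by
    calc (D : ℝ) * |θ - c / D| ≤ D * (1 / (((n : ℝ) + 1) * D)) := by gcongr
      _ = 1 / (n + 1) := by field_simp
  have h3 : (1 : ℝ) / (n + 1) ≤ Z ^ (-(1 - ε / 4)) := by
    rw [Real.rpow_neg hZ0.le, ← one_div]
    exact one_div_le_one_div_of_le (by positivity) hn3.le
  have h4 : (d : ℝ) * q * (D * |θ - c / D|) ≤ d * Z ^ (-(1 - ε / 8 - ε / 4)) := by
    calc (d : ℝ) * q * (D * |θ - c / D|) ≤ d * Z ^ (ε / 8) * Z ^ (-(1 - ε / 4)) := by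
          apply mul_le_mul _ (h2.trans h3) (by positivity) (by positivity)
          exact mul_le_mul_of_nonneg_left hqZ hd0.le
      _ = d * Z ^ (-(1 - ε / 8 - ε / 4)) := by
          rw [mul_assoc, ← Real.rpow_add hZ0]
          congr 2
          ring
  have h5 : 0 < d * Z ^ (-(1 - ε / 8 - ε / 4)) := by positivity
  linarith

/-- sums with the von Mangoldt function over `(⌊Z⌋, t]` -/
lemma mangoldtJ (r : ℕ) (ε : ℝ) (hε : 0 < ε) (hε1 : ε ≤ 1 / 2) (d : ℕ) (hd : 1 ≤ d) :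
    ∀ᶠ Z : ℝ in atTop, ∀ α : Fin r → ℝ, Dio ε Z α → ∀ h : Fin r → ℤ, h ≠ 0 →
      (∀ j, |(h j : ℝ)| ≤ Z ^ (ε / 8)) → ∀ q : ℕ, 1 ≤ q → (q : ℝ) ≤ Z ^ (ε / 8) → ∀ j : ℤ,
      ∀ t : ℕ, ⌊Z⌋₊ ≤ t → (t : ℝ) ≤ 2 * Z →
      ‖∑ n ∈ Ioc ⌊Z⌋₊ t, ((ArithmeticFunction.vonMangoldt n : ℝ) : ℂ) *
        e (((∑ i, (h i : ℝ) * α i) / q + j / d) * n)‖ ≤ 4 * Z ^ (1 - 9 / 20 * (ε / 8)) := by
  obtain ⟨N0, hN0⟩ := Pool.Agent.W110.HV.vino (ε / 8) (by positivity) (by linarith)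
  filter_upwards [freqJ r ε hε hε1 d hd, eventually_ge_atTop (4 : ℝ),
    eventually_ge_atTop (2 * (N0 : ℝ)),
    ev_pow (ε / 8) (ε / 4) 2 (by linarith), ev_pow (1 - ε / 4) (1 - ε / 8) 2 (by linarith)]
    with Z hfr hZ4 hZN hp1 hp2
  intro α hα h hh hhZ q hq hqZ j t ht1 ht2
  have hZ0 : 0 < Z := by linarith
  have hZ1 : 1 ≤ Z := by linarith
  obtain ⟨c, D, hcop, hD1, hD2, hap⟩ := hfr α hα h hh hhZ q hq hqZ j
  set β : ℝ := (∑ i, (h i : ℝ) * α i) / q + j / d with hβ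
  have hm₀ : Z / 2 ≤ (⌊Z⌋₊ : ℝ) := by
    have := Nat.lt_floor_add_one Z
    linarith
  have hone : ∀ N : ℕ, Z / 2 ≤ N → (N : ℝ) ≤ 2 * Z →
      ‖∑ n ∈ Icc 1 N, ((ArithmeticFunction.vonMangoldt n : ℝ) : ℂ) * e (β * n)‖ ≤
        2 * Z ^ (1 - 9 / 20 * (ε / 8)) := by
    intro N hN1 hN2
    have hNpos : (0 : ℝ) < N := by linarith
    have h1 := hN0 N (by
      have : (N0 : ℝ) ≤ N := by linarith
      exact_mod_cast this) D (by
        refine le_trans ?_ hD1
        calc (N : ℝ) ^ (ε / 8) ≤ (2 * Z) ^ (ε / 8) :=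
              Real.rpow_le_rpow hNpos.le hN2 (by positivity)
          _ = 2 ^ (ε / 8) * Z ^ (ε / 8) := Real.mul_rpow (by norm_num) hZ0.le
          _ ≤ 2 * Z ^ (ε / 8) := by
              apply mul_le_mul_of_nonneg_right _ (by positivity)
              calc (2 : ℝ) ^ (ε / 8) ≤ 2 ^ (1 : ℝ) :=
                    Real.rpow_le_rpow_of_exponent_le (by norm_num) (by linarith)
                _ = 2 := Real.rpow_one 2
          _ ≤ _ := hp1) (by
        refine hD2.trans ?_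
        calc Z ^ (1 - ε / 4) ≤ Z ^ (1 - ε / 8) / 2 := by linarith
          _ ≤ (Z / 2) ^ (1 - ε / 8) := by
              rw [Real.div_rpow hZ0.le (by norm_num)]
              apply div_le_div_of_nonneg_left (by positivity) (by positivity)
              calc (2 : ℝ) ^ (1 - ε / 8) ≤ 2 ^ (1 : ℝ) :=
                    Real.rpow_le_rpow_of_exponent_le (by norm_num) (by linarith)
                _ = 2 := Real.rpow_one 2
          _ ≤ _ := Real.rpow_le_rpow (by positivity) hN1 (by linarith)) c hcop β hap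
    have h2 : ∑ n ∈ Icc 1 N, ((ArithmeticFunction.vonMangoldt n : ℝ) : ℂ) * e (β * n) =
        ∑ n ∈ Icc 1 N, ((ArithmeticFunction.vonMangoldt n : ℝ) : ℂ) *
          Pool.Agent.Helper112.ee ((n : ℝ) * β) := by
      refine sum_congr rfl fun n _ => ?_
      rw [ee_eq_e, mul_comm β]
    rw [h2]
    refine h1.trans ?_
    calc (N : ℝ) ^ (1 - 9 / 20 * (ε / 8)) ≤ (2 * Z) ^ (1 - 9 / 20 * (ε / 8)) :=
          Real.rpow_le_rpow hNpos.le hN2 (by linarith)
      _ = 2 ^ (1 - 9 / 20 * (ε / 8)) * Z ^ (1 - 9 / 20 * (ε / 8)) :=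
          Real.mul_rpow (by norm_num) hZ0.le
      _ ≤ _ := by
          apply mul_le_mul_of_nonneg_right _ (by positivity)
          calc (2 : ℝ) ^ (1 - 9 / 20 * (ε / 8)) ≤ 2 ^ (1 : ℝ) :=
                Real.rpow_le_rpow_of_exponent_le (by norm_num) (by linarith)
            _ = 2 := Real.rpow_one 2
  have e1 : ∑ n ∈ Ioc ⌊Z⌋₊ t, ((ArithmeticFunction.vonMangoldt n : ℝ) : ℂ) * e (β * n) =
      ∑ n ∈ Icc 1 t, ((ArithmeticFunction.vonMangoldt n : ℝ) : ℂ) * e (β * n) -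
        ∑ n ∈ Icc 1 ⌊Z⌋₊, ((ArithmeticFunction.vonMangoldt n : ℝ) : ℂ) * e (β * n) := by
    have e2 : Finset.Icc 1 t = Finset.Icc 1 ⌊Z⌋₊ ∪ Ioc ⌊Z⌋₊ t := by
      ext k
      simp only [Finset.mem_union, Finset.mem_Icc, Finset.mem_Ioc]
      omega
    have e3 : Disjoint (Finset.Icc 1 ⌊Z⌋₊) (Ioc ⌊Z⌋₊ t) := by
      rw [Finset.disjoint_left]
      intro k hk hk'
      rw [Finset.mem_Icc] at hk
      rw [Finset.mem_Ioc] at hk'
      omega
    rw [e2, Finset.sum_union e3]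
    ring
  rw [e1]
  have h1 := hone t (hm₀.trans (by exact_mod_cast ht1)) ht2
  have h2 := hone ⌊Z⌋₊ hm₀ (by
    have := Nat.floor_le hZ0.le
    linarith)
  calc _ ≤ _ := norm_sub_le _ _
    _ ≤ 2 * Z ^ (1 - 9 / 20 * (ε / 8)) + 2 * Z ^ (1 - 9 / 20 * (ε / 8)) := add_le_add h1 h2
    _ = _ := by ring

set_option maxHeartbeats 4000000 in
/-- the uniform theorem for primes -/
theorem primes_uniform (r : ℕ) (hr : 1 ≤ r) (ε : ℝ) (hε : 0 < ε) (hε1 : ε ≤ 1 / 2) (d b : ℕ)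
    (hd : 0 < d) (hb : b.Coprime d) (ρ : ℝ) (hρ : 0 < ρ) (hρ1 : ρ ≤ 1) :
    ∃ κ : ℝ, 0 < κ ∧ ∃ Z₀ : ℝ, ∀ Z : ℝ, Z₀ ≤ Z → ∀ α β : Fin r → ℝ, Dio ε Z α →
      (∀ n : ℕ, Z < n → (n : ℝ) ≤ (1 + ρ) * Z → ∀ j, Z ^ ε ≤ α j * n + β j) →
      ∃ p : ℕ, p.Prime ∧ p ≡ b [MOD d] ∧ Z < p ∧ (p : ℝ) ≤ (1 + ρ) * Z ∧
        ∀ j, ∀ q : ℕ, q.Prime → κ * ff Z < |(q : ℝ) - (α j * p + β j)| := by
  classical
  obtain ⟨κ, hκ, hcrit⟩ := crit_scaledJ r hr (ε / 1000) (by positivity) (by linarith)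
  have hlogev : ∀ᶠ Z : ℝ in atTop, Real.log (2 * Z) ≤ Z ^ (1 / 4 : ℝ) := by
    have e1 := (isLittleO_log_rpow_atTop (show (0 : ℝ) < 1 / 8 by norm_num)).def
      (show (0 : ℝ) < 1 by norm_num)
    have e2 : Tendsto (fun Z : ℝ => 2 * Z) atTop atTop := tendsto_id.const_mul_atTop (by norm_num)
    filter_upwards [e2.eventually e1, eventually_ge_atTop (1 : ℝ),
      ev_pow (1 / 8) (1 / 4) (2 ^ (1 / 8 : ℝ)) (by norm_num)] with Z e3 e4 e5
    rw [Real.norm_eq_abs, Real.norm_eq_abs, abs_of_nonneg (Real.log_nonneg (by linarith)),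
      abs_of_nonneg (by positivity), one_mul, Real.mul_rpow (by norm_num) (by linarith)] at e3
    linarith
  refine ⟨κ, hκ, ?_⟩
  apply eventually_atTop.mp
  filter_upwards [hcrit, mangoldtJ r ε hε hε1 d hd,
    card_primes d hd b hb ρ (ε / 1000) hρ hρ1 (by positivity), hlogev,
    eventually_ge_atTop (4 : ℝ), ev_pow (3 / 4) (1 - 9 / 20 * (ε / 8)) 4 (by linarith),
    ev_pow (1 - 9 / 20 * (ε / 8)) (1 - ε / 1000 - ε / 1000) 5 (by linarith)]
    with Z hcr hvm hcard hlog hZ4 hp1 hp2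
  intro α β hα hpos
  have hZ0 : 0 < Z := by linarith
  have hZ1 : 1 ≤ Z := by linarith
  have hmono1 : Z ^ (ε / 1000) ≤ Z ^ (ε / 8) := Real.rpow_le_rpow_of_exponent_le hZ1 (by linarith)
  have hmono2 : Z ^ (ε / 1000) ≤ Z ^ ε := Real.rpow_le_rpow_of_exponent_le hZ1 (by linarith)
  set m₀ : ℕ := ⌊Z⌋₊ with hm₀
  set m₁ : ℕ := ⌊(1 + ρ) * Z⌋₊ with hm₁
  have hm04 : 4 ≤ m₀ := Nat.le_floor (by exact_mod_cast hZ4)
  have hm1' : (m₁ : ℝ) ≤ (1 + ρ) * Z := Nat.floor_le (by positivity)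
  have hm1 : (m₁ : ℝ) ≤ 2 * Z := by nlinarith
  set Q : Finset ℕ := (Ioc m₀ m₁).filter (fun p => p.Prime ∧ p ≡ b [MOD d]) with hQ
  have hQpos : (0 : ℝ) < Q.card := lt_of_lt_of_le (by positivity) hcard
  have hQne : Q.Nonempty := by
    rw [← Finset.card_pos]
    exact_mod_cast hQpos
  have hQmem : ∀ p ∈ Q, p.Prime ∧ p ≡ b [MOD d] ∧ Z < p ∧ (p : ℝ) ≤ (1 + ρ) * Z := by
    intro p hp
    rw [hQ, Finset.mem_filter, Finset.mem_Ioc] at hp
    refine ⟨hp.2.1, hp.2.2, ?_, ?_⟩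
    · exact (Nat.floor_lt hZ0.le).mp hp.1.1
    · have : (p : ℝ) ≤ m₁ := by exact_mod_cast hp.1.2
      linarith
  have hm01 : m₀ < m₁ := by
    obtain ⟨p, hp⟩ := hQne
    rw [hQ, Finset.mem_filter, Finset.mem_Ioc] at hp
    omega
  obtain ⟨p, hp, hp2'⟩ := hcr ℕ Q (fun p j => α j * p + β j) hQne (by
      intro p hp j
      have h1 := hQmem p hp
      exact hmono2.trans (hpos p h1.2.2.1 h1.2.2.2 j)) (by
      intro q hq hqZ h hh hhZ
      have hhZ' : ∀ j, |(h j : ℝ)| ≤ Z ^ (ε / 8) := fun j => (hhZ j).trans hmono1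
      have hqZ' : (q : ℝ) ≤ Z ^ (ε / 8) := hqZ.trans hmono1
      set φ : ℝ := (∑ i, (h i : ℝ) * α i) / q with hφ
      have e0 : ∀ p ∈ Q, e (∑ j, (h j : ℝ) * ((α j * p + β j) / q)) =
          e (φ * p) * e ((∑ j, (h j : ℝ) * β j) / q) := by
        intro p _
        rw [← e_add]
        congr 1
        rw [hφ, Finset.sum_div, Finset.sum_div, Finset.sum_mul, ← Finset.sum_add_distrib]
        apply Finset.sum_congr rfl
        intro j _
        ring
      rw [sum_congr rfl e0, ← sum_mul, norm_mul, norm_e, mul_one]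
      set E : ℝ := 5 * Z ^ (1 - 9 / 20 * (ε / 8)) with hE
      have hE0 : 0 ≤ E := by positivity
      set G : ℕ → ℂ := fun n => (((if n.Prime then Real.log n else 0 : ℝ)) : ℂ) *
        e (φ * n) with hG
      have hcls : ∀ t : ℕ, m₀ ≤ t → t ≤ m₁ →
          ‖∑ n ∈ (Ioc m₀ t).filter (fun n => n ≡ b [MOD d]), G n‖ ≤ E := by
        intro t ht1 ht2
        have htr : (t : ℝ) ≤ 2 * Z := by
          have : (t : ℝ) ≤ m₁ := by exact_mod_cast ht2
          linarith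
        have ht0 : 1 ≤ t := by omega
        have htlog : 2 * √(t : ℝ) * Real.log t ≤ Z ^ (1 - 9 / 20 * (ε / 8)) := by
          have h7 : √(t : ℝ) ≤ 2 * Z ^ (1 / 2 : ℝ) := by
            rw [← Real.sqrt_eq_rpow]
            calc √(t : ℝ) ≤ √(2 ^ 2 * Z) := Real.sqrt_le_sqrt (by linarith)
              _ = 2 * √Z := by rw [Real.sqrt_mul (by norm_num), Real.sqrt_sq (by norm_num)]
          have h8 : Real.log (t : ℝ) ≤ Z ^ (1 / 4 : ℝ) := by
            refine le_trans ?_ hlog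
            apply Real.log_le_log _ htr
            exact_mod_cast ht0
          have h9 : 0 ≤ Real.log (t : ℝ) := Real.log_nonneg (by exact_mod_cast ht0)
          calc 2 * √(t : ℝ) * Real.log t ≤ 2 * (2 * Z ^ (1 / 2 : ℝ)) * Z ^ (1 / 4 : ℝ) := by gcongr
            _ = 4 * (Z ^ (1 / 2 : ℝ) * Z ^ (1 / 4 : ℝ)) := by ring
            _ = 4 * Z ^ (3 / 4 : ℝ) := by rw [← Real.rpow_add hZ0]; norm_num
            _ ≤ _ := hp1
        apply class_bound (Ioc m₀ t) G d hd b E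
        intro j _
        have h1 := hvm α hα h hh hhZ' q hq hqZ' (j : ℤ) t ht1 htr
        have h2 := prime_bound m₀ t ht0 (fun n => e ((φ + ((j : ℤ) : ℝ) / d) * n))
          (fun n => (norm_e _).le) _ h1
        have h3 : ∑ n ∈ Ioc m₀ t, G n * e ((j : ℝ) / d * n) =
            ∑ n ∈ Ioc m₀ t, (((if n.Prime then Real.log n else 0 : ℝ)) : ℂ) *
              e ((φ + ((j : ℤ) : ℝ) / d) * n) := by
          refine sum_congr rfl fun n _ => ?_
          rw [hG]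
          simp only
          rw [mul_assoc, ← e_add]
          congr 2
          push_cast
          ring
        rw [h3]
        refine h2.trans ?_
        rw [hE]
        linarith
      set a : ℕ → ℂ := fun n => if n ≡ b [MOD d] then G n else 0 with ha
      set w : ℕ → ℝ := fun n => (Real.log n)⁻¹ with hw
      have hlogpos : ∀ n : ℕ, m₀ < n → 1 ≤ Real.log n := by
        intro n hn
        rw [Real.le_log_iff_exp_le (by
          have : 0 < n := by omega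
          exact_mod_cast this)]
        have h1 := Real.exp_one_lt_d9
        have h2 : (5 : ℝ) ≤ n := by exact_mod_cast (by omega : 5 ≤ n)
        linarith
      have hab := abel_bound w a m₀ E (fun n hn => by
          have := hlogpos n hn
          rw [hw]
          positivity) (fun n hn => by
          have h1 := hlogpos n hn
          rw [hw]
          simp only
          apply inv_anti₀ (by linarith)
          apply Real.log_le_log
          · have : 0 < n := by omega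
            exact_mod_cast this
          · push_cast
            linarith) m₁ hm01 (fun t ht1 ht2 => by
          have h1 := hcls t ht1.le ht2
          rw [sum_filter] at h1
          exact h1)
      have hsum : ∑ p ∈ Q, e (φ * p) = ∑ i ∈ Ioc m₀ m₁, (w i : ℂ) * a i := by
        rw [hQ, sum_filter]
        refine sum_congr rfl fun n hn => ?_
        have hn0 := hlogpos n (Finset.mem_Ioc.mp hn).1
        rw [ha, hw, hG]
        simp only
        by_cases h1 : n ≡ b [MOD d]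
        · by_cases h2 : n.Prime
          · rw [if_pos ⟨h2, h1⟩, if_pos h1, if_pos h2, ← mul_assoc]
            rw [← Complex.ofReal_mul, inv_mul_cancel₀ (by linarith), Complex.ofReal_one, one_mul]
          · rw [if_neg (fun h3 => h2 h3.1), if_pos h1, if_neg h2]
            simp
        · rw [if_neg (fun h3 => h1 h3.2), if_neg h1, mul_zero]
      rw [hsum]
      refine hab.trans ?_
      have hw1 : w (m₀ + 1) ≤ 1 := by
        rw [hw]
        exact inv_le_one_of_one_le₀ (hlogpos (m₀ + 1) (by omega))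
      calc w (m₀ + 1) * E ≤ 1 * E := mul_le_mul_of_nonneg_right hw1 hE0
        _ = 5 * Z ^ (1 - 9 / 20 * (ε / 8)) := by rw [one_mul]
        _ ≤ Z ^ (1 - ε / 1000 - ε / 1000) := hp2
        _ = Z ^ (1 - ε / 1000) * Z ^ (-(ε / 1000)) := by
            rw [← Real.rpow_add hZ0]; congr 1
        _ ≤ _ := by gcongr)
  obtain ⟨h1, h2, h3, h4⟩ := hQmem p hp
  exact ⟨p, h1, h2, h3, h4, hp2'⟩

end Pool.Agent.Y961.JR
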