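import Pool.Agent.Y961.JR.Primes
import Pool.Agent.Y961.JR.Expo

set_option autoImplicit false

/-! # Record prime gaps around several real multiples of a prime number: fixed coefficients -/

namespace Pool.Agent.Y961.JR

open Finset Filter Module
open Pool.Agent.W147.PS (ff ff_compare ev_pow)

lemma dio_ev {r : ℕ} (τ ε : ℝ) (hτ : 0 ≤ τ) (hε : 0 < ε) (hετ : ε * (τ + 1) < 1) (α : Fin r → ℝ)
    (hdio : ∃ c : ℝ, 0 < c ∧ ∀ (H : ℕ) (h : Fin r → ℤ), h ≠ 0 → (∀ j, |h j| ≤ H) → ∀ m : ℤ,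
      c * (H : ℝ) ^ (-τ) ≤ |∑ j, (h j : ℝ) * α j - m|) : ∀ᶠ Z : ℝ in atTop, Dio ε Z α := by
  obtain ⟨c, hc, hdio⟩ := hdio
  filter_upwards [ev_pow (-(1 - ε)) (-(ε * τ)) (1 / c) (by linarith), eventually_ge_atTop (1 : ℝ)]
    with Z g2 g3
  have hZ0 : 0 < Z := by linarith
  intro h hh hhZ m
  set H : ℕ := ⌊Z ^ ε⌋₊ with hH
  have hHZ : (H : ℝ) ≤ Z ^ ε := Nat.floor_le (Real.rpow_nonneg hZ0.le _)
  have hhH : ∀ j, |h j| ≤ (H : ℤ) := by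
    intro j
    have h3 : ((h j).natAbs : ℝ) ≤ Z ^ ε := by
      rw [Nat.cast_natAbs]
      push_cast
      exact hhZ j
    have h4 : (h j).natAbs ≤ H := Nat.le_floor h3
    rw [Int.abs_eq_natAbs]
    exact_mod_cast h4
  have hH1 : 1 ≤ H := Nat.le_floor (by
    rw [Nat.cast_one]
    exact Real.one_le_rpow g3 hε.le)
  have hH0 : (0 : ℝ) < H := by exact_mod_cast hH1
  refine le_trans ?_ (hdio H h hh hhH m)
  have e1 : (Z ^ ε) ^ (-τ) ≤ (H : ℝ) ^ (-τ) := Real.rpow_le_rpow_of_nonpos hH0 hHZ (by linarith)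
  have e2 : (Z ^ ε) ^ (-τ) = Z ^ (-(ε * τ)) := by
    rw [← Real.rpow_mul hZ0.le]
    congr 1
    ring
  rw [e2] at e1
  have e3 : Z ^ (-(1 - ε)) ≤ c * Z ^ (-(ε * τ)) := by
    rw [one_div, inv_mul_le_iff₀ hc] at g2
    exact g2
  exact e3.trans (mul_le_mul_of_nonneg_left e1 hc.le)

/-- Diophantine coefficients -/
theorem primes_dioph (r : ℕ) (hr : 1 ≤ r) (τ : ℝ) (hτ : 0 ≤ τ) (d b : ℕ) (hd : 0 < d)
    (hb : b.Coprime d) (ρ : ℝ) (hρ : 0 < ρ) (hρ1 : ρ ≤ 1) :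
    ∃ κ : ℝ, 0 < κ ∧ ∀ α β : Fin r → ℝ, (∀ j, 0 < α j) →
    (∃ c : ℝ, 0 < c ∧ ∀ (H : ℕ) (h : Fin r → ℤ), h ≠ 0 → (∀ j, |h j| ≤ H) → ∀ m : ℤ,
      c * (H : ℝ) ^ (-τ) ≤ |∑ j, (h j : ℝ) * α j - m|) →
    ∃ Z₀ : ℝ, ∀ Z : ℝ, Z₀ ≤ Z → ∃ p : ℕ, p.Prime ∧ p ≡ b [MOD d] ∧ Z < p ∧ (p : ℝ) ≤ (1 + ρ) * Z ∧
      ∀ j, ∀ q : ℕ, q.Prime → κ * ff Z < |(q : ℝ) - (α j * p + β j)| := by
  set ε : ℝ := 1 / (τ + 2) with hε
  have hε0 : 0 < ε := by positivity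
  have hε1 : ε ≤ 1 / 2 := one_div_le_one_div_of_le (by norm_num) (by linarith)
  obtain ⟨κ, hκ, Z₁, h1⟩ := primes_uniform r hr ε hε0 hε1 d b hd hb ρ hρ hρ1
  refine ⟨κ, hκ, ?_⟩
  intro α β hα hdio
  have hexp : ε * (τ + 1) < 1 := by
    have : ε * (τ + 2) = 1 := by rw [hε]; field_simp
    nlinarith
  obtain ⟨Z₂, h2⟩ := eventually_atTop.mp ((ev_lower ε (by linarith) α β hα).and
    (dio_ev τ ε hτ hε0 hexp α hdio))
  refine ⟨max Z₁ Z₂, fun Z hZ => ?_⟩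
  obtain ⟨g1, g2⟩ := h2 Z ((le_max_right _ _).trans hZ)
  exact h1 Z ((le_max_left _ _).trans hZ) α β g2 (fun n hn _ j => g1 Z le_rfl n hn j)

/-- multiples by numbers `c e ^ w` with `c` in a real number field -/
theorem primes_exp (K : IntermediateField ℚ ℝ) [FiniteDimensional ℚ K] (r : ℕ) (hr : 1 ≤ r)
    (a : Fin r → K) (w : Fin r → ℕ) (ha : ∀ j, 0 < ((a j : K) : ℝ))
    (hli : LinearIndependent ℚ
      (Fin.cons 1 (fun j => (a j : ℝ) * Real.exp (w j)) : Fin (r + 1) → ℝ))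
    (d b : ℕ) (hd : 0 < d) (hb : b.Coprime d) (ρ : ℝ) (hρ : 0 < ρ) (hρ1 : ρ ≤ 1) :
    ∃ κ : ℝ, 0 < κ ∧ ∀ β : Fin r → ℝ, ∃ Z₀ : ℝ, ∀ Z : ℝ, Z₀ ≤ Z →
    ∃ p : ℕ, p.Prime ∧ p ≡ b [MOD d] ∧ Z < p ∧ (p : ℝ) ≤ (1 + ρ) * Z ∧
      ∀ j, ∀ q : ℕ, q.Prime → κ * ff Z < |(q : ℝ) - ((a j : ℝ) * Real.exp (w j) * p + β j)| := by
  set R : ℕ := ∑ j, w j with hR
  have hfun : (fun j : Fin (r + 1) => (((Fin.cons 1 a : Fin (r + 1) → K) j : K) : ℝ) *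
      Real.exp (((Fin.cons 0 w : Fin (r + 1) → ℕ) j : ℕ) : ℝ)) =
      (Fin.cons 1 (fun j => (a j : ℝ) * Real.exp (w j)) : Fin (r + 1) → ℝ) := by
    funext j
    refine Fin.cases ?_ (fun j => ?_) j
    · simp
    · simp
  obtain ⟨c₀, hc₀, hMeas⟩ := Pool.Agent.TH629.ExpAlg.meas_exp_field K
    (Fin.cons 1 a : Fin (r + 1) → K) (Fin.cons 0 w : Fin (r + 1) → ℕ) R (by
      intro j
      refine Fin.cases ?_ (fun j => ?_) j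
      · simp
      · simp only [Fin.cons_succ]
        exact Finset.single_le_sum (fun _ _ => Nat.zero_le _) (Finset.mem_univ j))
    (by rw [hfun]; exact hli) 1 one_pos
  rw [hfun] at hMeas
  set τ : ℝ := (finrank ℚ K : ℝ) * (finrank ℚ K * R + 1) - 1 + 1 with hτ
  have hτ0 : 0 ≤ τ := by
    rw [hτ, sub_add_cancel]
    positivity
  have hdio := dioph_of_meas (fun j => (a j : ℝ) * Real.exp (w j)) τ c₀ hτ0 hc₀ hMeas
  obtain ⟨κ, hκ, h⟩ := primes_dioph r hr τ hτ0 d b hd hb ρ hρ hρ1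
  exact ⟨κ, hκ, fun β => h (fun j => (a j : ℝ) * Real.exp (w j)) β
    (fun j => mul_pos (ha j) (Real.exp_pos _)) hdio⟩

end Pool.Agent.Y961.JR
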